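import Pool.Agent.Lib.MP_a247fa_nt.W.Defs

/-! CRCBASIC (40 min). Elementary facts on the class `CrC`.

`crc_id`: the cross ratio inequality is an equality. `crc_restrict`: clear. `crc_comp`: `h` maps `[c,d]` into `[a,b]`.
If `h` is increasing, `h x < h y < h z < h w` and the inequality for `g` at these points, multiplied with the one for `h`:
write `A = |g(hz)-g(hy)||g(hw)-g(hx)|`, `B = |g(hy)-g(hx)||g(hw)-g(hz)|`, `C = (hy-hx)(hw-hz) > 0`, `D = (hz-hy)(hw-hx) > 0`:
`A C ≤ B D` and `D (y-x)(w-z) ≤ C (z-y)(w-x)`, so `A (y-x)(w-z) D ≤ A C (z-y)(w-x) ≤ B D (z-y)(w-x)`; cancel `D`.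
If `h` is decreasing use the four points `h w < h z < h y < h x` for `g` (and `abs_sub_comm`).
`crc_add`: for `x ≤ y ≤ z` in `[a,b]`, `|g z - g x| = |g z - g y| + |g y - g x|` (monotone). `crc_pos`: injective.
`crc_le`: subinterval. `crc_image`: the image of `[x,y]` under a monotone continuous function lies in (equals) `uIcc (g x) (g y)`. -/

set_option autoImplicit false

namespace Pool.Agent.Lib.MP_a247fa_nt.W

open Set MeasureTheory

theorem crc_id (a b : ℝ) : CrC (fun x => x) a b := by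
  refine ⟨continuousOn_id, Or.inl (strictMonoOn_id), ?_⟩
  intro x y z w _ hxy hyz hzw _
  rw [abs_of_pos (by linarith), abs_of_pos (by linarith), abs_of_pos (by linarith),
    abs_of_pos (by linarith)]
  exact le_of_eq (by ring)

theorem crc_restrict {g : ℝ → ℝ} {a b c d : ℝ} (hg : CrC g a b) (hac : a ≤ c) (hdb : d ≤ b) : CrC g c d := by
  have hsub : Icc c d ⊆ Icc a b := Icc_subset_Icc hac hdb
  refine ⟨hg.cont.mono hsub, ?_, ?_⟩
  · rcases hg.mono with h | h
    · exact Or.inl (h.mono hsub)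
    · exact Or.inr (h.mono hsub)
  · intro x y z w hx hxy hyz hzw hw
    exact hg.cr x y z w (hac.trans hx) hxy hyz hzw (hw.trans hdb)

private theorem crc_aux {A B C D P Q : ℝ} (hA : 0 ≤ A) (hQ : 0 ≤ Q) (hD : 0 < D)
    (h1 : A * C ≤ B * D) (h2 : D * P ≤ C * Q) : A * P ≤ B * Q := by
  have h3 : D * (A * P) ≤ D * (B * Q) := by
    calc D * (A * P) = A * (D * P) := by ring
      _ ≤ A * (C * Q) := mul_le_mul_of_nonneg_left h2 hA
      _ = (A * C) * Q := by ring
      _ ≤ (B * D) * Q := mul_le_mul_of_nonneg_right h1 hQ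
      _ = D * (B * Q) := by ring
  exact le_of_mul_le_mul_left h3 hD

theorem crc_comp {g h : ℝ → ℝ} {a b c d : ℝ} (hg : CrC g a b) (hh : CrC h c d)
    (hm : ∀ x ∈ Icc c d, h x ∈ Icc a b) : CrC (fun x => g (h x)) c d := by
  have hmap : MapsTo h (Icc c d) (Icc a b) := hm
  refine ⟨hg.cont.comp hh.cont hmap, ?_, ?_⟩
  · rcases hg.mono with h1 | h1 <;> rcases hh.mono with h2 | h2
    · exact Or.inl fun x hx y hy hxy => h1 (hm x hx) (hm y hy) (h2 hx hy hxy)
    · exact Or.inr fun x hx y hy hxy => h1 (hm y hy) (hm x hx) (h2 hx hy hxy)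
    · exact Or.inr fun x hx y hy hxy => h1 (hm x hx) (hm y hy) (h2 hx hy hxy)
    · exact Or.inl fun x hx y hy hxy => h1 (hm y hy) (hm x hx) (h2 hx hy hxy)
  · intro x y z w hx hxy hyz hzw hw
    have hxI : x ∈ Icc c d := ⟨hx, by linarith⟩
    have hyI : y ∈ Icc c d := ⟨by linarith, by linarith⟩
    have hzI : z ∈ Icc c d := ⟨by linarith, by linarith⟩
    have hwI : w ∈ Icc c d := ⟨by linarith, hw⟩
    have hcr := hh.cr x y z w hx hxy hyz hzw hw
    have hQ : 0 ≤ (z - y) * (w - x) := mul_nonneg (by linarith) (by linarith)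
    rcases hh.mono with h2 | h2
    · have e1 := h2 hxI hyI hxy
      have e2 := h2 hyI hzI hyz
      have e3 := h2 hzI hwI hzw
      have hgcr := hg.cr (h x) (h y) (h z) (h w) (hm x hxI).1 e1 e2 e3 (hm w hwI).2
      rw [abs_of_pos (sub_pos.2 e2), abs_of_pos (sub_pos.2 (e1.trans (e2.trans e3))),
        abs_of_pos (sub_pos.2 e1), abs_of_pos (sub_pos.2 e3)] at hcr
      exact crc_aux (by positivity) hQ
        (mul_pos (sub_pos.2 e2) (sub_pos.2 (e1.trans (e2.trans e3)))) hgcr hcr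
    · have e1 := h2 hxI hyI hxy
      have e2 := h2 hyI hzI hyz
      have e3 := h2 hzI hwI hzw
      have hgcr := hg.cr (h w) (h z) (h y) (h x) (hm w hwI).1 e3 e2 e1 (hm x hxI).2
      rw [abs_sub_comm (h z), abs_sub_comm (h w) (h x), abs_sub_comm (h y) (h x),
        abs_sub_comm (h w) (h z),
        abs_of_pos (sub_pos.2 e2), abs_of_pos (sub_pos.2 (e3.trans (e2.trans e1))),
        abs_of_pos (sub_pos.2 e1), abs_of_pos (sub_pos.2 e3)] at hcr
      have hgcr' : |g (h z) - g (h y)| * |g (h w) - g (h x)| * ((h x - h y) * (h z - h w)) ≤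
          |g (h y) - g (h x)| * |g (h w) - g (h z)| * ((h y - h z) * (h x - h w)) := by
        rw [abs_sub_comm (g (h z)), abs_sub_comm (g (h w)), abs_sub_comm (g (h y)) (g (h x)),
          abs_sub_comm (g (h w)) (g (h z))]
        calc _ = |g (h y) - g (h z)| * |g (h x) - g (h w)| * ((h z - h w) * (h x - h y)) := by ring
          _ ≤ _ := hgcr
          _ = _ := by ring
      exact crc_aux (by positivity) hQ
        (mul_pos (sub_pos.2 e2) (sub_pos.2 (e3.trans (e2.trans e1)))) hgcr' hcr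

theorem crc_injOn {g : ℝ → ℝ} {a b : ℝ} (hg : CrC g a b) : InjOn g (Icc a b) := by
  rcases hg.mono with h | h
  · exact h.injOn
  · exact h.injOn

theorem crc_pos {g : ℝ → ℝ} {a b x y : ℝ} (hg : CrC g a b) (hx : a ≤ x) (hxy : x < y) (hy : y ≤ b) :
    0 < |g y - g x| := by
  refine abs_pos.2 (sub_ne_zero.2 fun h => ?_)
  have := crc_injOn hg ⟨hx.trans hxy.le, hy⟩ ⟨hx, hxy.le.trans hy⟩ h
  exact hxy.ne' this

theorem crc_add {g : ℝ → ℝ} {a b x y z : ℝ} (hg : CrC g a b) (hx : a ≤ x) (hxy : x ≤ y) (hyz : y ≤ z) (hz : z ≤ b) :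
    |g z - g x| = |g z - g y| + |g y - g x| := by
  have hxI : x ∈ Icc a b := ⟨hx, by linarith⟩
  have hyI : y ∈ Icc a b := ⟨by linarith, by linarith⟩
  have hzI : z ∈ Icc a b := ⟨by linarith, hz⟩
  rcases hg.mono with h | h
  · have h1 := h.monotoneOn hxI hyI hxy
    have h2 := h.monotoneOn hyI hzI hyz
    rw [abs_of_nonneg (by linarith), abs_of_nonneg (by linarith), abs_of_nonneg (by linarith)]
    ring
  · have h1 := h.antitoneOn hxI hyI hxy
    have h2 := h.antitoneOn hyI hzI hyz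
    rw [abs_of_nonpos (by linarith), abs_of_nonpos (by linarith), abs_of_nonpos (by linarith)]
    ring

theorem crc_le {g : ℝ → ℝ} {a b x y s t : ℝ} (hg : CrC g a b) (hx : a ≤ x) (hxs : x ≤ s) (hst : s ≤ t) (hty : t ≤ y)
    (hy : y ≤ b) : |g t - g s| ≤ |g y - g x| := by
  have h1 := crc_add hg hx hxs (hst.trans hty) hy
  have h2 := crc_add hg (hx.trans hxs) hst hty hy
  have h3 := abs_nonneg (g s - g x)
  have h4 := abs_nonneg (g y - g t)
  linarith

private theorem crc_image_uIcc {g : ℝ → ℝ} {a b x y : ℝ} (hg : CrC g a b) (hx : a ≤ x) (hy : y ≤ b)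
    {s : ℝ} (hs : s ∈ Icc x y) : g s ∈ uIcc (g x) (g y) := by
  have hxI : x ∈ Icc a b := ⟨hx, hs.1.trans (hs.2.trans hy)⟩
  have hyI : y ∈ Icc a b := ⟨hx.trans (hs.1.trans hs.2), hy⟩
  have hsI : s ∈ Icc a b := ⟨hx.trans hs.1, hs.2.trans hy⟩
  rcases hg.mono with h | h
  · exact mem_uIcc.2 (Or.inl ⟨h.monotoneOn hxI hsI hs.1, h.monotoneOn hsI hyI hs.2⟩)
  · exact mem_uIcc.2 (Or.inr ⟨h.antitoneOn hsI hyI hs.2, h.antitoneOn hxI hsI hs.1⟩)

/-- measure of the image of a set inside `[x, y]` -/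
theorem crc_vol {g : ℝ → ℝ} {a b x y : ℝ} (hg : CrC g a b) (hx : a ≤ x) (_hxy : x ≤ y) (hy : y ≤ b) {X : Set ℝ}
    (hX : X ⊆ Icc x y) : volume (g '' X) ≤ ENNReal.ofReal |g y - g x| := by
  rw [← Real.volume_interval]
  refine measure_mono ?_
  rintro _ ⟨s, hs, rfl⟩
  exact crc_image_uIcc hg hx hy (hX hs)

/-- images of disjoint pieces: the image of `X ∩ Ioo x y` lies in the open interval between `g x` and `g y` -/
theorem crc_image_Ioo {g : ℝ → ℝ} {a b x y : ℝ} (hg : CrC g a b) (hx : a ≤ x) (hxy : x ≤ y) (hy : y ≤ b) {s : ℝ}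
    (hs : s ∈ Ioo x y) : g s ∈ Ioo (min (g x) (g y)) (max (g x) (g y)) := by
  have hxI : x ∈ Icc a b := ⟨hx, hxy.trans hy⟩
  have hyI : y ∈ Icc a b := ⟨hx.trans hxy, hy⟩
  have hsI : s ∈ Icc a b := ⟨hx.trans hs.1.le, hs.2.le.trans hy⟩
  rcases hg.mono with h | h
  · exact ⟨(min_le_left _ _).trans_lt (h hxI hsI hs.1),
      (h hsI hyI hs.2).trans_le (le_max_right _ _)⟩
  · exact ⟨(min_le_right _ _).trans_lt (h hsI hyI hs.2),
      (h hxI hsI hs.1).trans_le (le_max_left _ _)⟩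

end Pool.Agent.Lib.MP_a247fa_nt.W
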