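import Pool.Agent.Lib.MP_a247fa_nt.W.Cross4
import Pool.Agent.Lib.MP_a247fa_nt.W.CrcBasic

/-! CRCINV (40 min). The inverse branch of `cf` on an interval without critical points is of class `CrC`.

`[p, q]`, `0 ≤ p < q`, sign of `dcf` constant. `cf` is continuous and strictly monotone on `[p,q]`, so it is a bijection from
`[p,q]` onto `[P, Q]`, where `P = cf p, Q = cf q` if `dcf > 0` and `P = cf q, Q = cf p` if `dcf < 0`
(intermediate value theorem). `h = Function.invFunOn cf (Icc p q)` is its inverse. `h` is strictly monotone (resp. antitone) and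
continuous on `[P,Q]`: a monotone function on an interval whose image is an interval is continuous
(`StrictMonoOn.continuousWithinAt...` / `MonotoneOn` + surjectivity onto `Icc`; or: `cf` restricted to the compact `Icc p q` is a
homeomorphism onto the image; or: sequential argument). Cross ratios: apply `cf_cross` to the points
`h x < h y < h z < h w` (increasing case) resp. `h w < h z < h y < h x` (decreasing case) and use `cf (h x) = x` etc. -/

set_option autoImplicit false

namespace Pool.Agent.Lib.MP_a247fa_nt.W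

open Set

private lemma CrcInv_cont {p q : ℝ} {D : Set ℝ} {h : ℝ → ℝ} (hinj : InjOn cf (Icc p q))
    (hm : ∀ x ∈ D, h x ∈ Icc p q) (he : ∀ x ∈ D, cf (h x) = x) : ContinuousOn h D := by
  haveI : CompactSpace (Icc p q) := isCompact_iff_compactSpace.mp isCompact_Icc
  have hF : Continuous (fun y : Icc p q => cf y) := continuous_cf.comp continuous_subtype_val
  have hi : Function.Injective (fun y : Icc p q => cf y) := by
    intro a b hab
    exact Subtype.ext (hinj a.2 b.2 hab)
  have hcl := hF.isClosedEmbedding hi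
  rw [continuousOn_iff_continuous_restrict]
  let g : D → Icc p q := fun x => ⟨h x, hm x x.2⟩
  have hg : Continuous g := by
    rw [hcl.isInducing.continuous_iff]
    have : ((fun y : Icc p q => cf y) ∘ g) = fun x : D => (x : ℝ) := by
      funext x
      exact he x x.2
    rw [this]
    exact continuous_subtype_val
  exact continuous_subtype_val.comp hg

theorem exists_inv_pos {p q : ℝ} (hp : 0 ≤ p) (hpq : p < q) (hs : ∀ t ∈ Icc p q, 0 < dcf t) :
    ∃ h : ℝ → ℝ, CrC h (cf p) (cf q) ∧ StrictMonoOn h (Icc (cf p) (cf q)) ∧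
      (∀ x ∈ Icc (cf p) (cf q), h x ∈ Icc p q) ∧ (∀ x ∈ Icc (cf p) (cf q), cf (h x) = x) ∧
      (∀ y ∈ Icc p q, cf y ∈ Icc (cf p) (cf q)) ∧ (∀ y ∈ Icc p q, h (cf y) = y) := by
  have hmono : StrictMonoOn cf (Icc p q) := by
    apply strictMonoOn_of_deriv_pos (convex_Icc p q) continuous_cf.continuousOn
    intro x hx
    rw [deriv_cf]
    exact hs x (interior_subset hx)
  have hsurj : Icc (cf p) (cf q) ⊆ cf '' Icc p q :=
    intermediate_value_Icc hpq.le continuous_cf.continuousOn
  have hm : ∀ x ∈ Icc (cf p) (cf q), Function.invFunOn cf (Icc p q) x ∈ Icc p q :=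
    fun x hx => Function.invFunOn_mem (hsurj hx)
  have he : ∀ x ∈ Icc (cf p) (cf q), cf (Function.invFunOn cf (Icc p q) x) = x :=
    fun x hx => Function.invFunOn_eq (hsurj hx)
  have hst : StrictMonoOn (Function.invFunOn cf (Icc p q)) (Icc (cf p) (cf q)) := by
    intro x hx y hy hxy
    rw [← hmono.lt_iff_lt (hm x hx) (hm y hy), he x hx, he y hy]
    exact hxy
  refine ⟨Function.invFunOn cf (Icc p q), ⟨CrcInv_cont hmono.injOn hm he, Or.inl hst, ?_⟩, hst, hm, he, ?_, ?_⟩
  · intro x y z w hx hxy hyz hzw hw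
    have mx : x ∈ Icc (cf p) (cf q) := ⟨hx, by linarith⟩
    have my : y ∈ Icc (cf p) (cf q) := ⟨by linarith, by linarith⟩
    have mz : z ∈ Icc (cf p) (cf q) := ⟨by linarith, by linarith⟩
    have mw : w ∈ Icc (cf p) (cf q) := ⟨by linarith, hw⟩
    have h1 := hst mx my hxy
    have h2 := hst my mz hyz
    have h3 := hst mz mw hzw
    have key := cf_cross hp (Or.inl hs) (hm x mx).1 h1 h2 h3 (hm w mw).2
    rw [he x mx, he y my, he z mz, he w mw] at key
    rw [abs_of_pos (sub_pos.mpr hxy), abs_of_pos (sub_pos.mpr hzw), abs_of_pos (sub_pos.mpr hyz),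
      abs_of_pos (by linarith : 0 < w - x)] at key
    rw [abs_of_pos (sub_pos.mpr h1), abs_of_pos (sub_pos.mpr h3), abs_of_pos (sub_pos.mpr h2),
      abs_of_pos (by linarith)]
    linarith
  · intro y hy
    exact ⟨hmono.monotoneOn (left_mem_Icc.mpr hpq.le) hy hy.1, hmono.monotoneOn hy (right_mem_Icc.mpr hpq.le) hy.2⟩
  · intro y hy
    exact hmono.injOn.leftInvOn_invFunOn hy

theorem exists_inv_neg {p q : ℝ} (hp : 0 ≤ p) (hpq : p < q) (hs : ∀ t ∈ Icc p q, dcf t < 0) :
    ∃ h : ℝ → ℝ, CrC h (cf q) (cf p) ∧ StrictAntiOn h (Icc (cf q) (cf p)) ∧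
      (∀ x ∈ Icc (cf q) (cf p), h x ∈ Icc p q) ∧ (∀ x ∈ Icc (cf q) (cf p), cf (h x) = x) ∧
      (∀ y ∈ Icc p q, cf y ∈ Icc (cf q) (cf p)) ∧ (∀ y ∈ Icc p q, h (cf y) = y) := by
  have hanti : StrictAntiOn cf (Icc p q) := by
    apply strictAntiOn_of_deriv_neg (convex_Icc p q) continuous_cf.continuousOn
    intro x hx
    rw [deriv_cf]
    exact hs x (interior_subset hx)
  have hsurj : Icc (cf q) (cf p) ⊆ cf '' Icc p q :=
    intermediate_value_Icc' hpq.le continuous_cf.continuousOn
  have hm : ∀ x ∈ Icc (cf q) (cf p), Function.invFunOn cf (Icc p q) x ∈ Icc p q :=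
    fun x hx => Function.invFunOn_mem (hsurj hx)
  have he : ∀ x ∈ Icc (cf q) (cf p), cf (Function.invFunOn cf (Icc p q) x) = x :=
    fun x hx => Function.invFunOn_eq (hsurj hx)
  have hst : StrictAntiOn (Function.invFunOn cf (Icc p q)) (Icc (cf q) (cf p)) := by
    intro x hx y hy hxy
    rw [← hanti.lt_iff_gt (hm x hx) (hm y hy), he x hx, he y hy]
    exact hxy
  refine ⟨Function.invFunOn cf (Icc p q), ⟨CrcInv_cont hanti.injOn hm he, Or.inr hst, ?_⟩, hst, hm, he, ?_, ?_⟩
  · intro x y z w hx hxy hyz hzw hw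
    have mx : x ∈ Icc (cf q) (cf p) := ⟨hx, by linarith⟩
    have my : y ∈ Icc (cf q) (cf p) := ⟨by linarith, by linarith⟩
    have mz : z ∈ Icc (cf q) (cf p) := ⟨by linarith, by linarith⟩
    have mw : w ∈ Icc (cf q) (cf p) := ⟨by linarith, hw⟩
    have h1 := hst mx my hxy
    have h2 := hst my mz hyz
    have h3 := hst mz mw hzw
    have key := cf_cross hp (Or.inr hs) (hm w mw).1 h3 h2 h1 (hm x mx).2
    rw [he x mx, he y my, he z mz, he w mw] at key
    rw [abs_of_neg (by linarith : z - w < 0), abs_of_neg (by linarith : x - y < 0),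
      abs_of_neg (by linarith : y - z < 0), abs_of_neg (by linarith : x - w < 0)] at key
    rw [abs_of_neg (sub_neg.mpr h1), abs_of_neg (sub_neg.mpr h3), abs_of_neg (sub_neg.mpr h2),
      abs_of_neg (by linarith)]
    linarith
  · intro y hy
    exact ⟨hanti.antitoneOn hy (right_mem_Icc.mpr hpq.le) hy.2, hanti.antitoneOn (left_mem_Icc.mpr hpq.le) hy hy.1⟩
  · intro y hy
    exact hanti.injOn.leftInvOn_invFunOn hy

end Pool.Agent.Lib.MP_a247fa_nt.W
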