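import Pool.Agent.Lib.MP_a247fa_nt.W.PtLem
import Pool.Agent.Lib.MP_a247fa_nt.Crit.CritUnique

/-! NEAR (45 min). Values and derivatives of `cf` near integers, in the form used for the windows.

From Basic.lean: `cf_even, cf_odd, dcf_even, dcf_odd` at `m + d`, any real `d`; bounds `0 ≤ 1 - cos (π d) ≤ π²d²/2` (Trap.lean),
`π² ∈ (9.869, 9.87)`.
`near_pt_even` (`m ≥ 2` even, `d = τ/(2m+1)`, `τ = 33/50`): `cf (m+d) = m/2 + d/2 + t (2m+1+2d)/4`, `0 ≤ t ≤ π²d²/2`, so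
`m/2 ≤ cf (pt m)` and `(cf (pt m) - m/2)(2m+1) ≤ τ/2 + π²τ²/8 + π²τ³/(4(2m+1)²) ≤ 0.897 < (5/3)(29/50) ≤ (2m+1) tau (m/2)/(m+1)` (`(2m+1)/(m+1) ≥ 5/3`).
`near_pt_odd` (`m ≥ 3` odd, `τ = 29/50`): `cf (m+d) = T m + 3d/2 - t(2m+1+2d)/4`, so `(cf (pt m) - T m)(2m+1) ≥ 3τ/2 - π²τ²/8 - π²τ³/(4(2m+1)²)`, which is
`≥ 0.445` for `m ≥ 3` (`≥ 0.45` for `m ≥ 5`), and `(pt (T m) - T m)(2m+1) ≤ (33/50)(2m+1)/(3m+2) < 0.44`.
`near_dcf_odd` (`m ≥ 3` odd, `0 ≤ d ≤ τ/(2m+1)`, `τ = 29/50`): `dcf (m+d) ≥ 3/2 - π²d²/4 - (2m+1+2d)(π²/4) d ≥ 3/2 - π²τ/4 - (3/4)π²d² > 0`, `d ≤ 29/350` (`1.5 - 1.4312 - 0.0509 > 0`).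
`sign_even_right`: `m` even, `0 ≤ d ≤ 1/2`: `dcf ≥ 1/2`. `sign_odd_left`: `m` odd, `d = -e`, `0 ≤ e ≤ 1/2`, : `dcf ≥ 1` (`2(m-e)+1 ≥ 0`).
`critical points`: for odd `i ≥ 1`, `e = i+1` : `c` near `i` and `c'` near `e` with `i < c < i+1/2 < c' < e`, `dcf > 0` on `[i, c)`, `< 0` on `(c, c')`,
`> 0` on `(c', e + 1/2]`. Use `crit_unique` (existence and uniqueness of the zero of `dcf` in `[m-1/2, m+1/2]`), `dcf i = 3/2`,
`dcf (i + 1/2) = 1 - (2i+2)π/4 < 0`, `dcf e = 1/2`, and the intermediate value theorem (no zero = constant sign). `crit_odd_trap`: `critical_odd` (Critical.lean) with `d = c - i`. -/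

set_option autoImplicit false

namespace Pool.Agent.Lib.MP_a247fa_nt.W

open Set

private lemma near_cont : Continuous dcf := by
  unfold dcf
  fun_prop

private lemma near_L {m : ℕ} : (0 : ℝ) < 2 * m + 1 := by positivity

theorem near_pt_even {m : ℕ} (h : m % 2 = 0) (hm : 2 ≤ m) : (m : ℝ) / 2 ≤ cf (pt m) ∧ cf (pt m) < pt (m / 2) := by
  obtain ⟨k, rfl⟩ : ∃ k, m = 2 * k := ⟨m / 2, by omega⟩
  have hk : 1 ≤ k := by omega
  have hk' : (1 : ℝ) ≤ k := by exact_mod_cast hk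
  have hdiv : 2 * k / 2 = k := by omega
  rw [hdiv]
  have htau : tau (2 * k) = 33 / 50 := by
    unfold tau
    rw [if_neg (by omega)]
  have hpt : pt (2 * k) = ((2 * k : ℕ) : ℝ) + (33 / 50) / (2 * ((2 * k : ℕ) : ℝ) + 1) := by
    unfold pt
    rw [htau]
  set L : ℝ := 2 * ((2 * k : ℕ) : ℝ) + 1 with hL
  have hLk : L = 4 * k + 1 := by
    rw [hL]; push_cast; ring
  have hL5 : 5 ≤ L := by rw [hLk]; linarith
  have hL0 : 0 < L := by linarith
  set d : ℝ := (33 / 50) / L with hd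
  have hdL : d * L = 33 / 50 := by
    rw [hd]; field_simp
  have hd0 : 0 < d := by rw [hd]; positivity
  have hd1 : d ≤ 33 / 250 := by
    rw [hd, div_le_iff₀ hL0]
    linarith
  have ht0 := one_sub_cos_nonneg (Real.pi * d)
  have ht1 := one_sub_cos_le d
  have hp := pi_sq_lt
  have hcf := cf_even (2 * k) h d
  rw [← hL] at hcf
  set t : ℝ := 1 - Real.cos (Real.pi * d) with ht
  have hcos : Real.cos (Real.pi * d) = 1 - t := by rw [ht]; ring
  rw [hcos] at hcf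
  have hval : cf (pt (2 * k)) = k + (d / 2 + t * (d / 2 + L / 4)) := by
    rw [hpt, hcf]; push_cast; ring
  have ht2 : t ≤ 9.87 * d ^ 2 / 2 := by nlinarith [sq_nonneg d]
  refine ⟨?_, ?_⟩
  · rw [hval]; push_cast
    have : 0 ≤ t * (d / 2 + L / 4) := by positivity
    linarith
  · rw [hval]
    have h1 : (d / 2 + t * (d / 2 + L / 4)) * L ≤ 896 / 1000 := by
      have e1 : t * (d / 2 + L / 4) * L ≤ 9.87 * d ^ 2 / 2 * (d / 2 + L / 4) * L := by
        have : 0 ≤ (d / 2 + L / 4) * L := by positivity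
        nlinarith
      have e2 : 9.87 * d ^ 2 / 2 * (d / 2 + L / 4) * L = 9.87 / 4 * d ^ 2 * (d * L) + 9.87 / 8 * (d * L) ^ 2 := by ring
      have e3 : d ^ 2 ≤ (33 / 250) ^ 2 := by nlinarith
      rw [e2, hdL] at e1
      have e4 : (d / 2 + t * (d / 2 + L / 4)) * L = (d * L) / 2 + t * (d / 2 + L / 4) * L := by ring
      rw [e4, hdL]
      nlinarith
    have h2 : (d / 2 + t * (d / 2 + L / 4)) ≤ 896 / 1000 / L := by
      rw [le_div_iff₀ hL0]; exact h1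
    have htk : 29 / 50 ≤ tau k := by
      unfold tau; split_ifs <;> norm_num
    have h3 : 896 / 1000 / L < tau k / (2 * k + 1) := by
      rw [div_lt_div_iff₀ hL0 (by positivity), hLk]
      nlinarith
    unfold pt
    linarith

theorem near_pt_odd {m : ℕ} (h : m % 2 = 1) (hm : 3 ≤ m) : pt (T m) < cf (pt m) := by
  obtain ⟨k, rfl⟩ : ∃ k, m = 2 * k + 1 := ⟨m / 2, by omega⟩
  have hk : 1 ≤ k := by omega
  have hk' : (1 : ℝ) ≤ k := by exact_mod_cast hk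
  have hT : T (2 * k + 1) = 3 * k + 2 := by
    unfold T
    rw [if_neg (by omega)]
    omega
  have htau : tau (2 * k + 1) = 29 / 50 := by
    unfold tau
    rw [if_pos (by omega)]
  have hpt : pt (2 * k + 1) = ((2 * k + 1 : ℕ) : ℝ) + (29 / 50) / (2 * ((2 * k + 1 : ℕ) : ℝ) + 1) := by
    unfold pt
    rw [htau]
  rw [hT]
  set L : ℝ := 2 * ((2 * k + 1 : ℕ) : ℝ) + 1 with hL
  have hLk : L = 4 * k + 3 := by
    rw [hL]; push_cast; ring
  have hL7 : 7 ≤ L := by rw [hLk]; linarith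
  have hL0 : 0 < L := by linarith
  set d : ℝ := (29 / 50) / L with hd
  have hdL : d * L = 29 / 50 := by
    rw [hd]; field_simp
  have hd0 : 0 < d := by rw [hd]; positivity
  have hd1 : d ≤ 29 / 350 := by
    rw [hd, div_le_iff₀ hL0]
    linarith
  have ht0 := one_sub_cos_nonneg (Real.pi * d)
  have ht1 := one_sub_cos_le d
  have hp := pi_sq_lt
  have hcf := cf_odd (2 * k + 1) h d
  rw [← hL] at hcf
  set t : ℝ := 1 - Real.cos (Real.pi * d) with ht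
  have hcos : Real.cos (Real.pi * d) = 1 - t := by rw [ht]; ring
  rw [hcos] at hcf
  have hval : cf (pt (2 * k + 1)) = (3 * k + 2) + (3 * d / 2 - t * (d / 2 + L / 4)) := by
    rw [hpt, hcf]; push_cast; ring
  have ht2 : t ≤ 9.87 * d ^ 2 / 2 := by nlinarith [sq_nonneg d]
  rw [hval]
  have h1 : 445 / 1000 ≤ (3 * d / 2 - t * (d / 2 + L / 4)) * L := by
    have e1 : t * (d / 2 + L / 4) * L ≤ 9.87 * d ^ 2 / 2 * (d / 2 + L / 4) * L := by
      have : 0 ≤ (d / 2 + L / 4) * L := by positivity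
      nlinarith
    have e2 : 9.87 * d ^ 2 / 2 * (d / 2 + L / 4) * L = 9.87 / 4 * d ^ 2 * (d * L) + 9.87 / 8 * (d * L) ^ 2 := by ring
    have e3 : d ^ 2 ≤ (29 / 350) ^ 2 := by nlinarith
    rw [e2, hdL] at e1
    have e4 : (3 * d / 2 - t * (d / 2 + L / 4)) * L = 3 * (d * L) / 2 - t * (d / 2 + L / 4) * L := by ring
    rw [e4, hdL]
    nlinarith
  have h2 : 445 / 1000 / L ≤ 3 * d / 2 - t * (d / 2 + L / 4) := by
    rw [div_le_iff₀ hL0]; exact h1
  have htk : tau (3 * k + 2) ≤ 33 / 50 := by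
    unfold tau; split_ifs <;> norm_num
  have h3 : tau (3 * k + 2) / (2 * ((3 * k + 2 : ℕ) : ℝ) + 1) < 445 / 1000 / L := by
    rw [div_lt_div_iff₀ (by positivity) hL0, hLk]
    push_cast
    nlinarith
  unfold pt
  push_cast at h3 ⊢
  linarith

theorem near_dcf_odd {m : ℕ} (h : m % 2 = 1) (hm : 3 ≤ m) {y : ℝ} (h1 : (m : ℝ) ≤ y) (h2 : y ≤ pt m) : 0 < dcf y := by
  have hm' : (3 : ℝ) ≤ m := by exact_mod_cast hm
  have htau : tau m = 29 / 50 := by
    unfold tau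
    rw [if_pos h]
  obtain ⟨d, rfl⟩ : ∃ d : ℝ, y = m + d := ⟨y - m, by ring⟩
  have hd0 : 0 ≤ d := by linarith
  set L : ℝ := 2 * (m : ℝ) + 1 with hL
  have hL7 : 7 ≤ L := by rw [hL]; linarith
  have hL0 : 0 < L := by linarith
  have hd : d ≤ (29 / 50) / L := by
    unfold pt at h2
    rw [htau, ← hL] at h2
    linarith
  have hdL : d * L ≤ 29 / 50 := by
    rw [le_div_iff₀ hL0] at hd
    exact hd
  have hd1 : d ≤ 29 / 350 := by
    have : (29 / 50) / L ≤ 29 / 350 := by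
      rw [div_le_iff₀ hL0]; linarith
    linarith
  rw [dcf_odd m h d]
  have ht1 := one_sub_cos_le d
  have hp := pi_sq_lt
  have hpi := Real.pi_pos
  have hsin : Real.sin (Real.pi * d) ≤ Real.pi * d := Real.sin_le (by positivity)
  have e1 : (2 * ((m : ℝ) + d) + 1) * Real.pi / 4 * Real.sin (Real.pi * d) ≤
      (2 * ((m : ℝ) + d) + 1) * Real.pi / 4 * (Real.pi * d) := by
    apply mul_le_mul_of_nonneg_left hsin
    positivity
  have e2 : (2 * ((m : ℝ) + d) + 1) * Real.pi / 4 * (Real.pi * d) = Real.pi ^ 2 / 4 * (d * L + 2 * d ^ 2) := by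
    rw [hL]; ring
  have e3 : d ^ 2 ≤ (29 / 350) ^ 2 := by nlinarith
  have e4 : Real.pi ^ 2 / 4 * (d * L + 2 * d ^ 2) ≤ 9.87 / 4 * (29 / 50 + 2 * (29 / 350) ^ 2) := by
    apply mul_le_mul (by linarith) (by linarith) (by positivity) (by norm_num)
  have e5 : Real.pi ^ 2 * d ^ 2 / 2 ≤ 9.87 * (29 / 350) ^ 2 / 2 := by
    have : Real.pi ^ 2 * d ^ 2 ≤ 9.87 * (29 / 350) ^ 2 :=
      mul_le_mul hp.le e3 (by positivity) (by norm_num)
    linarith
  norm_num at e4 e5 ⊢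
  linarith

theorem sign_even_right {m : ℕ} (h : m % 2 = 0) {y : ℝ} (h1 : (m : ℝ) ≤ y) (h2 : y ≤ m + 1 / 2) : 1 / 2 ≤ dcf y := by
  obtain ⟨d, rfl⟩ : ∃ d : ℝ, y = m + d := ⟨y - m, by ring⟩
  have hd0 : 0 ≤ d := by linarith
  have hd1 : d ≤ 1 / 2 := by linarith
  rw [dcf_even m h d]
  have hpi := Real.pi_pos
  have hs : 0 ≤ Real.sin (Real.pi * d) :=
    Real.sin_nonneg_of_nonneg_of_le_pi (by positivity) (by nlinarith)
  have hc := Real.cos_le_one (Real.pi * d)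
  have : 0 ≤ (2 * ((m : ℝ) + d) + 1) * Real.pi / 4 * Real.sin (Real.pi * d) := by positivity
  linarith

theorem sign_odd_left {m : ℕ} (h : m % 2 = 1) {y : ℝ} (h1 : (m : ℝ) - 1 / 2 ≤ y) (h2 : y ≤ m) : 1 ≤ dcf y := by
  obtain ⟨d, rfl⟩ : ∃ d : ℝ, y = m + d := ⟨y - m, by ring⟩
  have hd0 : d ≤ 0 := by linarith
  have hd1 : -(1 / 2) ≤ d := by linarith
  have hm1 : (1 : ℝ) ≤ m := by
    have : 1 ≤ m := by omega
    exact_mod_cast this
  rw [dcf_odd m h d]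
  have hpi := Real.pi_pos
  have hs : Real.sin (Real.pi * d) ≤ 0 :=
    Real.sin_nonpos_of_nonpos_of_neg_pi_le (by nlinarith) (by nlinarith)
  have hc : 0 ≤ Real.cos (Real.pi * d) := by
    apply Real.cos_nonneg_of_mem_Icc
    constructor <;> nlinarith
  have : (2 * ((m : ℝ) + d) + 1) * Real.pi / 4 * Real.sin (Real.pi * d) ≤ 0 := by
    apply mul_nonpos_of_nonneg_of_nonpos _ hs
    have : 0 ≤ 2 * ((m : ℝ) + d) + 1 := by linarith
    positivity
  linarith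

private lemma near_dcf_int_odd {i : ℕ} (h : i % 2 = 1) : dcf i = 3 / 2 := by
  have := dcf_odd i h 0
  simp only [add_zero, mul_zero, Real.cos_zero, Real.sin_zero, sub_zero] at this
  rw [this]; norm_num

private lemma near_dcf_half {i : ℕ} (h : i % 2 = 1) : dcf ((i : ℝ) + 1 / 2) < 0 := by
  rw [dcf_odd i h (1 / 2)]
  have e : Real.pi * (1 / 2) = Real.pi / 2 := by ring
  rw [e, Real.cos_pi_div_two, Real.sin_pi_div_two]
  have hpi := Real.pi_gt_three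
  have hm1 : (1 : ℝ) ≤ i := by
    have : 1 ≤ i := by omega
    exact_mod_cast this
  nlinarith

theorem exists_crit_pair {i : ℕ} (h : i % 2 = 1) : ∃ c c' : ℝ, (i : ℝ) < c ∧ c < i + 1 / 2 ∧ (i : ℝ) + 1 / 2 < c' ∧
    c' < i + 1 ∧ (∀ y, (i : ℝ) ≤ y → y < c → 0 < dcf y) ∧ (∀ y, c < y → y < c' → dcf y < 0) ∧
    (∀ y, c' < y → y ≤ (i : ℝ) + 1 + 1 / 2 → 0 < dcf y) ∧ dcf c = 0 ∧ dcf c' = 0 := by
  have hi1 : 1 ≤ i := by omega
  have v0 := near_dcf_int_odd h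
  have v1 := near_dcf_half h
  have hE : (i + 1) % 2 = 0 := by omega
  have v2 : 0 < dcf ((i : ℝ) + 1) := by
    have := sign_even_right (m := i + 1) hE (y := (i : ℝ) + 1) (by push_cast; linarith) (by push_cast; linarith)
    linarith
  -- zeros between points of different sign
  have zero1 : ∀ a b : ℝ, a ≤ b → 0 ≤ dcf a → dcf b ≤ 0 → ∃ z ∈ Icc a b, dcf z = 0 := by
    intro a b hab ha hb
    have := intermediate_value_Icc' hab near_cont.continuousOn (f := dcf)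
    obtain ⟨z, hz, hz0⟩ := this (show (0 : ℝ) ∈ Icc (dcf b) (dcf a) from ⟨hb, ha⟩)
    exact ⟨z, hz, hz0⟩
  have zero2 : ∀ a b : ℝ, a ≤ b → dcf a ≤ 0 → 0 ≤ dcf b → ∃ z ∈ Icc a b, dcf z = 0 := by
    intro a b hab ha hb
    have := intermediate_value_Icc hab near_cont.continuousOn (f := dcf)
    obtain ⟨z, hz, hz0⟩ := this (show (0 : ℝ) ∈ Icc (dcf a) (dcf b) from ⟨ha, hb⟩)
    exact ⟨z, hz, hz0⟩
  have uniq1 : ∀ x y : ℝ, x ∈ Icc ((i : ℝ) - 1 / 2) (i + 1 / 2) → y ∈ Icc ((i : ℝ) - 1 / 2) (i + 1 / 2) →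
      dcf x = 0 → dcf y = 0 → x = y := by
    intro x y hx hy hx0 hy0
    obtain ⟨c, -, hu⟩ := Crit.crit_unique i hi1
    have a1 := hu x ⟨by rw [abs_le]; constructor <;> linarith [hx.1, hx.2], hx0⟩
    have a2 := hu y ⟨by rw [abs_le]; constructor <;> linarith [hy.1, hy.2], hy0⟩
    rw [a1, a2]
  have uniq2 : ∀ x y : ℝ, x ∈ Icc ((i : ℝ) + 1 / 2) (i + 3 / 2) → y ∈ Icc ((i : ℝ) + 1 / 2) (i + 3 / 2) →
      dcf x = 0 → dcf y = 0 → x = y := by
    intro x y hx hy hx0 hy0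
    obtain ⟨c, -, hu⟩ := Crit.crit_unique (i + 1) (by omega)
    have a1 := hu x ⟨by rw [abs_le]; push_cast; constructor <;> linarith [hx.1, hx.2], hx0⟩
    have a2 := hu y ⟨by rw [abs_le]; push_cast; constructor <;> linarith [hy.1, hy.2], hy0⟩
    rw [a1, a2]
  obtain ⟨c, hc, hc0⟩ := zero1 i (i + 1 / 2) (by linarith) (by rw [v0]; norm_num) v1.le
  obtain ⟨c', hc', hc0'⟩ := zero2 ((i : ℝ) + 1 / 2) (i + 1) (by linarith) v1.le v2.le
  have hc1 : (i : ℝ) < c := by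
    rcases hc.1.lt_or_eq with hlt | heq
    · exact hlt
    · rw [← heq, v0] at hc0; norm_num at hc0
  have hc2 : c < (i : ℝ) + 1 / 2 := by
    rcases hc.2.lt_or_eq with hlt | heq
    · exact hlt
    · rw [heq] at hc0; linarith
  have hc1' : (i : ℝ) + 1 / 2 < c' := by
    rcases hc'.1.lt_or_eq with hlt | heq
    · exact hlt
    · rw [← heq] at hc0'; linarith
  have hc2' : c' < (i : ℝ) + 1 := by
    rcases hc'.2.lt_or_eq with hlt | heq
    · exact hlt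
    · rw [heq] at hc0'; linarith
  refine ⟨c, c', hc1, hc2, hc1', hc2', ?_, ?_, ?_, hc0, hc0'⟩
  · intro y hy1 hy2
    by_contra hcon
    push Not at hcon
    obtain ⟨z, hz, hz0⟩ := zero1 i y hy1 (by rw [v0]; norm_num) hcon
    have := uniq1 z c ⟨by linarith [hz.1], by linarith [hz.2]⟩ ⟨by linarith, by linarith⟩ hz0 hc0
    linarith [hz.2]
  · intro y hy1 hy2
    by_contra hcon
    push Not at hcon
    rcases le_or_gt y ((i : ℝ) + 1 / 2) with hle | hgt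
    · obtain ⟨z, hz, hz0⟩ := zero1 y ((i : ℝ) + 1 / 2) hle hcon v1.le
      have := uniq1 z c ⟨by linarith [hz.1], by linarith [hz.2]⟩ ⟨by linarith, by linarith⟩ hz0 hc0
      linarith [hz.1]
    · obtain ⟨z, hz, hz0⟩ := zero2 ((i : ℝ) + 1 / 2) y hgt.le v1.le hcon
      have := uniq2 z c' ⟨by linarith [hz.1], by linarith [hz.2]⟩ ⟨by linarith, by linarith⟩ hz0 hc0'
      linarith [hz.2]
  · intro y hy1 hy2
    rcases le_or_gt y ((i : ℝ) + 1) with hle | hgt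
    · by_contra hcon
      push Not at hcon
      obtain ⟨z, hz, hz0⟩ := zero2 y ((i : ℝ) + 1) hle hcon v2.le
      have := uniq2 z c' ⟨by linarith [hz.1], by linarith [hz.2]⟩ ⟨by linarith, by linarith⟩ hz0 hc0'
      linarith [hz.1]
    · have := sign_even_right (m := i + 1) hE (y := y) (by push_cast; linarith) (by push_cast; linarith)
      linarith

theorem crit_odd_trap {i : ℕ} (h : i % 2 = 1) {c : ℝ} (h1 : (i : ℝ) < c) (h2 : c < i + 1 / 2) (hc : dcf c = 0) :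
    c ∈ trapI i := by
  have e : (i : ℝ) + (c - i) = c := by ring
  have := (critical_odd h (d := c - i) (by linarith) (by linarith) (by rw [e]; exact hc)).2
  rwa [e] at this

end Pool.Agent.Lib.MP_a247fa_nt.W
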