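import Pool.Agent.Lib.MP_a247fa_nt.W.Near

/-! ATTOF (45 min). A point `y ≥ 1` that is not bad is attached (used for the attached version of the theorem and for the points in the fold at 2).

`att_of_cf` shifts `k` by one. `att_trap`: `mapsTo_trap` iterated: `cf^[j] y ∈ trapI (T^[j] m)`.
`att_near_one`: `x = 1 - d`, `0 ≤ d ≤ 1/50`. `cf (1-d) = 2 - d(1 + cos(πd)/2) - (3/4)(1 - cos(πd))` (`cf_odd 1` at `-d`) is in `[2 - 8d/5, 2]`; `cf (2-e) = 1 - e(1 - cos(πe)/2) + (5/4)(1 - cos(πe))`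
(`cf_even 2` at `-e`), `0 ≤ e ≤ 1/30`, is in `[1 - e/2, 1]`. So by induction `cf^[2k] x ∈ [1-d, 1]`, `cf^[2k+1] x ∈ [2 - 1/30, 2]`, and `T^[j] 1 ∈ {1, 2}` alternates: within `1/30 ≤ 4/25 ≤ 4/(5(2·T^j 1+1))`.
`fold_two`: `1 ≤ y < 2`, `cf y < 1` implies `49/50 ≤ cf y`: `y = 2 - e`; for `e ≤ 1/10`: `1 - cos(πe) ≥ 4.9 e²`.., `cf ≥ 1 - e/2 + 1.15·4.9 e² ≥ 0.98`; for `e ≥ 1/10`: `cf y ≥ 1` (`y ∈ [1, 1.9]`:
`exists_crit_pair 1`: `cf` increases on `[1,c]` from `2`, decreases on `[c,c']`, so `cf y ≥ min (2, cf 1.9)` and `cf 1.9 ≥ 1`, `1.9 < c'` because `dcf 1.9 < 0`).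
`att_of_not_bad`: `Bad y` fails, so there is a first `k` with `Trp` or `Fld` of `z = cf^[k] y`; if `Fld z` and not `Trp z` then `⌊z⌋₊ < 3` (second clause), odd, so `⌊z⌋₊ = 1`: `z ∈ [1,2)`, `cf z < 1`: `fold_two`,
`att_near_one`. If `Trp z`: `q = ⌊z⌋₊` odd, `T q ≤ cf z`, `z ∈ [q, q+1)`: `cf z ≤ cf c` with the critical point `c` near `q` (`exists_crit_pair`: increasing to `c`, decreasing to `c'`, then increasing up to
`q+1` with value `(q+1)/2 < T q`..), `c ∈ trapI q` (`crit_odd_trap`), `cf c ∈ trapI (T q)`, so `cf z ∈ trapI (T q)`. -/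

set_option autoImplicit false

namespace Pool.Agent.Lib.MP_a247fa_nt.W

open Set

theorem att_of_cf {y : ℝ} (h : Att (cf y)) : Att y := by
  obtain ⟨k, m, hm, h⟩ := h
  refine ⟨k + 1, m, hm, fun j => ?_⟩
  have h1 := h j
  rw [← Function.iterate_succ_apply] at h1
  rw [show k + 1 + j = (k + j).succ by omega]
  exact h1

private theorem att_of_iter {y : ℝ} (k : ℕ) (h : Att (cf^[k] y)) : Att y := by
  induction k with
  | zero => exact h
  | succ k ih =>
    apply ih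
    rw [Function.iterate_succ_apply'] at h
    exact att_of_cf h

private theorem attof_iter_pos {m : ℕ} (hm : 0 < m) (k : ℕ) : 0 < T^[k] m := by
  induction k with
  | zero => exact hm
  | succ k ih => rw [Function.iterate_succ_apply']; exact T_pos ih

theorem att_trap {m : ℕ} (hm : 0 < m) {y : ℝ} (hy : y ∈ trapI m) : Att y := by
  refine ⟨0, m, hm, fun j => ?_⟩
  have h1 : cf^[j] y ∈ trapI (T^[j] m) := by
    induction j with
    | zero => exact hy
    | succ j ih =>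
      rw [Function.iterate_succ_apply', Function.iterate_succ_apply']
      exact mapsTo_trap (attof_iter_pos hm j) ih
  rw [zero_add]
  obtain ⟨h2, h3⟩ := h1
  rw [abs_of_nonneg (by linarith)]
  linarith

private theorem attof_step_one {y : ℝ} (h1 : 49 / 50 ≤ y) (h2 : y ≤ 1) :
    59 / 30 ≤ cf y ∧ cf y ≤ 2 := by
  obtain ⟨d, hd⟩ : ∃ d, d = 1 - y := ⟨_, rfl⟩
  have hy : y = ((1 : ℕ) : ℝ) + -d := by rw [hd]; push_cast; ring
  have hc0 := one_sub_cos_nonneg (Real.pi * -d)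
  have hc1 := one_sub_cos_le (-d)
  have hv := cf_odd 1 rfl (-d)
  rw [← hy] at hv
  obtain ⟨c, hc⟩ : ∃ c, c = 1 - Real.cos (Real.pi * -d) := ⟨_, rfl⟩
  have hcos : Real.cos (Real.pi * -d) = 1 - c := by rw [hc]; ring
  rw [← hc] at hc0 hc1
  rw [hcos] at hv
  have hv2 : cf y = 2 - 3 / 2 * d - (3 / 4 - d / 2) * c := by rw [hv]; push_cast; ring
  have hpi := pi_sq_lt
  have hd0 : 0 ≤ d := by rw [hd]; linarith
  have hd1 : d ≤ 1 / 50 := by rw [hd]; linarith
  have hc2 : c ≤ 1 / 10 * d := by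
    have e1 : Real.pi ^ 2 * (-d) ^ 2 / 2 = Real.pi ^ 2 * (d * d) / 2 := by ring
    rw [e1] at hc1
    have e2 : Real.pi ^ 2 * (d * d) ≤ 9.87 * (d * d) :=
      mul_le_mul_of_nonneg_right hpi.le (mul_nonneg hd0 hd0)
    have e3 : d * d ≤ 1 / 50 * d := mul_le_mul_of_nonneg_right hd1 hd0
    norm_num at e2
    linarith
  constructor
  · rw [hv2]
    have h5 : (3 / 4 - d / 2) * c ≤ 3 / 4 * c := mul_le_mul_of_nonneg_right (by linarith) hc0
    linarith
  · rw [hv2]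
    have h5 : 0 ≤ (3 / 4 - d / 2) * c := mul_nonneg (by linarith) hc0
    linarith

private theorem attof_step_two {y : ℝ} (h1 : 59 / 30 ≤ y) (h2 : y ≤ 2) :
    49 / 50 ≤ cf y ∧ cf y ≤ 1 := by
  obtain ⟨d, hd⟩ : ∃ d, d = 2 - y := ⟨_, rfl⟩
  have hy : y = ((2 : ℕ) : ℝ) + -d := by rw [hd]; push_cast; ring
  have hc0 := one_sub_cos_nonneg (Real.pi * -d)
  have hc1 := one_sub_cos_le (-d)
  have hv := cf_even 2 rfl (-d)
  rw [← hy] at hv
  obtain ⟨c, hc⟩ : ∃ c, c = 1 - Real.cos (Real.pi * -d) := ⟨_, rfl⟩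
  have hcos : Real.cos (Real.pi * -d) = 1 - c := by rw [hc]; ring
  rw [← hc] at hc0 hc1
  rw [hcos] at hv
  have hv2 : cf y = 1 - d / 2 + (5 / 4 - d / 2) * c := by rw [hv]; push_cast; ring
  have hpi := pi_sq_lt
  have hd0 : 0 ≤ d := by rw [hd]; linarith
  have hd1 : d ≤ 1 / 30 := by rw [hd]; linarith
  have hc2 : c ≤ 1 / 5 * d := by
    have e1 : Real.pi ^ 2 * (-d) ^ 2 / 2 = Real.pi ^ 2 * (d * d) / 2 := by ring
    rw [e1] at hc1
    have e2 : Real.pi ^ 2 * (d * d) ≤ 9.87 * (d * d) :=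
      mul_le_mul_of_nonneg_right hpi.le (mul_nonneg hd0 hd0)
    have e3 : d * d ≤ 1 / 30 * d := mul_le_mul_of_nonneg_right hd1 hd0
    norm_num at e2
    linarith
  constructor
  · rw [hv2]
    have h5 : 0 ≤ (5 / 4 - d / 2) * c := mul_nonneg (by linarith) hc0
    linarith
  · rw [hv2]
    have h5 : (5 / 4 - d / 2) * c ≤ 5 / 4 * c := mul_le_mul_of_nonneg_right (by linarith) hc0
    linarith

theorem att_near_one {y : ℝ} (h1 : 49 / 50 ≤ y) (h2 : y ≤ 1) : Att y := by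
  refine ⟨0, 1, one_pos, fun j => ?_⟩
  have key : ∀ k : ℕ, (49 / 50 ≤ cf^[2 * k] y ∧ cf^[2 * k] y ≤ 1) ∧ T^[2 * k] 1 = 1 := by
    intro k
    induction k with
    | zero => exact ⟨⟨h1, h2⟩, rfl⟩
    | succ k ih =>
      rw [show 2 * (k + 1) = (2 * k + 1) + 1 by ring, Function.iterate_succ_apply',
        Function.iterate_succ_apply', Function.iterate_succ_apply',
        Function.iterate_succ_apply', ih.2]
      have h3 := attof_step_one ih.1.1 ih.1.2
      exact ⟨attof_step_two h3.1 h3.2, rfl⟩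
  rw [zero_add]
  rcases Nat.even_or_odd' j with ⟨k, rfl | rfl⟩
  · obtain ⟨⟨h3, h4⟩, h5⟩ := key k
    rw [h5, abs_sub_comm, Nat.cast_one, abs_of_nonneg (by linarith)]
    norm_num
    linarith
  · obtain ⟨⟨h3, h4⟩, h5⟩ := key k
    rw [Function.iterate_succ_apply', Function.iterate_succ_apply', h5]
    obtain ⟨h6, h7⟩ := attof_step_one h3 h4
    have h8 : ((T 1 : ℕ) : ℝ) = 2 := by norm_num [T]
    rw [h8, abs_sub_comm, abs_of_nonneg (by linarith)]
    norm_num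
    linarith

theorem fold_two {y : ℝ} (h1 : 1 ≤ y) (h2 : y < 2) (h3 : cf y < 1) : 49 / 50 ≤ cf y := by
  obtain ⟨d, hd⟩ : ∃ d, d = 2 - y := ⟨_, rfl⟩
  have hy : y = ((2 : ℕ) : ℝ) + -d := by rw [hd]; push_cast; ring
  have hc0 := one_sub_cos_nonneg (Real.pi * -d)
  have hc1 := le_one_sub_cos (-d)
  have hc3 : Real.cos (Real.pi * -d) ≤ 1 - 2 / Real.pi ^ 2 * (Real.pi * -d) ^ 2 := by
    apply Real.cos_le_one_sub_mul_cos_sq
    rw [abs_le]
    have := Real.pi_pos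
    constructor <;> nlinarith
  have hc4 : 2 / Real.pi ^ 2 * (Real.pi * -d) ^ 2 = 2 * d ^ 2 := by
    have := Real.pi_ne_zero
    field_simp
  rw [hc4] at hc3
  have hv := cf_even 2 rfl (-d)
  rw [← hy] at hv
  obtain ⟨c, hc⟩ : ∃ c, c = 1 - Real.cos (Real.pi * -d) := ⟨_, rfl⟩
  have hcos : Real.cos (Real.pi * -d) = 1 - c := by rw [hc]; ring
  rw [← hc] at hc0 hc1
  rw [hcos] at hv hc3
  have hv2 : cf y = 1 - d / 2 + (5 / 4 - d / 2) * c := by rw [hv]; push_cast; ring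
  have hd0 : 0 < d := by rw [hd]; linarith
  have hd1 : d ≤ 1 := by rw [hd]; linarith
  have hp1 := pi_sq_lt
  have hp2 := pi_sq_gt
  have e1 : Real.pi ^ 4 = Real.pi ^ 2 * Real.pi ^ 2 := by ring
  rw [e1] at hc1
  obtain ⟨q, hq⟩ : ∃ q, q = Real.pi ^ 2 := ⟨_, rfl⟩
  rw [← hq] at hp1 hp2 hc1
  have e2 : q * (-d) ^ 2 / 2 - q * q * (-d) ^ 4 / 24 = d ^ 2 * (q / 2 - q * q * d ^ 2 / 24) := by ring
  rw [e2] at hc1
  have hqq : q * q ≤ 98 := by nlinarith
  have hqq0 : 0 ≤ q * q := mul_self_nonneg q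
  by_cases hs : d ≤ 11 / 50
  · have h5 : 0 ≤ d ^ 2 := sq_nonneg d
    have h6 : d ^ 2 ≤ 121 / 2500 := by nlinarith
    have h7 : q * q * d ^ 2 ≤ 98 * (121 / 2500) := mul_le_mul hqq h6 h5 (by norm_num)
    have h8 : 47 / 10 ≤ q / 2 - q * q * d ^ 2 / 24 := by norm_num at *; linarith
    have h9 : d ^ 2 * (47 / 10) ≤ c := (mul_le_mul_of_nonneg_left h8 h5).trans hc1
    have h10 : (5 / 4 - d / 2) * (d ^ 2 * (47 / 10)) ≤ (5 / 4 - d / 2) * c :=
      mul_le_mul_of_nonneg_left h9 (by linarith)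
    have h11 : 57 / 50 * (d ^ 2 * (47 / 10)) ≤ (5 / 4 - d / 2) * (d ^ 2 * (47 / 10)) :=
      mul_le_mul_of_nonneg_right (by linarith) (by positivity)
    rw [hv2]
    nlinarith [sq_nonneg (d - 1 / 20)]
  · push Not at hs
    exfalso
    have h5 : 2 * d ^ 2 ≤ c := by linarith
    have h6 : (5 / 4 - d / 2) * (2 * d ^ 2) ≤ (5 / 4 - d / 2) * c :=
      mul_le_mul_of_nonneg_left h5 (by linarith)
    have h7 : d / 2 ≤ (5 / 4 - d / 2) * (2 * d ^ 2) := by
      have h8 : 0 ≤ d * ((d - 11 / 50) * (1 - d)) :=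
        mul_nonneg hd0.le (mul_nonneg (by linarith) (by linarith))
      nlinarith
    rw [hv2] at h3
    linarith

/-- a trapped point is mapped into the trap interval of `T m` -/
theorem trp_trap {y : ℝ} (hy : Trp y) : 0 < T ⌊y⌋₊ ∧ cf y ∈ trapI (T ⌊y⌋₊) := by
  obtain ⟨hodd, hle⟩ := hy
  obtain ⟨q, hq⟩ : ∃ q, q = ⌊y⌋₊ := ⟨_, rfl⟩
  rw [← hq] at hodd hle ⊢
  have hq1 : 1 ≤ q := by omega
  have hy0 : 0 ≤ y := by
    by_contra hneg
    push Not at hneg
    rw [Nat.floor_of_nonpos hneg.le] at hq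
    omega
  have hy1 : (q : ℝ) ≤ y := by rw [hq]; exact Nat.floor_le hy0
  have hy2 : y < q + 1 := by rw [hq]; exact Nat.lt_floor_add_one y
  refine ⟨T_pos (by omega), hle, ?_⟩
  obtain ⟨c, c', h1, h2, h3, h4, h5, h6, h7, h8, h9⟩ := exists_crit_pair hodd
  have hct := crit_odd_trap hodd h1 h2 h8
  have hcc := mapsTo_trap (by omega : 0 < q) hct
  have hmax : cf y ≤ cf c := by
    rcases le_or_gt y c' with h | h
    · rcases le_or_gt y c with h10 | h10
      · have hm : MonotoneOn cf (Icc (q : ℝ) c) := by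
          refine monotoneOn_of_deriv_nonneg (convex_Icc _ _) continuous_cf.continuousOn
            differentiable_cf.differentiableOn ?_
          intro t ht
          rw [interior_Icc] at ht
          rw [deriv_cf]
          exact (h5 t ht.1.le ht.2).le
        exact hm ⟨hy1, h10⟩ ⟨h1.le, le_rfl⟩ h10
      · have hm : AntitoneOn cf (Icc c c') := by
          refine antitoneOn_of_deriv_nonpos (convex_Icc _ _) continuous_cf.continuousOn
            differentiable_cf.differentiableOn ?_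
          intro t ht
          rw [interior_Icc] at ht
          rw [deriv_cf]
          exact (h6 t ht.1 ht.2).le
        exact hm ⟨le_rfl, by linarith⟩ ⟨h10.le, h⟩ h10.le
    · exfalso
      have hm : MonotoneOn cf (Icc c' ((q : ℝ) + 1)) := by
        refine monotoneOn_of_deriv_nonneg (convex_Icc _ _) continuous_cf.continuousOn
          differentiable_cf.differentiableOn ?_
        intro t ht
        rw [interior_Icc] at ht
        rw [deriv_cf]
        exact (h7 t ht.1 (by linarith [ht.2])).le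
      have h10 := hm ⟨h.le, hy2.le⟩ ⟨h4.le, le_rfl⟩ hy2.le
      have h11 := cf_natCast (q + 1)
      have h12 : ((T (q + 1) : ℕ) : ℝ) = ((q : ℝ) + 1) / 2 := by
        rw [T_even (by omega)]
        push_cast
        ring
      have h13 : ((T q : ℕ) : ℝ) = (3 * q + 1) / 2 := T_odd hodd
      push_cast at h11
      rw [h11, h12] at h10
      rw [h13] at hle
      have : (1 : ℝ) ≤ q := by exact_mod_cast hq1
      linarith
  exact hmax.trans hcc.2

theorem att_of_not_bad {y : ℝ} (h : ¬ Bad y) : Att y := by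
  classical
  unfold Bad at h
  push Not at h
  obtain ⟨h1, h2⟩ := h
  have hex : ∃ k : ℕ, Trp (cf^[k] y) ∨ Fld (cf^[k] y) := by
    obtain ⟨k, hk⟩ := h1
    refine ⟨k, ?_⟩
    by_cases ht : Trp (cf^[k] y)
    · exact Or.inl ht
    · exact Or.inr (hk ht)
  obtain ⟨k, hk⟩ : ∃ k, k = Nat.find hex := ⟨_, rfl⟩
  have hspec : Trp (cf^[k] y) ∨ Fld (cf^[k] y) := by rw [hk]; exact Nat.find_spec hex
  have hmin : ∀ j < k, ¬ Trp (cf^[j] y) ∧ ¬ Fld (cf^[j] y) := by
    intro j hj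
    rw [hk] at hj
    have := Nat.find_min hex hj
    push Not at this
    exact this
  apply att_of_iter k
  by_cases ht : Trp (cf^[k] y)
  · obtain ⟨h3, h4⟩ := trp_trap ht
    exact att_of_cf (att_trap h3 h4)
  · have hf : Fld (cf^[k] y) := hspec.resolve_left ht
    have h3 : ¬ 3 ≤ ⌊cf^[k] y⌋₊ := by
      intro h3
      obtain ⟨j, hj, hj2⟩ := h2 k h3 hf
      exact (hmin j hj).2 (hj2 (hmin j hj).1)
    obtain ⟨z, hz⟩ : ∃ z, z = cf^[k] y := ⟨_, rfl⟩
    rw [← hz] at hf h3 ⊢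
    obtain ⟨h4, h5⟩ := hf
    have h6 : ⌊z⌋₊ = 1 := by omega
    have hz1 : 1 ≤ z := by
      have : (1 : ℕ) ≤ ⌊z⌋₊ := h6.ge
      have h7 := (Nat.le_floor_iff' (by norm_num)).1 this
      exact_mod_cast h7
    have hz2 : z < 2 := by
      have := Nat.lt_floor_add_one z
      rw [h6] at this
      push_cast at this
      linarith
    rw [h6] at h5
    push_cast at h5
    have h8 : cf z < 1 := by linarith
    exact att_of_cf (att_near_one (fold_two hz1 hz2 h8) h8.le)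

end Pool.Agent.Lib.MP_a247fa_nt.W
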