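import Pool.Agent.Lib.MP_a247fa_nt.W.MainN

/-! BADCOVER (40 min). Bad points are in `SS 1` or in some `NN k`; reduction of Theorem W to `SS 1` being null.

`bad_inner`: `y ∈ Qw i ∩ [u i, v i]` bad: not `Fld y` (`⌊y⌋₊ = i`; even `i`: parity; odd `i`: `cf y ≥ pt (lo i) > lo i = (i+1)/2`), so `Bad (cf y)` by `bad_step`, and `cf y ∈ [pt (lo i), pt (hi i)]`, so
`cf y ∈ Qw j` for some `lo i ≤ j < hi i` (`qw_of_bad`).
`bad_cover`: suppose `y ∈ Qw i` bad, in no `NN k`. Claim by induction on `n`: `cf^[n] y` is bad, in some `Qw j`, `j ≥ 1`, and in no `NN k` (if `cf^[n+1] y ∈ NN k` then `cf^[n] y ∈ NN (k+1)`).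
Step: `z = cf^[n] y ∈ Qw j`: by `GeoAt.dich`, `b j < z` is impossible (then `z ∈ NN 1`), so `z ∈ [u j, v j]`, `bad_inner`. So `y ∈ SS 1`.
`reduce_W`: for `n < y < n+1` bad: `y ∉ [n, pt n] ⊆ trapI n` (`not_bad_trap`), so `y ∈ Qw n`. By `bad_cover` the set is inside `(SS 1 ∩ Qw n) ∪ ⋃ k, (NN k ∩ Qw n)`;
the union is increasing (`NN_mono`), the measure of an increasing union is the supremum (`Monotone.measure_iUnion` or `Directed.measure_iUnion`, no measurability needed),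
each term is `≤ (57/250)|pt (n+1) - pt n| ≤ (57/250)(501/500) ≤ 23/100` by `main_NN` with `g = id` (`crc_id`, `image_id'`), `pt_step`. -/

set_option autoImplicit false

namespace Pool.Agent.Lib.MP_a247fa_nt.W

open Set MeasureTheory

theorem bad_inner {u v b : ℕ → ℝ} {h : ℕ → ℝ → ℝ} (hW : WSys u v b h) {i : ℕ} (hi1 : 1 ≤ i) {y : ℝ} (hy : y ∈ Qw i)
    (hy' : y ∈ Icc (u i) (v i)) (hb : Bad y) : Bad (cf y) ∧ ∃ j : ℕ, 1 ≤ j ∧ cf y ∈ Qw j := by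
  have hfl := qw_floor hy
  have hcm := hW.cf_mem i hi1 y hy'
  have hlo1 : 1 ≤ lo i := by unfold lo; omega
  have hnf : ¬ Fld y := by
    rintro ⟨h1, h2⟩
    rw [hfl] at h1 h2
    have h3 := pt_gt (lo i)
    have h4 : ((lo i : ℕ) : ℝ) = ((i : ℝ) + 1) / 2 := by
      have h5 : 2 * lo i = i + 1 := by unfold lo; omega
      have h6 : (2 : ℝ) * ((lo i : ℕ) : ℝ) = i + 1 := by exact_mod_cast h5
      linarith
    have h7 := hcm.1
    linarith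
  obtain ⟨-, hb2⟩ := bad_step hb hnf
  obtain ⟨j, h1, h2, h3⟩ := qw_of_bad hlo1 hcm hb2
  exact ⟨hb2, j, by omega, h3⟩

theorem bad_cover {u v b : ℕ → ℝ} {h : ℕ → ℝ → ℝ} (hW : WSys u v b h) {i : ℕ} (hi1 : 1 ≤ i) {y : ℝ} (hy : y ∈ Qw i)
    (hb : Bad y) : y ∈ SS 1 u v ∨ ∃ k : ℕ, y ∈ NN u v b k := by
  by_cases hN : ∃ k, y ∈ NN u v b k
  · exact Or.inr hN
  left
  push Not at hN
  have hin : ∀ z j, 1 ≤ j → z ∈ Qw j → Bad z → (∀ k, z ∉ NN u v b k) → z ∈ Icc (u j) (v j) := by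
    intro z j hj1 hj2 h1 h3
    rcases (hW.geo j hj1).dich _ hj2 h1 with h | h
    · exact h
    · exact absurd (show z ∈ NN u v b 1 from ⟨j, hj1, hj2, Or.inl h⟩) (h3 1)
  have key : ∀ n : ℕ, Bad (cf^[n] y) ∧ (∃ j, 1 ≤ j ∧ cf^[n] y ∈ Qw j) ∧
      ∀ k, cf^[n] y ∉ NN u v b k := by
    intro n
    induction n with
    | zero => exact ⟨hb, ⟨i, hi1, hy⟩, hN⟩
    | succ n ih =>
      obtain ⟨h1, ⟨j, hj1, hj2⟩, h3⟩ := ih
      have hin' := hin _ j hj1 hj2 h1 h3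
      obtain ⟨h4, j', hj1', hj2'⟩ := bad_inner hW hj1 hj2 hin' h1
      rw [Function.iterate_succ_apply']
      exact ⟨h4, ⟨j', hj1', hj2'⟩, fun k hk => h3 (k + 1) ⟨j, hj1, hj2, Or.inr ⟨hin', hk⟩⟩⟩
  intro n
  obtain ⟨h1, ⟨j, hj1, hj2⟩, h3⟩ := key n
  exact ⟨j, hj1, hj2, hin _ j hj1 hj2 h1 h3⟩

theorem reduce_W {u v b : ℕ → ℝ} {h : ℕ → ℝ → ℝ} (hW : WSys u v b h)
    (hS : ∀ i : ℕ, 1 ≤ i → volume (SS 1 u v ∩ Qw i) = 0) {n : ℕ} (hn : 1 ≤ n) :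
    volume {y : ℝ | (n : ℝ) < y ∧ y < n + 1 ∧ Bad y} ≤ ENNReal.ofReal (23 / 100) := by
  have hsub : {y : ℝ | (n : ℝ) < y ∧ y < n + 1 ∧ Bad y} ⊆
      (SS 1 u v ∩ Qw n) ∪ ⋃ k : ℕ, (NN u v b k ∩ Qw n) := by
    rintro y ⟨h1, h2, h3⟩
    have hq : y ∈ Qw n := by
      refine ⟨?_, h2⟩
      by_contra h4
      push Not at h4
      have h5 := pt_mem_trap n
      exact not_bad_trap (m := n) (by omega) (show y ∈ trapI n from ⟨h1.le, h4.trans h5.2⟩) h3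
    rcases bad_cover hW hn hq h3 with h | ⟨k, hk⟩
    · exact Or.inl ⟨h, hq⟩
    · exact Or.inr (mem_iUnion.2 ⟨k, hk, hq⟩)
  have hmono : Monotone (fun k : ℕ => NN u v b k ∩ Qw n) :=
    monotone_nat_of_le_succ fun k => inter_subset_inter_left _ (NN_mono k)
  calc volume {y : ℝ | (n : ℝ) < y ∧ y < n + 1 ∧ Bad y}
      ≤ volume ((SS 1 u v ∩ Qw n) ∪ ⋃ k : ℕ, (NN u v b k ∩ Qw n)) := measure_mono hsub
    _ ≤ volume (SS 1 u v ∩ Qw n) + volume (⋃ k : ℕ, (NN u v b k ∩ Qw n)) := measure_union_le _ _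
    _ = volume (⋃ k : ℕ, (NN u v b k ∩ Qw n)) := by rw [hS n hn, zero_add]
    _ = ⨆ k : ℕ, volume (NN u v b k ∩ Qw n) := hmono.measure_iUnion
    _ ≤ ENNReal.ofReal (23 / 100) := by
        refine iSup_le fun k => ?_
        have h1 := main_NN hW k n hn (fun x => x) (crc_id _ _)
        rw [image_id'] at h1
        refine h1.trans (ENNReal.ofReal_le_ofReal ?_)
        have h2 := pt_step hn
        rw [abs_of_nonneg (by linarith)]
        linarith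

end Pool.Agent.Lib.MP_a247fa_nt.W
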