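import Pool.Agent.Lib.MP_a247fa_nt.W.BigEnds

/-! BIGEXP (50 min). Expansion on the core part of the end children of the windows `l ≥ 10^12`.

`deriv_big`: `y ∈ [u l, v l]`, `pt j ≤ cf y ≤ j+1`, `j = lo l` or `j+1 = hi l`. Then `|dcf y| ≥ 7/5`. Put `D = 3/(2√l) ≤ 1/100`. Four cases.
(1) `l` even, `j = lo l = l/2`: `cf y ≤ j+1 ≤ pt (lo l + 1)`, so `y ≤ h l (pt (lo l+1)) ≤ l + D` (`h` increasing, `ends_even`), `y ≥ u l > pt l`. `y = l + d`, `(33/50)/(2l+1) ≤ d ≤ 1/100`: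
`dcf y = 1 - cos/2 + (2l+1+2d)(π/4) sin (πd) ≥ 1/2 + (2l+1)(π/4)(πd)(1 - (πd)²/6)`, and `(2l+1) d ≥ 33/50`: `≥ 1/2 + (9.869/4)(0.66)(0.99) > 1.8`.
(2) `l` even, `j + 1 = hi l = T (l+1)`: `cf y ≤ hi l = cf (l+1)`, so `y ≤ l + 1`; `cf y ≥ pt (hi l - 1)`, so `y ≥ l+1-D`. `y = l+1-d`: `dcf y = 1 + cos (πd)/2 + (..) sin (πd) ≥ 1 + cos(π/100)/2 ≥ 7/5`.
(3) `l` odd, `j = lo l = e/2`, `e = l+1`: `cf y ≤ j + 1 ≤ pt (lo l + 1)`, `h` decreasing: `y ≥ h l (pt (lo l + 1)) ≥ e - D`; `cf y ≥ pt (e/2)`; `y = e - d`, `0 < d ≤ 1/100` (`y ≤ v l < e`). `cf y - e/2 = -d/2 + t(2e+1-2d)/4 ≥ (29/50)/(e+1)`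
and `t ≤ π²d²/2` give `π²d²(2e+1)/8 ≥ d/2 + (29/50)/(e+1)`; with `s = d(2e+1)`: `1.23375 s² ≥ s/2 + 1.15`, so `s ≥ 1.1`. `-dcf y = (2e+1-2d)(π/4) sin (πd) - 1 + cos (πd)/2 ≥ (π²/4)(1.1)(0.99) - 1/2 - 0.001 ≥ 7/5`.
(4) `l` odd, `j + 1 = hi l = T l`: `cf y ≤ T l`, `cf y ≥ pt (hi l - 1)`: `y ≤ h l (pt (hi l - 1)) ≤ l + D`. `y = l + d`, `0 < d ≤ 1/100` (`y > pt l`): `3d/2 - t(2l+1+2d)/4 ≤ 0`, `t ≤ π²d²/2`: `d(2l+1+2d) ≥ 12/π²`.
`-dcf y = (2l+1+2d)(π/4) sin (πd) - 1 - cos(πd)/2 ≥ (π²/4)(12/π²)(1 - (πd)²/6) - 3/2 ≥ 3·0.999 - 3/2 ≥ 7/5`.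
`expand_big`: for `x, y ∈ [pt j, j+1]` all points between `h l x` and `h l y` are mapped by `cf` into `[pt j, j+1]` (`h` monotone, `h_cf`), so by the mean value theorem
`|x - y| = |cf (h x) - cf (h y)| ≥ (7/5)|h x - h y|`. `exists_big`: collect. -/

set_option autoImplicit false

namespace Pool.Agent.Lib.MP_a247fa_nt.W

open Set

private lemma bx_sin {d : ℝ} (h0 : 0 ≤ d) (h1 : d ≤ 1 / 100) :
    246 / 100 * d ≤ Real.pi / 4 * Real.sin (Real.pi * d) := by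
  have h2 := sin_lb_cubic h0
  have hq1 : Real.pi ^ 2 < 9.87 := pi_sq_lt
  have hq2 : 9.869 < Real.pi ^ 2 := pi_sq_gt
  have hpi := Real.pi_pos
  have h3 : Real.pi / 4 * (Real.pi * d - Real.pi * (Real.pi ^ 2) * d ^ 3 / 6) ≤
      Real.pi / 4 * Real.sin (Real.pi * d) := mul_le_mul_of_nonneg_left h2 (by positivity)
  have e : Real.pi / 4 * (Real.pi * d - Real.pi * (Real.pi ^ 2) * d ^ 3 / 6) =
      d * (Real.pi ^ 2 / 4 - (Real.pi ^ 2) ^ 2 * d ^ 2 / 24) := by ring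
  rw [e] at h3
  refine le_trans ?_ h3
  have hd2 : d ^ 2 ≤ 1 / 10000 := by nlinarith
  have hd2' : 0 ≤ d ^ 2 := sq_nonneg d
  generalize Real.pi ^ 2 = q at *
  have h5 : q ^ 2 ≤ 98 := by nlinarith
  have h6 : q ^ 2 * d ^ 2 ≤ 98 * (1 / 10000) := mul_le_mul h5 hd2 hd2' (by norm_num)
  have h7 : 246 / 100 ≤ q / 4 - q ^ 2 * d ^ 2 / 24 := by
    norm_num at hq1 hq2 ⊢
    linarith
  nlinarith

private lemma bx_cos {d : ℝ} (h0 : 0 ≤ d) (h1 : d ≤ 1 / 100) :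
    999 / 1000 ≤ Real.cos (Real.pi * d) := by
  have h2 := one_sub_cos_le d
  have hq1 : Real.pi ^ 2 < 9.87 := pi_sq_lt
  have hd2 : d ^ 2 ≤ 1 / 10000 := by nlinarith
  have hd2' : 0 ≤ d ^ 2 := sq_nonneg d
  have h3 : Real.pi ^ 2 * d ^ 2 ≤ 10 * (1 / 10000) := by
    apply mul_le_mul _ hd2 hd2' (by norm_num)
    norm_num at hq1 ⊢
    linarith
  linarith

/-- even window, left end child -/
private lemma bx_case1 {l : ℕ} (he : l % 2 = 0) {d : ℝ} (h0 : 33 / 50 / (2 * (l : ℝ) + 1) ≤ d)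
    (h1 : d ≤ 1 / 100) : 7 / 5 ≤ |dcf ((l : ℝ) + d)| := by
  have hN : (0 : ℝ) < 2 * (l : ℝ) + 1 := by positivity
  have hd0 : 0 ≤ d := le_trans (by positivity) h0
  rw [div_le_iff₀ hN] at h0
  have hs := bx_sin hd0 h1
  rw [dcf_even l he d]
  have hc := Real.cos_le_one (Real.pi * d)
  have e : (2 * ((l : ℝ) + d) + 1) * Real.pi / 4 * Real.sin (Real.pi * d) =
      (2 * (l : ℝ) + 1 + 2 * d) * (Real.pi / 4 * Real.sin (Real.pi * d)) := by ring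
  have h3 : (2 * (l : ℝ) + 1 + 2 * d) * (246 / 100 * d) ≤
      (2 * (l : ℝ) + 1 + 2 * d) * (Real.pi / 4 * Real.sin (Real.pi * d)) :=
    mul_le_mul_of_nonneg_left hs (by positivity)
  have h4 : 0 ≤ d * d := mul_nonneg hd0 hd0
  refine le_trans ?_ (le_abs_self _)
  rw [e]
  nlinarith

/-- even window, right end child -/
private lemma bx_case2 {l : ℕ} (he : l % 2 = 0) {d : ℝ} (h0 : 0 ≤ d)
    (h1 : d ≤ 1 / 100) : 7 / 5 ≤ |dcf ((l : ℝ) + 1 - d)| := by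
  have hs := bx_sin h0 h1
  have hc := bx_cos h0 h1
  have ho : (l + 1) % 2 = 1 := by omega
  have e0 : (l : ℝ) + 1 - d = ((l + 1 : ℕ) : ℝ) + (-d) := by push_cast; ring
  rw [e0, dcf_odd (l + 1) ho (-d), mul_neg, Real.cos_neg, Real.sin_neg]
  push_cast
  have e : (2 * ((l : ℝ) + 1 + -d) + 1) * Real.pi / 4 * -Real.sin (Real.pi * d) =
      -((2 * (l : ℝ) + 3 - 2 * d) * (Real.pi / 4 * Real.sin (Real.pi * d))) := by ring
  have h3 : 0 ≤ (2 * (l : ℝ) + 3 - 2 * d) * (Real.pi / 4 * Real.sin (Real.pi * d)) := by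
    apply mul_nonneg
    · have : (0 : ℝ) ≤ l := by positivity
      linarith
    · exact le_trans (by positivity) hs
  refine le_trans ?_ (le_abs_self _)
  rw [e]
  linarith

/-- odd window, right end child; here `e = l + 1` -/
private lemma bx_case3 {e : ℕ} (he : e % 2 = 0) (hbig : 1000 ≤ e) {d : ℝ} (h0 : 0 ≤ d)
    (h1 : d ≤ 1 / 100) (h2 : (e : ℝ) / 2 + 29 / 50 / ((e : ℝ) + 1) ≤ cf ((e : ℝ) + -d)) :
    7 / 5 ≤ |dcf ((e : ℝ) + -d)| := by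
  have hs := bx_sin h0 h1
  have hc := bx_cos h0 h1
  have hc1 := Real.cos_le_one (Real.pi * d)
  have ht := one_sub_cos_le d
  have hq1 : Real.pi ^ 2 < 9.87 := pi_sq_lt
  have he1 : (1000 : ℝ) ≤ e := by exact_mod_cast hbig
  rw [cf_even e he (-d), mul_neg, Real.cos_neg] at h2
  rw [dcf_even e he (-d), mul_neg, Real.cos_neg, Real.sin_neg]
  -- the size of `d (2 e + 1)`
  have h3 : 29 / 50 / ((e : ℝ) + 1) ≤ -d / 2 + (1 - Real.cos (Real.pi * d)) * (2 * (e : ℝ) + 1) / 4 := by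
    have h4 : 0 ≤ d * (1 - Real.cos (Real.pi * d)) := mul_nonneg h0 (by linarith)
    nlinarith
  have h4 : (1 - Real.cos (Real.pi * d)) * (2 * (e : ℝ) + 1) / 4 ≤
      (987 / 100) * d ^ 2 * (2 * (e : ℝ) + 1) / 8 := by
    have h5 : 1 - Real.cos (Real.pi * d) ≤ 987 / 100 * d ^ 2 / 2 := by
      refine ht.trans ?_
      have : Real.pi ^ 2 * d ^ 2 ≤ 987 / 100 * d ^ 2 := by
        apply mul_le_mul_of_nonneg_right _ (sq_nonneg d)
        norm_num at hq1 ⊢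
        linarith
      linarith
    have h6 : (1 - Real.cos (Real.pi * d)) * (2 * (e : ℝ) + 1) ≤
        (987 / 100 * d ^ 2 / 2) * (2 * (e : ℝ) + 1) := mul_le_mul_of_nonneg_right h5 (by positivity)
    linarith
  have h5 : 115 / 100 / (2 * (e : ℝ) + 1) ≤ 29 / 50 / ((e : ℝ) + 1) := by
    rw [div_le_div_iff₀ (by positivity) (by positivity)]
    nlinarith
  have h6 : 115 / 100 / (2 * (e : ℝ) + 1) ≤ -d / 2 + (987 / 100) * d ^ 2 * (2 * (e : ℝ) + 1) / 8 := by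
    linarith
  have hN : (0 : ℝ) < 2 * (e : ℝ) + 1 := by positivity
  rw [div_le_iff₀ hN] at h6
  have hs11 : 11 / 10 ≤ d * (2 * (e : ℝ) + 1) := by
    by_contra hcon
    rw [not_le] at hcon
    have hs0 : 0 ≤ d * (2 * (e : ℝ) + 1) := by positivity
    have e1 : (-d / 2 + (987 / 100) * d ^ 2 * (2 * (e : ℝ) + 1) / 8) * (2 * (e : ℝ) + 1) =
      -(d * (2 * (e : ℝ) + 1)) / 2 + 987 / 800 * (d * (2 * (e : ℝ) + 1)) ^ 2 := by ring
    rw [e1] at h6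
    generalize d * (2 * (e : ℝ) + 1) = s at *
    nlinarith
  have e2 : (2 * ((e : ℝ) + -d) + 1) * Real.pi / 4 * -Real.sin (Real.pi * d) =
      -((2 * (e : ℝ) + 1 - 2 * d) * (Real.pi / 4 * Real.sin (Real.pi * d))) := by ring
  have h7 : (2 * (e : ℝ) + 1 - 2 * d) * (246 / 100 * d) ≤
      (2 * (e : ℝ) + 1 - 2 * d) * (Real.pi / 4 * Real.sin (Real.pi * d)) :=
    mul_le_mul_of_nonneg_left hs (by linarith)
  have h8 : d * d ≤ 1 / 10000 := by nlinarith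
  refine le_trans ?_ (neg_le_abs _)
  rw [e2]
  nlinarith

/-- odd window, left end child -/
private lemma bx_case4 {l : ℕ} (ho : l % 2 = 1) {d : ℝ} (h0 : 0 < d)
    (h1 : d ≤ 1 / 100) (h2 : cf ((l : ℝ) + d) ≤ (3 * (l : ℝ) + 1) / 2) :
    7 / 5 ≤ |dcf ((l : ℝ) + d)| := by
  have hs := bx_sin h0.le h1
  have hc1 := Real.cos_le_one (Real.pi * d)
  have ht := one_sub_cos_le d
  have hq1 : Real.pi ^ 2 < 9.87 := pi_sq_lt
  rw [cf_odd l ho d] at h2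
  rw [dcf_odd l ho d]
  have hN : 0 < 2 * (l : ℝ) + 1 + 2 * d := by positivity
  have h3 : 3 * d / 2 ≤ (1 - Real.cos (Real.pi * d)) * (2 * (l : ℝ) + 1 + 2 * d) / 4 := by
    nlinarith
  have h5 : 1 - Real.cos (Real.pi * d) ≤ 987 / 100 * d ^ 2 / 2 := by
    refine ht.trans ?_
    have : Real.pi ^ 2 * d ^ 2 ≤ 987 / 100 * d ^ 2 := by
      apply mul_le_mul_of_nonneg_right _ (sq_nonneg d)
      norm_num at hq1 ⊢
      linarith
    linarith
  have h6 : (1 - Real.cos (Real.pi * d)) * (2 * (l : ℝ) + 1 + 2 * d) ≤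
      (987 / 100 * d ^ 2 / 2) * (2 * (l : ℝ) + 1 + 2 * d) := mul_le_mul_of_nonneg_right h5 hN.le
  have h7 : d * 12 ≤ d * (987 / 100 * (d * (2 * (l : ℝ) + 1 + 2 * d))) := by
    nlinarith
  have h8 : 12 ≤ 987 / 100 * (d * (2 * (l : ℝ) + 1 + 2 * d)) := le_of_mul_le_mul_left h7 h0
  have e2 : (2 * ((l : ℝ) + d) + 1) * Real.pi / 4 * Real.sin (Real.pi * d) =
      (2 * (l : ℝ) + 1 + 2 * d) * (Real.pi / 4 * Real.sin (Real.pi * d)) := by ring
  have h9 : (2 * (l : ℝ) + 1 + 2 * d) * (246 / 100 * d) ≤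
      (2 * (l : ℝ) + 1 + 2 * d) * (Real.pi / 4 * Real.sin (Real.pi * d)) :=
    mul_le_mul_of_nonneg_left hs hN.le
  refine le_trans ?_ (neg_le_abs _)
  rw [e2]
  have h10 : (2 * (l : ℝ) + 1 + 2 * d) * (246 / 100 * d) =
      246 / 100 * (d * (2 * (l : ℝ) + 1 + 2 * d)) := by ring
  rw [h10] at h9
  linarith

private lemma bx_size {l : ℕ} (hl : 10 ^ 12 ≤ l) : 3 / (2 * √(l : ℝ)) ≤ 1 / 100 := by
  have h1 : (10 : ℝ) ^ 12 ≤ (l : ℝ) := by exact_mod_cast hl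
  have h2 : (1000 : ℝ) ≤ √(l : ℝ) := by
    apply Real.le_sqrt_of_sq_le
    nlinarith
  rw [div_le_div_iff₀ (by linarith) (by norm_num)]
  linarith

private lemma bx_pt_mono {m n : ℕ} (h : m ≤ n) : pt m ≤ pt n := by
  rcases h.eq_or_lt with rfl | h
  · exact le_rfl
  · exact (pt_strictMono h).le

theorem deriv_big {u v b : ℕ → ℝ} {h : ℕ → ℝ → ℝ} (hW : WSys u v b h) {l : ℕ} (hl : 10 ^ 12 ≤ l) {j : ℕ}
    (hj : j = lo l ∨ j + 1 = hi l) {y : ℝ} (hy : y ∈ Icc (u l) (v l)) (h1 : pt j ≤ cf y) (h2 : cf y ≤ (j : ℝ) + 1) :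
    7 / 5 ≤ |dcf y| := by
  have hl1 : 1 ≤ l := by omega
  have hD := bx_size hl
  have hgeo := hW.geo l hl1
  have hcm := hW.cf_mem l hl1 y hy
  have hhc := hW.h_cf l hl1 y hy
  have hlohi : lo l + 1 < hi l - 1 := by unfold lo hi; omega
  have q1 : pt (lo l + 1) ∈ Icc (pt (lo l)) (pt (hi l)) :=
    ⟨bx_pt_mono (by omega), bx_pt_mono (by omega)⟩
  have q2 : pt (hi l - 1) ∈ Icc (pt (lo l)) (pt (hi l)) :=
    ⟨bx_pt_mono (by omega), bx_pt_mono (by omega)⟩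
  have hul := hgeo.u_gt
  by_cases he : l % 2 = 0
  · obtain ⟨hm, -, -, h3⟩ := hW.even l hl1 he
    obtain ⟨g1, g2⟩ := ends_even hW hl he
    rcases hj with hj | hj
    · -- case 1
      subst hj
      have h4 : cf y ≤ pt (lo l + 1) := by
        have := pt_gt (lo l + 1)
        push_cast at this
        linarith
      have h5 := hm.monotoneOn hcm q1 h4
      rw [hhc] at h5
      have e : y = (l : ℝ) + (y - l) := by ring
      rw [e]
      refine bx_case1 he ?_ (by linarith)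
      have h6 : pt l ≤ y := hul.le.trans hy.1
      unfold pt tau at h6
      rw [if_neg (by omega : ¬ l % 2 = 1)] at h6
      linarith
    · -- case 2
      have q3 : ((hi l : ℕ) : ℝ) ∈ Icc (pt (lo l)) (pt (hi l)) := by
        refine ⟨?_, (pt_gt _).le⟩
        have h4 := pt_lt (lo l) (by unfold lo; omega)
        have h5 : ((lo l : ℕ) : ℝ) + 1 ≤ (hi l : ℕ) := by exact_mod_cast (by omega : lo l + 1 ≤ hi l)
        linarith
      have h4 : cf y ≤ ((hi l : ℕ) : ℝ) := by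
        rw [← hj]
        push_cast
        exact h2
      have h5 := hm.monotoneOn hcm q3 h4
      rw [hhc, h3] at h5
      have h6 : pt (hi l - 1) ≤ cf y := by
        rw [← hj]
        exact h1
      have h7 := hm.monotoneOn q2 hcm h6
      rw [hhc] at h7
      have e : y = (l : ℝ) + 1 - (l + 1 - y) := by ring
      rw [e]
      exact bx_case2 he (by linarith) (by linarith)
  · have ho : l % 2 = 1 := by omega
    obtain ⟨hm, -, -⟩ := hW.odd l hl1 ho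
    obtain ⟨g1, g2⟩ := ends_odd hW hl ho
    obtain ⟨-, -, -, hvl⟩ := hgeo.odd ho
    rcases hj with hj | hj
    · -- case 3
      subst hj
      have h4 : cf y ≤ pt (lo l + 1) := by
        have := pt_gt (lo l + 1)
        push_cast at this
        linarith
      have h5 := hm.antitoneOn hcm q1 h4
      rw [hhc] at h5
      have e : y = ((l + 1 : ℕ) : ℝ) + -(l + 1 - y) := by push_cast; ring
      rw [e]
      refine bx_case3 (by omega) (by omega) (by linarith [hy.2]) (by linarith) ?_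
      rw [← e]
      refine le_trans ?_ h1
      have h6 : ((lo l : ℕ) : ℝ) = ((l + 1 : ℕ) : ℝ) / 2 := by
        have : 2 * lo l = l + 1 := by unfold lo; omega
        have h7 : (2 : ℝ) * (lo l : ℕ) = ((l + 1 : ℕ) : ℝ) := by exact_mod_cast this
        linarith
      unfold pt
      rw [h6]
      have h7 : 2 * (((l + 1 : ℕ) : ℝ) / 2) + 1 = ((l + 1 : ℕ) : ℝ) + 1 := by ring
      rw [h7]
      have h8 : 29 / 50 / (((l + 1 : ℕ) : ℝ) + 1) ≤ tau (lo l) / (((l + 1 : ℕ) : ℝ) + 1) :=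
        div_le_div_of_nonneg_right (tau_bounds _).1 (by positivity)
      linarith
    · -- case 4
      have h6 : pt (hi l - 1) ≤ cf y := by
        rw [← hj]
        exact h1
      have h7 := hm.antitoneOn q2 hcm h6
      rw [hhc] at h7
      have e : y = (l : ℝ) + (y - l) := by ring
      have hpl := pt_gt l
      rw [e]
      refine bx_case4 ho (by linarith [hy.1]) (by linarith) ?_
      rw [← e]
      refine h2.trans (le_of_eq ?_)
      have h8 : 2 * (j + 1) = 3 * l + 1 := by rw [hj]; unfold hi; omega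
      have h9 : (2 : ℝ) * ((j : ℝ) + 1) = 3 * l + 1 := by exact_mod_cast h8
      linarith

private lemma bx_between {u v b : ℕ → ℝ} {h : ℕ → ℝ → ℝ} (hW : WSys u v b h) {l : ℕ} (hl1 : 1 ≤ l) {x y c : ℝ}
    (hx : x ∈ Icc (pt (lo l)) (pt (hi l))) (hy : y ∈ Icc (pt (lo l)) (pt (hi l)))
    (h1 : h l x ≤ c) (h2 : c ≤ h l y) : c ∈ Icc (u l) (v l) ∧ cf c ∈ uIcc x y := by
  have m1 := hW.h_mem l hl1 x hx
  have m2 := hW.h_mem l hl1 y hy
  have mc : c ∈ Icc (u l) (v l) := ⟨m1.1.trans h1, h2.trans m2.2⟩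
  have hcm := hW.cf_mem l hl1 c mc
  have hhc := hW.h_cf l hl1 c mc
  refine ⟨mc, ?_⟩
  rw [← hhc] at h1 h2
  rw [mem_uIcc]
  by_cases he : l % 2 = 0
  · obtain ⟨hm, -, -, -⟩ := hW.even l hl1 he
    left
    exact ⟨(hm.le_iff_le hx hcm).1 h1, (hm.le_iff_le hcm hy).1 h2⟩
  · obtain ⟨hm, -, -⟩ := hW.odd l hl1 (by omega)
    right
    exact ⟨(hm.le_iff_ge hcm hy).1 h2, (hm.le_iff_ge hx hcm).1 h1⟩

private lemma bx_expand_lt {u v b : ℕ → ℝ} {h : ℕ → ℝ → ℝ} (hW : WSys u v b h) {l : ℕ} (hl : 10 ^ 12 ≤ l) {j : ℕ}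
    (hj : j = lo l ∨ j + 1 = hi l) {x y : ℝ} (hx : x ∈ Icc (pt j) ((j : ℝ) + 1)) (hy : y ∈ Icc (pt j) ((j : ℝ) + 1))
    (hlt : h l x < h l y) : |h l x - h l y| ≤ |x - y| / (7 / 5) := by
  have hl1 : 1 ≤ l := by omega
  have hlohi : lo l + 1 < hi l - 1 := by unfold lo hi; omega
  have hsub : Icc (pt j) ((j : ℝ) + 1) ⊆ Icc (pt (lo l)) (pt (hi l)) := by
    intro z hz
    refine ⟨(bx_pt_mono (by omega)).trans hz.1, hz.2.trans ?_⟩
    have h1 : pt (j + 1) ≤ pt (hi l) := bx_pt_mono (by omega)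
    have h2 := pt_gt (j + 1)
    push_cast at h2
    linarith
  obtain ⟨c, hc, hcs⟩ := exists_hasDerivAt_eq_slope cf dcf hlt continuous_cf.continuousOn
    (fun z _ => hasDerivAt_cf z)
  obtain ⟨mc, hcc⟩ := bx_between hW hl1 (hsub hx) (hsub hy) hc.1.le hc.2.le
  have hcc2 : cf c ∈ Icc (pt j) ((j : ℝ) + 1) := by
    rcases mem_uIcc.1 hcc with h1 | h1
    · exact ⟨hx.1.trans h1.1, h1.2.trans hy.2⟩
    · exact ⟨hy.1.trans h1.1, h1.2.trans hx.2⟩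
  have hd := deriv_big hW hl hj mc hcc2.1 hcc2.2
  rw [hcs, hW.cf_h l hl1 x (hsub hx), hW.cf_h l hl1 y (hsub hy), abs_div,
    abs_of_pos (sub_pos.2 hlt), le_div_iff₀ (sub_pos.2 hlt)] at hd
  rw [abs_sub_comm (h l x), abs_of_pos (sub_pos.2 hlt), abs_sub_comm x, le_div_iff₀ (by norm_num)]
  linarith

theorem big_of_sys {u v b : ℕ → ℝ} {h : ℕ → ℝ → ℝ} (hW : WSys u v b h) : WBig (10 ^ 12) u v h := by
  refine ⟨le_rfl, fun l hl he => ends_even hW hl he, fun l hl ho => ends_odd hW hl ho, ?_⟩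
  intro l hl j hj x hx y hy
  rcases lt_trichotomy (h l x) (h l y) with h1 | h1 | h1
  · exact bx_expand_lt hW hl hj hx hy h1
  · rw [h1, sub_self, abs_zero]
    positivity
  · rw [abs_sub_comm, abs_sub_comm x]
    exact bx_expand_lt hW hl hj hy hx h1

end Pool.Agent.Lib.MP_a247fa_nt.W
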