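import Pool.Agent.Lib.MP_a247fa_nt.W.SNull
import Pool.Agent.Lib.MP_a247fa_nt.W.BadCover
import Pool.Agent.Lib.MP_a247fa_nt.W.BigExp
import Pool.Agent.Lib.MP_a247fa_nt.W.AttOf

/-! FINAL. Theorem W: in every `(n, n+1)`, `n ≥ 1`, the bad points have measure at most `23/100`; hence also the points that
are not attached to an integer orbit. -/

set_option autoImplicit false

namespace Pool.Agent.Lib.MP_a247fa_nt.W

open Set MeasureTheory

theorem theorem_W {n : ℕ} (hn : 1 ≤ n) :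
    volume {y : ℝ | (n : ℝ) < y ∧ y < n + 1 ∧ Bad y} ≤ ENNReal.ofReal (23 / 100) := by
  obtain ⟨u, v, b, h, hW⟩ := exists_sys
  exact reduce_W hW (fun i hi1 => SS_one_null hW (big_of_sys hW) hi1) hn

theorem theorem_W_att {n : ℕ} (hn : 1 ≤ n) :
    volume {y : ℝ | (n : ℝ) < y ∧ y < n + 1 ∧ ¬ Att y} ≤ ENNReal.ofReal (23 / 100) := by
  refine (measure_mono ?_).trans (theorem_W hn)
  rintro y ⟨h1, h2, h3⟩
  refine ⟨h1, h2, ?_⟩
  by_contra h4
  exact h3 (att_of_not_bad h4)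

end Pool.Agent.Lib.MP_a247fa_nt.W
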