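import Pool.Agent.Lib.MP_a247fa_nt.W.SysMk

/-! BIGENDS (45 min). Size of the end children of the windows `l ≥ 10^12`.

`d = 3/(2√l)`, `d² = 9/(4l)`, `d ≤ 1/100`. `t = 1 - cos (π d) ≥ 2 d²` for `0 ≤ d ≤ 1` (e.g. from `le_one_sub_cos`: `t ≥ π²d²/2 - π⁴d⁴/24 ≥ 4 d²` for `d ≤ 1/100`).
Even `l`: `cf (l+d) = l/2 + d/2 + t(2l+1+2d)/4 ≥ l/2 + 4d²·(2l)/4 ≥ l/2 + 4 > pt (l/2 + 1)`, and `cf (l + 1 - d) = T (l+1) - 3d/2 - t (2(l+1)+1-2d)/4 ≤ T (l+1) - 2 < pt (T(l+1) - 1)`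
(`T (l+1) = hi l`). Odd `l`, `e = l+1`: `cf (l+d) = T l + 3d/2 - t(2l+1+2d)/4 ≤ T l - 2 < pt (hi l - 1)`; `cf (e-d) = e/2 - d/2 + t(2e+1-2d)/4 ≥ e/2 + 2 > pt (lo l + 1)`.
`ends_even`: suppose `x = h l (pt (lo l + 1)) > l + d`. Then `l + d ∈ [pt l.., x)`; if `l + d < u l` then, `u l` being in `[l, l+d']`.. : do it as follows: `cf` is strictly increasing on
`[pt l, pt (l+1)]` for even `l ≥ 2` (`sign_even_right`, `sign_odd_left`, `near_dcf_odd`) and `x` is in it with `cf x = pt (lo l + 1) < cf (l+d)`: so `x < l + d`. Right end: same.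
`ends_odd`: `exists_crit_pair`: `c < c'` near `l`, `l+1`; `cf` decreases on `[c, c']`, `[u l, v l] ⊆ [c, c']` (`dcf < 0` on `[u,v]` and the sign pattern), `l + d, l+1-d ∈ [c, c']` as the values of `dcf`
there are negative: or avoid `c, c'`: if `x = h l (pt (hi l - 1)) > l + d` then `l + d < u l` or `l + d ∈ [u l, v l]`; second case: `cf (l+d) > cf x`, contradiction; first case: `cf` decreases
from `l+d` on? use `crit_odd_trap`: `c ≤ l + 4/(5(2l+1)) < l + d`, so `dcf < 0` on `[l+d, l + 1/2]`, fine. Right end: `c' > l + 1 - d` similarly (`dcf (e-δ) < 0` for `2/(2e+1) ≤ δ ≤ 1/2`, since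
`dcf (e-δ) = 1 - cos(πδ)/2 - (2e+1-2δ)(π/4) sin(πδ)`). -/

set_option autoImplicit false

namespace Pool.Agent.Lib.MP_a247fa_nt.W

open Set

private theorem be_d {l : ℕ} (hl : 10 ^ 12 ≤ l) :
    0 < 3 / (2 * √(l : ℝ)) ∧ 3 / (2 * √(l : ℝ)) ≤ 1 / 100 ∧
      9 ≤ (l : ℝ) * (1 - Real.cos (Real.pi * (3 / (2 * √(l : ℝ))))) := by
  have hl' : (10 : ℝ) ^ 12 ≤ l := by exact_mod_cast hl
  have hl0 : (0 : ℝ) < l := by linarith
  have hs : (10 : ℝ) ^ 6 ≤ √(l : ℝ) := by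
    apply Real.le_sqrt_of_sq_le
    norm_num at hl' ⊢
    linarith
  have hs0 : (0 : ℝ) < √(l : ℝ) := by linarith [show (0 : ℝ) < 10 ^ 6 by norm_num]
  have hss : √(l : ℝ) ^ 2 = l := Real.sq_sqrt hl0.le
  have hd0 : 0 < 3 / (2 * √(l : ℝ)) := by positivity
  have hd1 : 3 / (2 * √(l : ℝ)) ≤ 1 / 100 := by
    rw [div_le_iff₀ (by positivity)]
    norm_num at hs
    linarith
  refine ⟨hd0, hd1, ?_⟩
  set d : ℝ := 3 / (2 * √(l : ℝ)) with hd
  have hd2 : (l : ℝ) * d ^ 2 = 9 / 4 := by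
    rw [hd, div_pow, mul_pow, hss]
    field_simp
    norm_num
  have h1 := le_one_sub_cos d
  have h2 := pi_sq_gt
  have h3 := pi_sq_lt
  have h4 : Real.pi ^ 4 = (Real.pi ^ 2) ^ 2 := by ring
  have h5 : d ^ 2 ≤ 1 / 10000 := by nlinarith
  have h6 : 0 ≤ d ^ 2 := sq_nonneg d
  have h7 : Real.pi ^ 4 * d ^ 4 / 24 ≤ 1 / 2 * d ^ 2 := by
    have h8 : Real.pi ^ 4 ≤ 100 := by rw [h4]; nlinarith [sq_nonneg Real.pi]
    have h9 : d ^ 4 = d ^ 2 * d ^ 2 := by ring
    rw [h9]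
    have h10 : d ^ 2 * d ^ 2 ≤ 1 / 10000 * d ^ 2 := mul_le_mul_of_nonneg_right h5 h6
    have h11 : Real.pi ^ 4 * (d ^ 2 * d ^ 2) ≤ 100 * (1 / 10000 * d ^ 2) :=
      mul_le_mul h8 h10 (by positivity) (by norm_num)
    linarith
  have h12 : 4 * d ^ 2 ≤ 1 - Real.cos (Real.pi * d) := by nlinarith
  have h13 := mul_le_mul_of_nonneg_left h12 hl0.le
  nlinarith

private theorem be_even_left {m : ℕ} (hm : m % 2 = 0) {d : ℝ} (hd : 0 ≤ d)
    (ht : 9 ≤ (m : ℝ) * (1 - Real.cos (Real.pi * d))) : (m : ℝ) / 2 + 9 / 2 ≤ cf (m + d) := by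
  rw [cf_even m hm d]
  have h1 := Real.cos_le_one (Real.pi * d)
  have h2 : 0 ≤ d * (1 - Real.cos (Real.pi * d) / 2) := mul_nonneg hd (by linarith)
  nlinarith

private theorem be_odd_right {m : ℕ} (hm : m % 2 = 1) {d : ℝ} (hd : 0 ≤ d)
    (ht : 9 ≤ (m : ℝ) * (1 - Real.cos (Real.pi * d))) : cf (m + -d) ≤ (3 * m + 1) / 2 - 9 / 2 := by
  rw [cf_odd m hm (-d)]
  rw [mul_neg, Real.cos_neg]
  have h1 := Real.cos_le_one (Real.pi * d)
  have h1' := Real.neg_one_le_cos (Real.pi * d)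
  have h2 : 0 ≤ d * (1 + Real.cos (Real.pi * d) / 2) := mul_nonneg hd (by linarith)
  nlinarith

private theorem be_odd_left {m : ℕ} (hm : m % 2 = 1) {d : ℝ} (hd : 0 ≤ d) (hd1 : d ≤ 1 / 100)
    (ht : 9 ≤ (m : ℝ) * (1 - Real.cos (Real.pi * d))) : cf (m + d) ≤ (3 * m + 1) / 2 - 4 := by
  rw [cf_odd m hm d]
  have h1 := Real.cos_le_one (Real.pi * d)
  have h2 : d * (1 + Real.cos (Real.pi * d) / 2) ≤ d * 2 := mul_le_mul_of_nonneg_left (by linarith) hd
  nlinarith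

private theorem be_even_right {m : ℕ} (hm : m % 2 = 0) {d : ℝ} (hd : 0 ≤ d) (hd1 : d ≤ 1 / 100)
    (ht : 9 ≤ (m : ℝ) * (1 - Real.cos (Real.pi * d))) : (m : ℝ) / 2 + 4 ≤ cf (m + -d) := by
  rw [cf_even m hm (-d)]
  rw [mul_neg, Real.cos_neg]
  have h1 := Real.cos_le_one (Real.pi * d)
  have h1' := Real.neg_one_le_cos (Real.pi * d)
  have h2 : d * (1 - Real.cos (Real.pi * d) / 2) ≤ d * 2 := mul_le_mul_of_nonneg_left (by linarith) hd
  nlinarith

private theorem be_mono {l : ℕ} (hl : 2 ≤ l) (he : l % 2 = 0) : StrictMonoOn cf (Icc (l : ℝ) (pt (l + 1))) := by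
  apply strictMonoOn_of_deriv_pos (convex_Icc _ _) continuous_cf.continuousOn
  intro y hy
  rw [interior_Icc] at hy
  rw [deriv_cf]
  rcases le_total y ((l : ℝ) + 1 / 2) with h | h
  · have := sign_even_right he hy.1.le h
    linarith
  · rcases le_total y ((l : ℝ) + 1) with h' | h'
    · have := sign_odd_left (m := l + 1) (by omega) (y := y) (by push_cast; linarith) (by push_cast; linarith)
      linarith
    · exact near_dcf_odd (m := l + 1) (by omega) (by omega) (by push_cast; linarith) hy.2.le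

theorem ends_even {u v b : ℕ → ℝ} {h : ℕ → ℝ → ℝ} (hW : WSys u v b h) {l : ℕ} (hl : 10 ^ 12 ≤ l) (he : l % 2 = 0) :
    h l (pt (lo l + 1)) ≤ l + 3 / (2 * √l) ∧ (l : ℝ) + 1 - 3 / (2 * √l) ≤ h l (pt (hi l - 1)) := by
  obtain ⟨hd0, hd1, ht⟩ := be_d hl
  set d : ℝ := 3 / (2 * √(l : ℝ)) with hd
  have hl2 : 2 ≤ l := by omega
  have hmono := be_mono hl2 he
  have hg := hW.geo l (by omega)
  have hptl := pt_gt l
  have hlpt : (l : ℝ) + 1 < pt (l + 1) := by have := pt_gt (l + 1); push_cast at this; exact this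
  have hlo : lo l = l / 2 := by unfold lo; omega
  have hhi : hi l = (3 * (l + 1) + 1) / 2 := by unfold hi; omega
  have hle1 : pt (lo l) ≤ pt (lo l + 1) := (pt_strictMono (by omega)).le
  have hlh : lo l + 1 < hi l := by rw [hlo, hhi]; omega
  have hle2 : pt (lo l + 1) ≤ pt (hi l) := (pt_strictMono hlh).le
  have hle3 : pt (lo l) ≤ pt (hi l - 1) := (pt_strictMono (by omega)).le
  have hle4 : pt (hi l - 1) ≤ pt (hi l) := (pt_strictMono (by omega)).le
  have hsub : ∀ x ∈ Icc (u l) (v l), x ∈ Icc (l : ℝ) (pt (l + 1)) := fun x hx =>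
    ⟨by linarith [hg.u_gt, hx.1], by linarith [hg.v_lt, hx.2]⟩
  constructor
  · have hx := hW.h_mem l (by omega) (pt (lo l + 1)) ⟨hle1, hle2⟩
    have hcx := hW.cf_h l (by omega) (pt (lo l + 1)) ⟨hle1, hle2⟩
    have h1 := be_even_left he hd0.le ht
    have h2 := pt_lt (lo l + 1) (by omega)
    have h3 : ((lo l + 1 : ℕ) : ℝ) = (l : ℝ) / 2 + 1 := by
      rw [hlo]
      push_cast
      rw [Nat.cast_div (by omega) (by norm_num)]
      norm_num
    have hlt : cf (h l (pt (lo l + 1))) < cf ((l : ℝ) + d) := by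
      rw [hcx]
      rw [h3] at h2
      linarith
    exact ((hmono.lt_iff_lt (hsub _ hx) ⟨by linarith, by linarith⟩).mp hlt).le
  · have hx := hW.h_mem l (by omega) (pt (hi l - 1)) ⟨hle3, hle4⟩
    have hcx := hW.cf_h l (by omega) (pt (hi l - 1)) ⟨hle3, hle4⟩
    have ht' : 9 ≤ ((l + 1 : ℕ) : ℝ) * (1 - Real.cos (Real.pi * d)) := by
      have := one_sub_cos_nonneg (Real.pi * d)
      push_cast
      linarith
    have h1 := be_odd_right (m := l + 1) (by omega) hd0.le ht'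
    have h2 := pt_gt (hi l - 1)
    have h3 : ((hi l - 1 : ℕ) : ℝ) = (3 * ((l + 1 : ℕ) : ℝ) + 1) / 2 - 1 := by
      obtain ⟨k, hk⟩ : ∃ k, l = 2 * k := ⟨l / 2, by omega⟩
      have : hi l - 1 = 3 * k + 1 := by rw [hhi]; omega
      rw [this, hk]
      push_cast
      ring
    have hlt : cf ((l : ℝ) + 1 - d) < cf (h l (pt (hi l - 1))) := by
      rw [hcx]
      have e : ((l + 1 : ℕ) : ℝ) + -d = (l : ℝ) + 1 - d := by push_cast; ring
      rw [e] at h1
      rw [h3] at h2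
      linarith
    exact ((hmono.lt_iff_lt ⟨by linarith, by linarith⟩ (hsub _ hx)).mp hlt).le

private theorem be_mono' {a b : ℝ} (h : ∀ y ∈ Ioo a b, 0 < dcf y) : StrictMonoOn cf (Icc a b) := by
  apply strictMonoOn_of_deriv_pos (convex_Icc _ _) continuous_cf.continuousOn
  intro y hy
  rw [interior_Icc] at hy
  rw [deriv_cf]
  exact h y hy

private theorem be_anti' {a b : ℝ} (h : ∀ y ∈ Ioo a b, dcf y < 0) : StrictAntiOn cf (Icc a b) := by
  apply strictAntiOn_of_deriv_neg (convex_Icc _ _) continuous_cf.continuousOn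
  intro y hy
  rw [interior_Icc] at hy
  rw [deriv_cf]
  exact h y hy

theorem ends_odd {u v b : ℕ → ℝ} {h : ℕ → ℝ → ℝ} (hW : WSys u v b h) {l : ℕ} (hl : 10 ^ 12 ≤ l) (ho : l % 2 = 1) :
    h l (pt (hi l - 1)) ≤ l + 3 / (2 * √l) ∧ (l : ℝ) + 1 - 3 / (2 * √l) ≤ h l (pt (lo l + 1)) := by
  obtain ⟨hd0, hd1, ht⟩ := be_d hl
  set d : ℝ := 3 / (2 * √(l : ℝ)) with hd
  have hg := hW.geo l (by omega)
  have hptl := pt_gt l
  have hpt1 := pt_lt (l + 1) (by omega)
  push_cast at hpt1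
  have hlo : lo l = (l + 1) / 2 := by unfold lo; omega
  have hhi : hi l = (3 * l + 1) / 2 := by unfold hi; omega
  have hle1 : pt (lo l) ≤ pt (lo l + 1) := (pt_strictMono (by omega)).le
  have hlh : lo l + 1 < hi l := by rw [hlo, hhi]; omega
  have hle2 : pt (lo l + 1) ≤ pt (hi l) := (pt_strictMono hlh).le
  have hle3 : pt (lo l) ≤ pt (hi l - 1) := (pt_strictMono (by omega)).le
  have hle4 : pt (hi l - 1) ≤ pt (hi l) := (pt_strictMono (by omega)).le
  obtain ⟨c, c', hc1, hc2, hc3, hc4, hpos1, hneg, hpos2, hdc, hdc'⟩ := exists_crit_pair ho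
  have hneg' := (hg.odd ho).1
  -- points of `[u, v]` lie in `(c, c')`
  have hcc : ∀ x ∈ Icc (u l) (v l), c < x ∧ x < c' := by
    intro x hx
    have h1 := hneg' x hx
    have h2 : (l : ℝ) ≤ x := by linarith [hg.u_gt, hx.1]
    have h3 : x ≤ (l : ℝ) + 1 + 1 / 2 := by linarith [hg.v_lt, hx.2]
    constructor
    · by_contra hcon
      rcases lt_or_eq_of_le (not_lt.mp hcon) with h4 | h4
      · linarith [hpos1 x h2 h4]
      · rw [h4] at h1; linarith
    · by_contra hcon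
      rcases lt_or_eq_of_le (not_lt.mp hcon) with h4 | h4
      · linarith [hpos2 x h4 h3]
      · rw [← h4] at h1; linarith
  constructor
  · have hx := hW.h_mem l (by omega) (pt (hi l - 1)) ⟨hle3, hle4⟩
    have hcx := hW.cf_h l (by omega) (pt (hi l - 1)) ⟨hle3, hle4⟩
    set x := h l (pt (hi l - 1)) with hxdef
    have h1 := be_odd_left ho hd0.le hd1 ht
    have h2 := pt_gt (hi l - 1)
    have h3 : ((hi l - 1 : ℕ) : ℝ) = (3 * (l : ℝ) + 1) / 2 - 1 := by
      obtain ⟨k, hk⟩ : ∃ k, l = 2 * k + 1 := ⟨l / 2, by omega⟩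
      have : hi l - 1 = 3 * k + 1 := by rw [hhi]; omega
      rw [this, hk]
      push_cast
      ring
    rw [h3] at h2
    have hTl : cf (l : ℝ) = (3 * (l : ℝ) + 1) / 2 := by rw [cf_natCast, T_odd ho]
    by_contra hcon
    have hgt : (l : ℝ) + d < x := not_le.mp hcon
    have hcd : c < (l : ℝ) + d := by
      by_contra hc'
      have hc'' : (l : ℝ) + d ≤ c := not_lt.mp hc'
      have hm := be_mono' (a := (l : ℝ)) (b := c) (fun y hy => hpos1 y hy.1.le hy.2)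
      have := hm ⟨le_rfl, hc1.le⟩ ⟨by linarith, hc''⟩ (show (l : ℝ) < l + d by linarith)
      linarith
    have ha := be_anti' (a := (l : ℝ) + d) (b := x)
      (fun y hy => hneg y (by linarith [hy.1]) (by linarith [hy.2, (hcc x hx).2]))
    have := ha ⟨le_rfl, hgt.le⟩ ⟨hgt.le, le_rfl⟩ hgt
    linarith
  · have hx := hW.h_mem l (by omega) (pt (lo l + 1)) ⟨hle1, hle2⟩
    have hcx := hW.cf_h l (by omega) (pt (lo l + 1)) ⟨hle1, hle2⟩
    set x := h l (pt (lo l + 1)) with hxdef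
    have ht' : 9 ≤ ((l + 1 : ℕ) : ℝ) * (1 - Real.cos (Real.pi * d)) := by
      have := one_sub_cos_nonneg (Real.pi * d)
      push_cast
      linarith
    have h1 := be_even_right (m := l + 1) (by omega) hd0.le hd1 ht'
    have e : ((l + 1 : ℕ) : ℝ) + -d = (l : ℝ) + 1 - d := by push_cast; ring
    rw [e] at h1
    push_cast at h1
    have h2 := pt_lt (lo l + 1) (by omega)
    have h3 : ((lo l + 1 : ℕ) : ℝ) = ((l : ℝ) + 1) / 2 + 1 := by
      obtain ⟨k, hk⟩ : ∃ k, l = 2 * k + 1 := ⟨l / 2, by omega⟩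
      have : lo l + 1 = k + 2 := by rw [hlo]; omega
      rw [this, hk]
      push_cast
      ring
    rw [h3] at h2
    have hTl : cf ((l : ℝ) + 1) = ((l : ℝ) + 1) / 2 := by
      have := cf_natCast (l + 1)
      rw [T_even (by omega)] at this
      push_cast at this
      exact this
    by_contra hcon
    have hgt : x < (l : ℝ) + 1 - d := not_le.mp hcon
    have hcd : (l : ℝ) + 1 - d < c' := by
      by_contra hc'
      have hc'' : c' ≤ (l : ℝ) + 1 - d := not_lt.mp hc'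
      have hm := be_mono' (a := c') (b := (l : ℝ) + 1) (fun y hy => hpos2 y hy.1 (by linarith [hy.2]))
      have := hm ⟨hc'', by linarith⟩ ⟨hc4.le, le_rfl⟩ (show (l : ℝ) + 1 - d < l + 1 by linarith)
      linarith
    have ha := be_anti' (a := x) (b := (l : ℝ) + 1 - d)
      (fun y hy => hneg y (by linarith [hy.1, (hcc x hx).1]) (by linarith [hy.2]))
    have := ha ⟨le_rfl, hgt.le⟩ ⟨hgt.le, le_rfl⟩ hgt
    linarith

end Pool.Agent.Lib.MP_a247fa_nt.W
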