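import Pool.Agent.Lib.MP_a247fa_nt.W.CrcBasic

/-! CRCHALF (40 min). Images of small sets in a window with room on both sides.

`A < k1 < k2 < B`, all three lengths in `[9/10, 101/100]`. Left half: `k1 ≤ s < t ≤ (k1+k2)/2`; four points `A, s, t, k2`:
`|g t - g s| |g k2 - g A| (s-A)(k2-t) ≤ |g s - g A| |g k2 - g t| (t-s)(k2-A)`, `|g s - g A| ≤ |g k2 - g A|`,
`|g k2 - g t| ≤ |g k2 - g k1|`, `k2-A ≤ 2.02`, `s-A ≥ 9/10`, `k2-t ≥ 9/20`: `|g t - g s| ≤ 5 (t-s) |g k2 - g k1|`.
Right half: mirror, four points `k1, s, t, B`. So `g` is `5 |g k2 - g k1|`-Lipschitz on each half and the image of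
`X ∩ half` has measure at most `5 |g k2 - g k1| volume (X ∩ half)` (`LipschitzOnWith`, Hausdorff measure of dimension one is `volume`:
`MeasureTheory.hausdorffMeasure_real`, `LipschitzOnWith.hausdorffMeasure_image_le`); both halves: at most `10 (..) volume X`. -/

set_option autoImplicit false

namespace Pool.Agent.Lib.MP_a247fa_nt.W

open Set MeasureTheory

/-- Lipschitz functions and Lebesgue measure on the line -/
theorem vol_lip {g : ℝ → ℝ} {s : Set ℝ} {K : ℝ} (hK : 0 ≤ K) (h : ∀ x ∈ s, ∀ y ∈ s, |g x - g y| ≤ K * |x - y|) :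
    volume (g '' s) ≤ ENNReal.ofReal K * volume s := by
  have hL : LipschitzOnWith (Real.toNNReal K) g s := by
    refine LipschitzOnWith.of_dist_le_mul fun x hx y hy => ?_
    rw [Real.dist_eq, Real.dist_eq, Real.coe_toNNReal _ hK]
    exact h x hx y hy
  have h1 := hL.hausdorffMeasure_image_le (d := 1) zero_le_one
  rw [MeasureTheory.hausdorffMeasure_real, ENNReal.rpow_one] at h1
  exact h1

private theorem lip_wlog {g : ℝ → ℝ} {s : Set ℝ} {K : ℝ}
    (h : ∀ x ∈ s, ∀ y ∈ s, x < y → |g y - g x| ≤ K * (y - x)) :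
    ∀ x ∈ s, ∀ y ∈ s, |g x - g y| ≤ K * |x - y| := by
  intro x hx y hy
  rcases lt_trichotomy x y with hxy | hxy | hxy
  · rw [abs_sub_comm, abs_sub_comm x y, abs_of_pos (sub_pos.2 hxy)]
    exact h x hx y hy hxy
  · rw [hxy]; simp
  · rw [abs_of_pos (sub_pos.2 hxy)]
    exact h y hy x hx hxy

private theorem half_aux {a1 a2 a3 T G p r l m d : ℝ} (hT : 0 < T) (ha1 : 0 ≤ a1) (ha3 : 0 ≤ a3)
    (hG : a3 ≤ G) (h2 : a2 ≤ T) (hd : 0 ≤ d) (hp : 9 / 10 ≤ p) (hr : 9 / 20 ≤ r) (hl0 : 0 ≤ l) (hl : l ≤ 202 / 100)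
    (hm : a1 * T * (p * r) ≤ a2 * a3 * (d * l)) (_h : m = 0) : a1 ≤ 5 * G * d := by
  have hG0 : 0 ≤ G := ha3.trans hG
  have h3 : a1 * T * (81 / 200) ≤ a1 * T * (p * r) := by
    refine mul_le_mul_of_nonneg_left ?_ (mul_nonneg ha1 hT.le)
    nlinarith
  have h4 : a2 * a3 * (d * l) ≤ T * G * (d * (202 / 100)) := by
    have e1 : a2 * a3 ≤ T * G := by
      calc a2 * a3 ≤ T * a3 := mul_le_mul_of_nonneg_right h2 ha3
        _ ≤ T * G := mul_le_mul_of_nonneg_left hG hT.le
    have e2 : d * l ≤ d * (202 / 100) := mul_le_mul_of_nonneg_left hl hd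
    exact mul_le_mul e1 e2 (mul_nonneg hd hl0) (mul_nonneg hT.le hG0)
  have h5 : T * (a1 * (81 / 200)) ≤ T * (G * d * (202 / 100)) := by
    calc T * (a1 * (81 / 200)) = a1 * T * (81 / 200) := by ring
      _ ≤ T * G * (d * (202 / 100)) := h3.trans (hm.trans h4)
      _ = T * (G * d * (202 / 100)) := by ring
  have h6 := le_of_mul_le_mul_left h5 hT
  have h7 : 0 ≤ G * d := mul_nonneg hG0 hd
  nlinarith

theorem crc_ten {g : ℝ → ℝ} {A k1 k2 B : ℝ} (hg : CrC g A B) (h1 : A + 9 / 10 ≤ k1) (h1' : k1 ≤ A + 101 / 100)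
    (h2 : k1 + 9 / 10 ≤ k2) (h2' : k2 ≤ k1 + 101 / 100) (h3 : k2 + 9 / 10 ≤ B) (h3' : B ≤ k2 + 101 / 100) {X : Set ℝ}
    (hX : X ⊆ Icc k1 k2) : volume (g '' X) ≤ ENNReal.ofReal (10 * |g k2 - g k1|) * volume X := by
  have hG : 0 ≤ |g k2 - g k1| := abs_nonneg _
  have hL : ∀ x ∈ X ∩ Iic ((k1 + k2) / 2), ∀ y ∈ X ∩ Iic ((k1 + k2) / 2),
      |g x - g y| ≤ 5 * |g k2 - g k1| * |x - y| := by
    refine lip_wlog ?_
    rintro s ⟨hs, hs'⟩ t ⟨ht, ht'⟩ hst
    have hs1 := (hX hs).1
    have ht2 : t ≤ (k1 + k2) / 2 := ht'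
    have hcr := hg.cr A s t k2 le_rfl (by linarith) hst (by linarith) (by linarith)
    exact half_aux (m := 0) (crc_pos hg le_rfl (by linarith) (by linarith)) (abs_nonneg _) (abs_nonneg _)
      (crc_le hg (by linarith) (by linarith) (by linarith) le_rfl (by linarith))
      (crc_le hg le_rfl le_rfl (by linarith) (by linarith) (by linarith)) (by linarith)
      (by linarith) (by linarith) (by linarith) (by linarith) hcr rfl
  have hR : ∀ x ∈ X ∩ Ici ((k1 + k2) / 2), ∀ y ∈ X ∩ Ici ((k1 + k2) / 2),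
      |g x - g y| ≤ 5 * |g k2 - g k1| * |x - y| := by
    refine lip_wlog ?_
    rintro s ⟨hs, hs'⟩ t ⟨ht, ht'⟩ hst
    have hs1 : (k1 + k2) / 2 ≤ s := hs'
    have ht2 := (hX ht).2
    have hcr := hg.cr k1 s t B (by linarith) (by linarith) hst (by linarith) le_rfl
    have hcr' : |g t - g s| * |g B - g k1| * ((B - t) * (s - k1)) ≤
        |g B - g t| * |g s - g k1| * ((t - s) * (B - k1)) := by
      calc _ = |g t - g s| * |g B - g k1| * ((s - k1) * (B - t)) := by ring
        _ ≤ _ := hcr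
        _ = _ := by ring
    exact half_aux (m := 0) (crc_pos hg (by linarith) (by linarith) le_rfl) (abs_nonneg _) (abs_nonneg _)
      (crc_le hg (by linarith) le_rfl (by linarith) (by linarith) (by linarith))
      (crc_le hg (by linarith) (by linarith) (by linarith) le_rfl le_rfl) (by linarith)
      (by linarith) (by linarith) (by linarith) (by linarith) hcr' rfl
  have hun : X = (X ∩ Iic ((k1 + k2) / 2)) ∪ (X ∩ Ici ((k1 + k2) / 2)) := by
    rw [← inter_union_distrib_left, Iic_union_Ici, inter_univ]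
  have e1 := vol_lip (by positivity) hL
  have e2 := vol_lip (by positivity) hR
  calc volume (g '' X) ≤ volume (g '' (X ∩ Iic ((k1 + k2) / 2))) + volume (g '' (X ∩ Ici ((k1 + k2) / 2))) := by
        conv_lhs => rw [hun]
        rw [image_union]
        exact measure_union_le _ _
    _ ≤ ENNReal.ofReal (5 * |g k2 - g k1|) * volume X + ENNReal.ofReal (5 * |g k2 - g k1|) * volume X := by
        refine add_le_add (e1.trans ?_) (e2.trans ?_)
        · gcongr
          exact inter_subset_left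
        · gcongr
          exact inter_subset_left
    _ = ENNReal.ofReal (10 * |g k2 - g k1|) * volume X := by
        rw [← add_mul, ← ENNReal.ofReal_add (by positivity) (by positivity)]
        congr 2
        ring

end Pool.Agent.Lib.MP_a247fa_nt.W
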