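import Pool.Agent.Lib.MP_a247fa_nt.W.CrcBasic

/-! CRCLEM (40 min). Three consequences of the contraction of cross ratios.

`crc_middle`: `L = x-a, M = y-x, R = b-y` (all `> 0`), `κ = M (b-a)/(L R)`. For `g` put `l, m, r` = lengths of the images; by
`crc_add` the total is `t = l+m+r` and `CrC` gives `m t ≤ κ l r ≤ κ (t-m)^2/4 ≤ κ (t - m) t / 4`, so `m ≤ (κ/4)(t-m)`,
`m ≤ θ t` with `θ = (κ/4)/(1+κ/4) < 1`.
`crc_fold`: `β = |g e - g b|`, flanks `s1, s2`, total `t = s1+β+s2`: `β t (b-v)(q-e) ≤ s1 s2 (e-b)(q-v) ≤ (153/100)(b-v)(q-e) s1 s2`,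
so `β (s+β) ≤ (153/100) s1 s2 ≤ (153/400) s^2`, `s = s1+s2`; if `β > (57/193) s` then `β(s+β) > (57/193)(250/193) s^2 > (153/400) s^2`
(`0.38256 > 0.3825`); so `193 β ≤ 57 s`, i.e. `250 β ≤ 57 t`.
`crc_lip`: for `a < x ≤ s < t ≤ y < b`: four points `a, s, t, b`:
`|g t - g s| |g b - g a| (s-a)(b-t) ≤ |g s - g a||g b - g t|(t-s)(b-a)`, and `|g b - g t| ≤ |g b - g a|`, `|g s - g a| ≤ |g b - g a|`.
`crc_null`: on every `[x,y]` with `a<x`, `y<b` the map `g` is Lipschitz (`crc_lip`), so null sets go to null sets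
(`LipschitzOnWith` and the 1-dimensional Hausdorff measure `MeasureTheory.hausdorffMeasure_real`, or the covering lemma
`volume_image_le` in Dens/Limit.lean as a model). -/

set_option autoImplicit false

namespace Pool.Agent.Lib.MP_a247fa_nt.W

open Set MeasureTheory

theorem crc_middle {a x y b : ℝ} (hax : a < x) (hxy : x < y) (hyb : y < b) :
    ∃ θ : ℝ, 0 ≤ θ ∧ θ < 1 ∧ ∀ g : ℝ → ℝ, CrC g a b → |g y - g x| ≤ θ * |g b - g a| := by
  have hL : 0 < x - a := sub_pos.2 hax
  have hM : 0 < y - x := sub_pos.2 hxy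
  have hR : 0 < b - y := sub_pos.2 hyb
  have hT : 0 < b - a := by linarith
  obtain ⟨κ, hκ⟩ : ∃ κ : ℝ, κ = (y - x) * (b - a) / ((x - a) * (b - y)) := ⟨_, rfl⟩
  have hκ0 : 0 < κ := by rw [hκ]; positivity
  have hκe : κ * ((x - a) * (b - y)) = (y - x) * (b - a) := by
    rw [hκ]; field_simp
  refine ⟨κ / (4 + κ), by positivity, (div_lt_one (by positivity)).2 (by linarith), fun g hg => ?_⟩
  have hcr := hg.cr a x y b le_rfl hax hxy hyb le_rfl
  have h1 := crc_add hg le_rfl hax.le (hxy.trans hyb).le le_rfl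
  have h2 := crc_add hg hax.le hxy.le hyb.le le_rfl
  have hl := crc_pos hg le_rfl hax (hxy.trans hyb).le
  have hr := crc_pos hg (hax.trans hxy).le hyb le_rfl
  have hm := crc_pos hg hax.le hxy hyb.le
  generalize |g x - g a| = l at *
  generalize |g b - g y| = r at *
  generalize |g y - g x| = m at *
  rw [← hκe] at hcr
  have h3 : ((x - a) * (b - y)) * (m * |g b - g a|) ≤ ((x - a) * (b - y)) * (κ * (l * r)) := by
    calc _ = m * |g b - g a| * ((x - a) * (b - y)) := by ring
      _ ≤ _ := hcr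
      _ = _ := by ring
  have h4 := le_of_mul_le_mul_left h3 (mul_pos hL hR)
  rw [h1, h2] at h4 ⊢
  rw [div_mul_eq_mul_div, le_div_iff₀ (by positivity)]
  have h5 : (l + r) * (4 * m) ≤ (l + r) * (κ * (l + r)) := by
    have h6 : κ * (l * r) ≤ κ * ((l + r) ^ 2 / 4) := by
      refine mul_le_mul_of_nonneg_left ?_ hκ0.le
      nlinarith [sq_nonneg (l - r)]
    nlinarith [mul_pos hm hm]
  have h7 := le_of_mul_le_mul_left h5 (by positivity)
  nlinarith

theorem crc_fold {v b e q : ℝ} (hvb : v < b) (hbe : b < e) (heq : e < q)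
    (hk : (e - b) * (q - v) ≤ 153 / 100 * ((b - v) * (q - e))) {g : ℝ → ℝ} (hg : CrC g v q) :
    |g e - g b| ≤ 57 / 250 * |g q - g v| := by
  have hcr := hg.cr v b e q le_rfl hvb hbe heq le_rfl
  have h1 := crc_add hg le_rfl hvb.le (hbe.trans heq).le le_rfl
  have h2 := crc_add hg hvb.le hbe.le heq.le le_rfl
  have hl := crc_pos hg le_rfl hvb (hbe.trans heq).le
  have hr := crc_pos hg (hvb.trans hbe).le heq le_rfl
  have hm := crc_pos hg hvb.le hbe heq.le
  generalize |g b - g v| = l at *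
  generalize |g q - g e| = r at *
  generalize |g e - g b| = m at *
  have hP : 0 < (b - v) * (q - e) := mul_pos (sub_pos.2 hvb) (sub_pos.2 heq)
  have h3 : ((b - v) * (q - e)) * (m * |g q - g v|) ≤ ((b - v) * (q - e)) * (153 / 100 * (l * r)) := by
    calc _ = m * |g q - g v| * ((b - v) * (q - e)) := by ring
      _ ≤ l * r * ((e - b) * (q - v)) := hcr
      _ ≤ l * r * (153 / 100 * ((b - v) * (q - e))) := mul_le_mul_of_nonneg_left hk (by positivity)
      _ = _ := by ring
  have h4 := le_of_mul_le_mul_left h3 hP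
  rw [h1, h2] at h4 ⊢
  by_contra hc
  rw [not_le] at hc
  have h5 : 57 * (l + r) < 193 * m := by linarith
  have h6 : m * (l + r + m) ≤ 153 / 400 * (l + r) ^ 2 := by nlinarith [sq_nonneg (l - r)]
  have h7 : 57 / 193 * (l + r) < m := by linarith
  have h8 : 57 / 193 * (l + r) * ((l + r) + 57 / 193 * (l + r)) < m * (l + r + m) := by
    apply mul_lt_mul'' h7 (by linarith) (by positivity) (by positivity)
  have h9 : 0 < (l + r) ^ 2 := by positivity
  nlinarith

theorem crc_lip {g : ℝ → ℝ} {a b x y : ℝ} (hg : CrC g a b) (hax : a < x) (hyb : y < b) {s t : ℝ}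
    (hxs : x ≤ s) (hst : s ≤ t) (hty : t ≤ y) :
    |g t - g s| ≤ (t - s) * ((b - a) / ((x - a) * (b - y)) * |g b - g a|) := by
  rcases hst.eq_or_lt with rfl | hst
  · simp
  have hcr := hg.cr a s t b le_rfl (by linarith) hst (by linarith) le_rfl
  have hT := crc_pos hg le_rfl (show a < b by linarith) le_rfl
  have h1 := crc_le hg le_rfl (s := a) (t := s) le_rfl (by linarith) (show s ≤ b by linarith) le_rfl
  have h2 := crc_le hg le_rfl (s := t) (t := b) (show a ≤ t by linarith) (by linarith) le_rfl le_rfl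
  have h3 : |g b - g a| * (|g t - g s| * ((s - a) * (b - t))) ≤
      |g b - g a| * (|g b - g a| * ((t - s) * (b - a))) := by
    calc _ = |g t - g s| * |g b - g a| * ((s - a) * (b - t)) := by ring
      _ ≤ |g s - g a| * |g b - g t| * ((t - s) * (b - a)) := hcr
      _ ≤ |g b - g a| * |g b - g a| * ((t - s) * (b - a)) := by
          refine mul_le_mul_of_nonneg_right (mul_le_mul h1 h2 (abs_nonneg _) (abs_nonneg _)) ?_
          exact mul_nonneg (by linarith) (by linarith)
      _ = _ := by ring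
  have h4 := le_of_mul_le_mul_left h3 hT
  have hP : 0 < (x - a) * (b - y) := mul_pos (by linarith) (by linarith)
  have h5 : |g t - g s| * ((x - a) * (b - y)) ≤ |g t - g s| * ((s - a) * (b - t)) := by
    refine mul_le_mul_of_nonneg_left ?_ (abs_nonneg _)
    exact mul_le_mul (by linarith) (by linarith) (by linarith) (by linarith)
  have h6 : (t - s) * ((b - a) / ((x - a) * (b - y)) * |g b - g a|) =
      (|g b - g a| * ((t - s) * (b - a))) / ((x - a) * (b - y)) := by
    field_simp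
  rw [h6, le_div_iff₀ hP]
  exact h5.trans h4

theorem crc_null {g : ℝ → ℝ} {a b x y : ℝ} (hg : CrC g a b) (hax : a < x) (hyb : y < b) {X : Set ℝ}
    (hX : X ⊆ Icc x y) (h0 : volume X = 0) : volume (g '' X) = 0 := by
  rcases X.eq_empty_or_nonempty with rfl | ⟨z, hz⟩
  · simp
  have hxy : x ≤ y := (hX hz).1.trans (hX hz).2
  have hK : 0 ≤ (b - a) / ((x - a) * (b - y)) * |g b - g a| :=
    mul_nonneg (div_nonneg (by linarith) (mul_nonneg (by linarith) (by linarith))) (abs_nonneg _)
  have hL : LipschitzOnWith (Real.toNNReal ((b - a) / ((x - a) * (b - y)) * |g b - g a|)) g X := by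
    refine LipschitzOnWith.of_dist_le_mul fun s hs t ht => ?_
    rw [Real.dist_eq, Real.dist_eq, Real.coe_toNNReal _ hK]
    rcases le_total s t with hst | hst
    · rw [abs_sub_comm, abs_sub_comm s t, abs_of_nonneg (sub_nonneg.2 hst), mul_comm _ (t - s)]
      exact crc_lip hg hax hyb (hX hs).1 hst (hX ht).2
    · rw [abs_of_nonneg (sub_nonneg.2 hst), mul_comm _ (s - t)]
      exact crc_lip hg hax hyb (hX ht).1 hst (hX hs).2
  have h1 := hL.hausdorffMeasure_image_le (d := 1) zero_le_one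
  rw [MeasureTheory.hausdorffMeasure_real, ENNReal.rpow_one, h0, mul_zero] at h1
  exact nonpos_iff_eq_zero.1 h1

end Pool.Agent.Lib.MP_a247fa_nt.W
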