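import Pool.Agent.Lib.MP_a247fa_nt.Trap

/-! THEOREM W (MP_a247fa_nt), definitions, version 2. Paper proof: /team-store/BJ_W.md (there with one constant 14/25; here two).

`f = cf`, `T` the Collatz map. Split points `pt n = n + tau n/(2n+1)`, `tau n = 29/50` for odd and `33/50` for even `n` (they lie in
`trapI n`), windows `K_i = (pt i, pt (i+1))`, core windows `Qw i = (pt i, i+1)`. Window `i` has an inner closed interval `[u i, v i]` on
which `cf` is strictly monotone onto `[pt (lo i), pt (hi i)]`, with inverse `h i`. -/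

set_option autoImplicit false

namespace Pool.Agent.Lib.MP_a247fa_nt.W

open Set MeasureTheory

/-- `y` is attached to an integer orbit: from some time on its orbit follows the orbit of a positive integer. -/
def Att (y : ℝ) : Prop := ∃ k m : ℕ, 0 < m ∧ ∀ j : ℕ,
  |cf^[k + j] y - ((T^[j] m : ℕ) : ℝ)| ≤ 4 / (5 * (2 * ((T^[j] m : ℕ) : ℝ) + 1))

/-- `y` is captured by a trap at an odd integer: `y` is in `[m, m+1)`, `m` odd, and `cf y ≥ T m` -/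
def Trp (y : ℝ) : Prop := ⌊y⌋₊ % 2 = 1 ∧ ((T ⌊y⌋₊ : ℕ) : ℝ) ≤ cf y

/-- `y` is in the fold at the left of an even integer: `y` is in `[m, m+1)`, `m` odd, and `cf y < (m+1)/2` -/
def Fld (y : ℝ) : Prop := ⌊y⌋₊ % 2 = 1 ∧ cf y < ((⌊y⌋₊ : ℝ) + 1) / 2

/-- `y` is bad: its orbit never meets a trap or a fold, or it meets a fold at an even integer `≥ 4` before anything else -/
def Bad (y : ℝ) : Prop := (∀ k : ℕ, ¬ Trp (cf^[k] y) ∧ ¬ Fld (cf^[k] y)) ∨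
  ∃ k : ℕ, 3 ≤ ⌊cf^[k] y⌋₊ ∧ Fld (cf^[k] y) ∧ ∀ j < k, ¬ Trp (cf^[j] y) ∧ ¬ Fld (cf^[j] y)

/-- the constants of the split points -/
noncomputable def tau (n : ℕ) : ℝ := if n % 2 = 1 then 29 / 50 else 33 / 50

/-- the split points -/
noncomputable def pt (n : ℕ) : ℝ := n + tau n / (2 * n + 1)

/-- the children windows of window `i` are the windows `j` with `lo i ≤ j < hi i` -/
def lo (i : ℕ) : ℕ := (i + 1) / 2

/-- see `lo` : `hi i = T (i+1)` for even `i` and `hi i = T i` for odd `i` -/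
def hi (i : ℕ) : ℕ := 3 * (i / 2) + 2

/-- the core window -/
def Qw (i : ℕ) : Set ℝ := Ioo (pt i) ((i : ℝ) + 1)

/-- `g` is continuous, strictly monotone and contracts cross ratios on `[a, b]` -/
structure CrC (g : ℝ → ℝ) (a b : ℝ) : Prop where
  cont : ContinuousOn g (Icc a b)
  mono : StrictMonoOn g (Icc a b) ∨ StrictAntiOn g (Icc a b)
  cr : ∀ x y z w : ℝ, a ≤ x → x < y → y < z → z < w → w ≤ b →
    |g z - g y| * |g w - g x| * ((y - x) * (w - z)) ≤ |g y - g x| * |g w - g z| * ((z - y) * (w - x))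

/-- The geometry of one window: `[u, v]` is the part which `cf` maps monotonically onto `[pt (lo i), pt (hi i)]`, the rest
of the core window contains no bad points outside (for odd `i ≥ 3`) the fold `(b, i+1)`. -/
structure GeoAt (i : ℕ) (u v b : ℝ) : Prop where
  u_gt : pt i < u
  u_lt : u < v
  v_lt : v < pt (i + 1)
  even : i % 2 = 0 → (∀ y ∈ Icc u v, 0 < dcf y) ∧ cf u = pt (lo i) ∧ cf v = pt (hi i) ∧ (i : ℝ) + 1 ≤ v
  odd : i % 2 = 1 → (∀ y ∈ Icc u v, dcf y < 0) ∧ cf u = pt (hi i) ∧ cf v = pt (lo i) ∧ v < (i : ℝ) + 1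
  dich : ∀ y ∈ Qw i, Bad y → y ∈ Icc u v ∨ b < y
  fold : b = (i : ℝ) + 1 ∨ (v < b ∧ b < (i : ℝ) + 1 ∧
    ((i : ℝ) + 1 - b) * (pt (i + 1) - v) ≤ 153 / 100 * ((b - v) * (pt (i + 1) - ((i : ℝ) + 1))))

/-- All windows together, with the inverse branches `h i` of `cf` on `[u i, v i]`. -/
structure WSys (u v b : ℕ → ℝ) (h : ℕ → ℝ → ℝ) : Prop where
  geo : ∀ i, 1 ≤ i → GeoAt i (u i) (v i) (b i)
  crc : ∀ i, 1 ≤ i → CrC (h i) (pt (lo i)) (pt (hi i))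
  h_mem : ∀ i, 1 ≤ i → ∀ x ∈ Icc (pt (lo i)) (pt (hi i)), h i x ∈ Icc (u i) (v i)
  cf_h : ∀ i, 1 ≤ i → ∀ x ∈ Icc (pt (lo i)) (pt (hi i)), cf (h i x) = x
  cf_mem : ∀ i, 1 ≤ i → ∀ y ∈ Icc (u i) (v i), cf y ∈ Icc (pt (lo i)) (pt (hi i))
  h_cf : ∀ i, 1 ≤ i → ∀ y ∈ Icc (u i) (v i), h i (cf y) = y
  even : ∀ i, 1 ≤ i → i % 2 = 0 → StrictMonoOn (h i) (Icc (pt (lo i)) (pt (hi i))) ∧
    h i (pt (lo i)) = u i ∧ h i (pt (hi i)) = v i ∧ h i ((hi i : ℕ) : ℝ) = (i : ℝ) + 1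
  odd : ∀ i, 1 ≤ i → i % 2 = 1 → StrictAntiOn (h i) (Icc (pt (lo i)) (pt (hi i))) ∧
    h i (pt (lo i)) = v i ∧ h i (pt (hi i)) = u i

/-- Additional facts on the windows `l ≥ L0` : size of the two end children and expansion there. -/
structure WBig (L0 : ℕ) (u v : ℕ → ℝ) (h : ℕ → ℝ → ℝ) : Prop where
  big : 10 ^ 12 ≤ L0
  even : ∀ l, L0 ≤ l → l % 2 = 0 → h l (pt (lo l + 1)) ≤ l + 3 / (2 * √l) ∧
    (l : ℝ) + 1 - 3 / (2 * √l) ≤ h l (pt (hi l - 1))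
  odd : ∀ l, L0 ≤ l → l % 2 = 1 → h l (pt (hi l - 1)) ≤ l + 3 / (2 * √l) ∧
    (l : ℝ) + 1 - 3 / (2 * √l) ≤ h l (pt (lo l + 1))
  expand : ∀ l, L0 ≤ l → ∀ j, (j = lo l ∨ j + 1 = hi l) → ∀ x ∈ Icc (pt j) ((j : ℝ) + 1),
    ∀ y ∈ Icc (pt j) ((j : ℝ) + 1), |h l x - h l y| ≤ |x - y| / (7 / 5)

/-- inner end of the left end child of window `l` -/
noncomputable def m1 (h : ℕ → ℝ → ℝ) (l : ℕ) : ℝ := if l % 2 = 0 then h l (pt (lo l + 1)) else h l (pt (hi l - 1))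

/-- inner end of the right end child of window `l` -/
noncomputable def m2 (h : ℕ → ℝ → ℝ) (l : ℕ) : ℝ := if l % 2 = 0 then h l (pt (hi l - 1)) else h l (pt (lo l + 1))

/-- the points that enter a fold within `k` steps, staying in the inner intervals before -/
def NN (u v b : ℕ → ℝ) : ℕ → Set ℝ
  | 0 => ∅
  | k + 1 => {y | ∃ i : ℕ, 1 ≤ i ∧ y ∈ Qw i ∧ (b i < y ∨ (y ∈ Icc (u i) (v i) ∧ cf y ∈ NN u v b k))}

/-- the points that stay in the inner intervals of the windows `i ≥ L` for ever -/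
def SS (L : ℕ) (u v : ℕ → ℝ) : Set ℝ := {y | ∀ k : ℕ, ∃ i : ℕ, L ≤ i ∧ cf^[k] y ∈ Qw i ∩ Icc (u i) (v i)}

/-- the points that stay in the inner intervals of windows `i ≥ L` for `k` steps and then are in a core window -/
def MM (L : ℕ) (u v : ℕ → ℝ) : ℕ → Set ℝ
  | 0 => {y | ∃ i : ℕ, L ≤ i ∧ y ∈ Qw i}
  | k + 1 => {y | ∃ i : ℕ, L ≤ i ∧ y ∈ Qw i ∧ y ∈ Icc (u i) (v i) ∧ cf y ∈ MM L u v k}

/-- the points that stay in the inner intervals for `k` steps and visit windows `< L` at least `r` times meanwhile -/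
def AA (L : ℕ) (u v : ℕ → ℝ) : ℕ → ℕ → Set ℝ
  | 0, 0 => {y | ∃ i : ℕ, 1 ≤ i ∧ y ∈ Qw i}
  | 0, _ + 1 => ∅
  | k + 1, r => {y | ∃ i : ℕ, 1 ≤ i ∧ y ∈ Qw i ∧ y ∈ Icc (u i) (v i) ∧
      ((i < L ∧ cf y ∈ AA L u v k (r - 1)) ∨ (L ≤ i ∧ cf y ∈ AA L u v k r))}

end Pool.Agent.Lib.MP_a247fa_nt.W
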