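import Pool.Agent.Lib.MP_a247fa_nt.Singer
import Pool.Agent.Lib.MP_a247fa_nt.W.Defs

/-! CROSS4 (40 min). `cf` expands the cross ratios of four points on intervals of `[0, ∞)` without critical points.

Proof. Let `F = cf` (if `dcf > 0`) or `F = -cf` (if `dcf < 0`). For `x < s < w` in the interval, `cross_ratio_aux`
(Singer.lean; use `hasDerivAt_cf, hasDerivAt_dcf_d2, hasDerivAt_d2cf, schwarzian_neg`, exactly as in `step_lt`) gives
`(F s - F x)(F w - F s)(w - x) ≤ F' s (F w - F x)(s - x)(w - s)`. Hence the function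
`φ s = log (F s - F x) - log (F w - F s) - log (s - x) + log (w - s)` on `(x, w)` has derivative
`F' s / (F s - F x) + F' s / (F w - F s) - 1/(s-x) - 1/(w-s) = F' s (F w - F x)/((F s - F x)(F w - F s)) - (w-x)/((s-x)(w-s)) ≥ 0`,
so it is monotone: `φ y ≤ φ z`, i.e. (exponentiate)
`(F y - F x)(F w - F z)(z - x)(w - y) ≤ (F z - F x)(F w - F y)(y - x)(w - z)`.
With `(z-x)(w-y) = (y-x)(w-z) + (z-y)(w-x)` and the same identity for the `F` values, subtract
`(F y - F x)(F w - F z)(y - x)(w - z)` on both sides: the claim. -/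

set_option autoImplicit false

namespace Pool.Agent.Lib.MP_a247fa_nt.W

open Set

private theorem cross4_aux {F F1 F2 F3 : ℝ → ℝ} {p q : ℝ}
    (h1 : ∀ t ∈ Icc p q, HasDerivAt F (F1 t) t)
    (h2 : ∀ t ∈ Icc p q, HasDerivAt F1 (F2 t) t)
    (h3 : ∀ t ∈ Icc p q, HasDerivAt F2 (F3 t) t)
    (hpos : ∀ t ∈ Icc p q, 0 < F1 t)
    (hS : ∀ t ∈ Icc p q, 2 * F1 t * F3 t - 3 * F2 t ^ 2 ≤ 0)
    {x y z w : ℝ} (hpx : p ≤ x) (hxy : x < y) (hyz : y < z) (hzw : z < w) (hwq : w ≤ q) :
    (F y - F x) * (F w - F z) * ((z - y) * (w - x)) ≤ (F z - F y) * (F w - F x) * ((y - x) * (w - z)) ∧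
      F x < F y ∧ F y < F z ∧ F z < F w := by
  have hsub : Icc x w ⊆ Icc p q := Icc_subset_Icc hpx hwq
  have key : ∀ s, x < s → s < w →
      (F s - F x) * (F w - F s) * (w - x) ≤ F1 s * (F w - F x) * (s - x) * (w - s) ∧
        F x < F s ∧ F s < F w := fun s hxs hsw =>
    cross_ratio_aux hxs hsw (fun t ht => h1 t (hsub ht)) (fun t ht => h2 t (hsub ht))
      (fun t ht => h3 t (hsub ht)) (fun t ht => hpos t (hsub ht)) (fun t ht => hS t (hsub ht))
  have ky := key y hxy (hyz.trans hzw)
  have kz := key z (hxy.trans hyz) hzw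
  have hyzF : F y < F z :=
    (cross_ratio_aux hyz hzw
      (fun t ht => h1 t (hsub ⟨hxy.le.trans ht.1, ht.2⟩)) (fun t ht => h2 t (hsub ⟨hxy.le.trans ht.1, ht.2⟩))
      (fun t ht => h3 t (hsub ⟨hxy.le.trans ht.1, ht.2⟩)) (fun t ht => hpos t (hsub ⟨hxy.le.trans ht.1, ht.2⟩))
      (fun t ht => hS t (hsub ⟨hxy.le.trans ht.1, ht.2⟩))).2.1
  refine ⟨?_, ky.2.1, hyzF, kz.2.2⟩
  -- the function `φ`
  have hder : ∀ s ∈ Icc y z, HasDerivAt
      (fun s => Real.log (F s - F x) - Real.log (F w - F s) - Real.log (s - x) + Real.log (w - s))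
      (F1 s / (F s - F x) - (-F1 s) / (F w - F s) - 1 / (s - x) + (-1) / (w - s)) s := by
    intro s hs
    have hxs : x < s := hxy.trans_le hs.1
    have hsw : s < w := hs.2.trans_lt hzw
    have k := key s hxs hsw
    have hF := h1 s (hsub ⟨hxs.le, hsw.le⟩)
    have e1 : HasDerivAt (fun s => F s - F x) (F1 s) s := hF.sub_const _
    have e2 : HasDerivAt (fun s => F w - F s) (-F1 s) s := hF.const_sub _
    have e3 : HasDerivAt (fun s : ℝ => s - x) 1 s := (hasDerivAt_id s).sub_const _
    have e4 : HasDerivAt (fun s : ℝ => w - s) (-1) s := (hasDerivAt_id s).const_sub _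
    exact (((e1.log (by linarith [k.2.1])).sub (e2.log (by linarith [k.2.2]))).sub
      (e3.log (by linarith))).add (e4.log (by linarith))
  have hmono : MonotoneOn
      (fun s => Real.log (F s - F x) - Real.log (F w - F s) - Real.log (s - x) + Real.log (w - s))
      (Icc y z) := by
    apply monotoneOn_of_deriv_nonneg (convex_Icc y z)
    · exact fun s hs => (hder s hs).continuousAt.continuousWithinAt
    · intro s hs
      rw [interior_Icc] at hs
      exact (hder s (Ioo_subset_Icc_self hs)).differentiableAt.differentiableWithinAt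
    · intro s hs
      rw [interior_Icc] at hs
      have hs' := Ioo_subset_Icc_self hs
      rw [(hder s hs').deriv]
      have hxs : x < s := hxy.trans_le hs'.1
      have hsw : s < w := hs'.2.trans_lt hzw
      have k := key s hxs hsw
      have a1 : 0 < F s - F x := by linarith [k.2.1]
      have a2 : 0 < F w - F s := by linarith [k.2.2]
      have a3 : 0 < s - x := by linarith
      have a4 : 0 < w - s := by linarith
      have e : F1 s / (F s - F x) - (-F1 s) / (F w - F s) - 1 / (s - x) + (-1) / (w - s) =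
          (F1 s * (F w - F x) * (s - x) * (w - s) - (F s - F x) * (F w - F s) * (w - x)) /
            ((F s - F x) * (F w - F s) * (s - x) * (w - s)) := by
        field_simp
        ring
      rw [e]
      exact div_nonneg (sub_nonneg.2 k.1) (by positivity)
  have h := hmono (left_mem_Icc.2 hyz.le) (right_mem_Icc.2 hyz.le) hyz.le
  simp only at h
  have y1 : 0 < F y - F x := by linarith [ky.2.1]
  have y2 : 0 < F w - F y := by linarith [ky.2.2]
  have y3 : 0 < y - x := by linarith
  have y4 : 0 < w - y := by linarith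
  have z1 : 0 < F z - F x := by linarith [kz.2.1]
  have z2 : 0 < F w - F z := by linarith [kz.2.2]
  have z3 : 0 < z - x := by linarith
  have z4 : 0 < w - z := by linarith
  have hlog : Real.log ((F y - F x) * (w - y) * (F w - F z) * (z - x)) ≤
      Real.log ((F z - F x) * (w - z) * (F w - F y) * (y - x)) := by
    rw [Real.log_mul (by positivity) (by positivity), Real.log_mul (by positivity) (by positivity),
      Real.log_mul (by positivity) (by positivity), Real.log_mul (by positivity) (by positivity),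
      Real.log_mul (by positivity) (by positivity), Real.log_mul (by positivity) (by positivity)]
    linarith
  have hle := (Real.log_le_log_iff (by positivity) (by positivity)).1 hlog
  have e : (F y - F x) * (F w - F z) * ((z - y) * (w - x)) - (F z - F y) * (F w - F x) * ((y - x) * (w - z)) =
      (F y - F x) * (w - y) * (F w - F z) * (z - x) - (F z - F x) * (w - z) * (F w - F y) * (y - x) := by
    ring
  linarith

theorem cf_cross {p q : ℝ} (hp : 0 ≤ p) (hsgn : (∀ t ∈ Icc p q, 0 < dcf t) ∨ (∀ t ∈ Icc p q, dcf t < 0))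
    {x y z w : ℝ} (hpx : p ≤ x) (hxy : x < y) (hyz : y < z) (hzw : z < w) (hwq : w ≤ q) :
    |cf y - cf x| * |cf w - cf z| * ((z - y) * (w - x)) ≤
      |cf z - cf y| * |cf w - cf x| * ((y - x) * (w - z)) := by
  rcases hsgn with hsgn | hsgn
  · obtain ⟨h, h1, h2, h3⟩ := cross4_aux (F := cf) (F1 := dcf) (F2 := d2cf) (F3 := d3cf) (p := p) (q := q)
      (fun t _ => hasDerivAt_cf t) (fun t _ => hasDerivAt_dcf_d2 t) (fun t _ => hasDerivAt_d2cf t) hsgn
      (fun t ht => (schwarzian_neg t (hp.trans ht.1)).le) hpx hxy hyz hzw hwq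
    rw [abs_of_pos (by linarith), abs_of_pos (by linarith), abs_of_pos (by linarith),
      abs_of_pos (by linarith)]
    exact h
  · obtain ⟨h, h1, h2, h3⟩ := cross4_aux (F := fun t => -cf t) (F1 := fun t => -dcf t)
      (F2 := fun t => -d2cf t) (F3 := fun t => -d3cf t) (p := p) (q := q)
      (fun t _ => (hasDerivAt_cf t).neg) (fun t _ => (hasDerivAt_dcf_d2 t).neg)
      (fun t _ => (hasDerivAt_d2cf t).neg) (fun t ht => neg_pos.2 (hsgn t ht))
      (fun t ht => by
        have := (schwarzian_neg t (hp.trans ht.1)).le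
        have e : 2 * -dcf t * -d3cf t - 3 * (-d2cf t) ^ 2 = 2 * dcf t * d3cf t - 3 * d2cf t ^ 2 := by ring
        linarith) hpx hxy hyz hzw hwq
    rw [abs_of_neg (by linarith), abs_of_neg (by linarith), abs_of_neg (by linarith),
      abs_of_neg (by linarith)]
    have e1 : -(cf y - cf x) * -(cf w - cf z) * ((z - y) * (w - x)) =
        (-cf y - -cf x) * (-cf w - -cf z) * ((z - y) * (w - x)) := by ring
    have e2 : -(cf z - cf y) * -(cf w - cf x) * ((y - x) * (w - z)) =
        (-cf z - -cf y) * (-cf w - -cf x) * ((y - x) * (w - z)) := by ring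
    rw [e1, e2]
    exact h

/-- strict monotonicity of `cf` from the sign of the derivative -/
theorem cf_strict {p q : ℝ} (hsgn : (∀ t ∈ Icc p q, 0 < dcf t) ∨ (∀ t ∈ Icc p q, dcf t < 0)) :
    StrictMonoOn cf (Icc p q) ∨ StrictAntiOn cf (Icc p q) := by
  rcases hsgn with h | h
  · refine Or.inl (strictMonoOn_of_deriv_pos (convex_Icc p q) continuous_cf.continuousOn ?_)
    intro t ht
    rw [interior_Icc] at ht
    rw [deriv_cf]
    exact h t (Ioo_subset_Icc_self ht)
  · refine Or.inr (strictAntiOn_of_deriv_neg (convex_Icc p q) continuous_cf.continuousOn ?_)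
    intro t ht
    rw [interior_Icc] at ht
    rw [deriv_cf]
    exact h t (Ioo_subset_Icc_self ht)

end Pool.Agent.Lib.MP_a247fa_nt.W
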