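import Pool.Agent.Lib.MP_a247fa_nt.W.RangeSum

/-! FAR (40 min). The end child on the side where `g` extends over a whole window is relatively short.

`m_bounds`: `u l < m1 < m2 < v l`, `m1 ≤ l + 3/(2√l)`, `l + 1 - 3/(2√l) ≤ m2` (monotonicity of `h l`, `WBig.even/odd`, `lo l + 1 < hi l - 1`, `hi l ≥ lo l + 3`); `√l ≥ 10^6`.
`far_right`: four points `m1 < m2 < v l < pt (l+2)`, `CrC g (pt l) (pt (l+2))`:
`|g v - g m2| |g (pt (l+2)) - g m1| (m2 - m1)(pt (l+2) - v) ≤ |g m2 - g m1| |g (pt (l+2)) - g v| (v - m2)(pt (l+2) - m1)`; the factor `|g (pt (l+2)) - g v| ≤ |g (pt (l+2)) - g m1|` cancels (it is positive);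
`m2 - m1 ≥ 1/2`, `pt (l+2) - v ≥ 9/10`, `v - m2 ≤ pt (l+1) - m2 ≤ 1/100`, `pt (l+2) - m1 ≤ 21/10`: quotient `≤ (1/100)(2.1)/(0.45) ≤ 1/5`.
`far_left`: mirror, four points `pt (l-1) < u l < m1 < m2` (`pt (l-1) + 9/10 ≤ pt l < u l`, `m1 - u ≤ 1/100`). -/

set_option autoImplicit false

namespace Pool.Agent.Lib.MP_a247fa_nt.W

open Set

private lemma far_abs {g : ℝ → ℝ} {a b : ℝ} (hg : CrC g a b) {x z w : ℝ} (hx : a ≤ x) (hxz : x < z) (hzw : z < w)
    (hw : w ≤ b) : |g w - g z| ≤ |g w - g x| ∧ |g z - g x| ≤ |g w - g x| ∧ 0 < |g w - g x| := by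
  have mx : x ∈ Icc a b := ⟨hx, by linarith⟩
  have mz : z ∈ Icc a b := ⟨by linarith, by linarith⟩
  have mw : w ∈ Icc a b := ⟨by linarith, hw⟩
  rcases hg.mono with hm | hm
  · have h1 := hm mx mz hxz
    have h2 := hm mz mw hzw
    rw [abs_of_pos (by linarith : 0 < g w - g z), abs_of_pos (by linarith : 0 < g w - g x),
      abs_of_pos (by linarith : 0 < g z - g x)]
    refine ⟨by linarith, by linarith, by linarith⟩
  · have h1 := hm mx mz hxz
    have h2 := hm mz mw hzw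
    rw [abs_of_neg (by linarith : g w - g z < 0), abs_of_neg (by linarith : g w - g x < 0),
      abs_of_neg (by linarith : g z - g x < 0)]
    refine ⟨by linarith, by linarith, by linarith⟩

private lemma far_cancel {A B D E P Q : ℝ} (hA : 0 ≤ A) (hB : 0 ≤ B) (hD : 0 < D) (hE : E ≤ D)
    (h : A * D * P ≤ B * E * Q) (hP : 9 / 20 ≤ P) (hQ : Q ≤ 21 / 1000) (hQ0 : 0 ≤ Q) : A ≤ 1 / 5 * B := by
  have h1 : B * E * Q ≤ B * D * Q := by
    apply mul_le_mul_of_nonneg_right _ hQ0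
    exact mul_le_mul_of_nonneg_left hE hB
  have h2 : D * (A * P) ≤ D * (B * Q) := by nlinarith
  have h3 : A * P ≤ B * Q := le_of_mul_le_mul_left h2 hD
  have h4 : A * (9 / 20) ≤ A * P := mul_le_mul_of_nonneg_left hP hA
  have h5 : B * Q ≤ B * (21 / 1000) := mul_le_mul_of_nonneg_left hQ hB
  linarith

private lemma far_size {L : ℕ} (hL : 10 ^ 12 ≤ L) {l : ℕ} (hl : L ≤ l) : 3 / (2 * √(l : ℝ)) ≤ 1 / 500 := by
  have h1 : (10 : ℝ) ^ 12 ≤ (l : ℝ) := by exact_mod_cast hL.trans hl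
  have h2 : (1000 : ℝ) ≤ √(l : ℝ) := by
    apply Real.le_sqrt_of_sq_le
    nlinarith
  rw [div_le_div_iff₀ (by linarith) (by norm_num)]
  linarith

theorem m_bounds {u v b : ℕ → ℝ} {h : ℕ → ℝ → ℝ} (hW : WSys u v b h) {L : ℕ} (hB : WBig L u v h) {l : ℕ} (hl : L ≤ l) :
    u l < m1 h l ∧ m1 h l < m2 h l ∧ m2 h l < v l ∧ m1 h l ≤ l + 1 / 500 ∧ (l : ℝ) + 1 - 1 / 500 ≤ m2 h l := by
  have hL := hB.big
  have hs := far_size hL hl
  have hl1 : 1 ≤ l := by omega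
  have e1 : lo l < lo l + 1 := by omega
  have e2 : lo l + 1 < hi l - 1 := by unfold lo hi; omega
  have e3 : hi l - 1 < hi l := by unfold hi; omega
  have p1 := pt_strictMono e1
  have p2 := pt_strictMono e2
  have p3 := pt_strictMono e3
  have q0 : pt (lo l) ∈ Icc (pt (lo l)) (pt (hi l)) := ⟨le_rfl, by linarith⟩
  have q1 : pt (lo l + 1) ∈ Icc (pt (lo l)) (pt (hi l)) := ⟨by linarith, by linarith⟩
  have q2 : pt (hi l - 1) ∈ Icc (pt (lo l)) (pt (hi l)) := ⟨by linarith, by linarith⟩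
  have q3 : pt (hi l) ∈ Icc (pt (lo l)) (pt (hi l)) := ⟨by linarith, le_rfl⟩
  by_cases he : l % 2 = 0
  · obtain ⟨hm, h1, h2, -⟩ := hW.even l hl1 he
    obtain ⟨h3, h4⟩ := hB.even l hl he
    have f1 : m1 h l = h l (pt (lo l + 1)) := by unfold m1; rw [if_pos he]
    have f2 : m2 h l = h l (pt (hi l - 1)) := by unfold m2; rw [if_pos he]
    rw [f1, f2]
    have r1 := hm q0 q1 p1
    have r2 := hm q1 q2 p2
    have r3 := hm q2 q3 p3
    rw [h1] at r1
    rw [h2] at r3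
    exact ⟨r1, r2, r3, by linarith, by linarith⟩
  · have ho : l % 2 = 1 := by omega
    obtain ⟨hm, h1, h2⟩ := hW.odd l hl1 ho
    obtain ⟨h3, h4⟩ := hB.odd l hl ho
    have f1 : m1 h l = h l (pt (hi l - 1)) := by unfold m1; rw [if_neg he]
    have f2 : m2 h l = h l (pt (lo l + 1)) := by unfold m2; rw [if_neg he]
    rw [f1, f2]
    have r1 := hm q0 q1 p1
    have r2 := hm q1 q2 p2
    have r3 := hm q2 q3 p3
    rw [h1] at r1
    rw [h2] at r3
    exact ⟨r3, r2, r1, by linarith, by linarith⟩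

theorem far_right {u v b : ℕ → ℝ} {h : ℕ → ℝ → ℝ} (hW : WSys u v b h) {L : ℕ} (hB : WBig L u v h) {l : ℕ} (hl : L ≤ l)
    {g : ℝ → ℝ} (hg : CrC g (pt l) (pt (l + 2))) : |g (v l) - g (m2 h l)| ≤ 1 / 5 * |g (m2 h l) - g (m1 h l)| := by
  obtain ⟨b1, b2, b3, b4, b5⟩ := m_bounds hW hB hl
  have hL := hB.big
  have hl1 : 1 ≤ l := by omega
  have g1 := (hW.geo l hl1).u_gt
  have g2 := (hW.geo l hl1).v_lt
  obtain ⟨s1, s2⟩ := pt_step hl1
  obtain ⟨s3, s4⟩ := pt_step (show 1 ≤ l + 1 by omega)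
  have e : l + 1 + 1 = l + 2 := rfl
  rw [e] at s3 s4
  have hpt : pt (l + 1) ≤ l + 1 + 1 / 1000 := by
    have t1 := (tau_bounds (l + 1)).2
    have t2 : (10 : ℝ) ^ 12 ≤ (l : ℝ) := by exact_mod_cast hL.trans hl
    have t3 : tau (l + 1) / (2 * ((l + 1 : ℕ) : ℝ) + 1) ≤ 1 / 1000 := by
      push_cast
      rw [div_le_div_iff₀ (by linarith) (by norm_num)]
      linarith
    unfold pt
    push_cast at t3 ⊢
    linarith
  have hptl := pt_gt l
  have key := hg.cr (m1 h l) (m2 h l) (v l) (pt (l + 2)) (by linarith) b2 b3 (by linarith) le_rfl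
  obtain ⟨a1, -, a3⟩ := far_abs hg (x := m1 h l) (z := v l) (w := pt (l + 2)) (by linarith) (by linarith)
    (by linarith) le_rfl
  refine far_cancel (abs_nonneg _) (abs_nonneg _) a3 a1 key ?_ ?_ ?_
  · have h1 : (1 / 2 : ℝ) ≤ m2 h l - m1 h l := by linarith
    have h2 : (9 / 10 : ℝ) ≤ pt (l + 2) - v l := by linarith
    nlinarith
  · have h1 : v l - m2 h l ≤ 1 / 100 := by linarith
    have h1' : 0 ≤ v l - m2 h l := by linarith
    have h2 : pt (l + 2) - m1 h l ≤ 21 / 10 := by linarith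
    have h2' : 0 ≤ pt (l + 2) - m1 h l := by linarith
    calc (v l - m2 h l) * (pt (l + 2) - m1 h l) ≤ 1 / 100 * (21 / 10) := mul_le_mul h1 h2 h2' (by norm_num)
      _ ≤ _ := by norm_num
  · exact mul_nonneg (by linarith) (by linarith)

theorem far_left {u v b : ℕ → ℝ} {h : ℕ → ℝ → ℝ} (hW : WSys u v b h) {L : ℕ} (hB : WBig L u v h) {l : ℕ} (hl : L ≤ l)
    {g : ℝ → ℝ} (hg : CrC g (pt (l - 1)) (pt (l + 1))) : |g (m1 h l) - g (u l)| ≤ 1 / 5 * |g (m2 h l) - g (m1 h l)| := by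
  obtain ⟨b1, b2, b3, b4, b5⟩ := m_bounds hW hB hl
  have hL := hB.big
  have hl1 : 1 ≤ l := by omega
  have g1 := (hW.geo l hl1).u_gt
  have g2 := (hW.geo l hl1).v_lt
  obtain ⟨s1, s2⟩ := pt_step (show 1 ≤ l - 1 by omega)
  have e : l - 1 + 1 = l := by omega
  rw [e] at s1 s2
  obtain ⟨s3, s4⟩ := pt_step hl1
  have hptl := pt_gt l
  have key := hg.cr (pt (l - 1)) (u l) (m1 h l) (m2 h l) le_rfl (by linarith) b1 b2 (by linarith)
  obtain ⟨-, a1, a3⟩ := far_abs hg (x := pt (l - 1)) (z := u l) (w := m2 h l) le_rfl (by linarith)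
    (by linarith) (by linarith)
  have key' : |g (m1 h l) - g (u l)| * |g (m2 h l) - g (pt (l - 1))| * ((u l - pt (l - 1)) * (m2 h l - m1 h l)) ≤
      |g (m2 h l) - g (m1 h l)| * |g (u l) - g (pt (l - 1))| * ((m1 h l - u l) * (m2 h l - pt (l - 1))) := by
    refine key.trans (le_of_eq ?_)
    ring
  refine far_cancel (abs_nonneg _) (abs_nonneg _) a3 a1 key' ?_ ?_ ?_
  · have h1 : (1 / 2 : ℝ) ≤ m2 h l - m1 h l := by linarith
    have h2 : (9 / 10 : ℝ) ≤ u l - pt (l - 1) := by linarith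
    nlinarith
  · have h1 : m1 h l - u l ≤ 1 / 100 := by linarith
    have h1' : 0 ≤ m1 h l - u l := by linarith
    have h2 : m2 h l - pt (l - 1) ≤ 21 / 10 := by linarith
    have h2' : 0 ≤ m2 h l - pt (l - 1) := by linarith
    calc (m1 h l - u l) * (m2 h l - pt (l - 1)) ≤ 1 / 100 * (21 / 10) := mul_le_mul h1 h2 h2' (by norm_num)
      _ ≤ _ := by norm_num
  · exact mul_nonneg (by linarith) (by linarith)

end Pool.Agent.Lib.MP_a247fa_nt.W
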