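import Pool.Agent.Lib.MP_a247fa_nt.W.Near

/-! GEOEVEN (40 min). The geometry of the even windows.

`i ≥ 2` even, `o = i+1` odd `≥ 3`. `dcf > 0` on `[pt i, pt (i+1)] ⊆ [i, i+1/2] ∪ [i+1/2, i+1] ∪ [i+1, pt (i+1)]`
(`sign_even_right`, `sign_odd_left` for `o`, `near_dcf_odd` for `o`), so `cf` is strictly increasing there.
`cf (pt i) < pt (i/2) = pt (lo i)` (`near_pt_even`), `cf (pt (i+1)) > pt (T (i+1)) = pt (hi i)` (`near_pt_odd`; `T (i+1) = 3(i/2)+2 = hi i`).
Intermediate value theorem: `u < v` in `(pt i, pt (i+1))` with `cf u = pt (lo i)`, `cf v = pt (hi i)`. `i+1 ≤ v` since `cf (i+1) = T (i+1) < pt (T (i+1))`.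
`dich`: `y ∈ (pt i, u)` bad: `⌊y⌋₊ = i` is even, so not `Fld y`, `Bad (cf y)` (`bad_step`), but `i/2 ≤ cf (pt i) ≤ cf y ≤ pt (i/2)`: `cf y ∈ trapI (i/2)`, contradiction to `not_bad_trap`;
`y ∈ (v, i+1)` is impossible as `i + 1 ≤ v`. `fold`: `b = i+1`. -/

set_option autoImplicit false

namespace Pool.Agent.Lib.MP_a247fa_nt.W

open Set

theorem geo_even {i : ℕ} (h : i % 2 = 0) (hi2 : 2 ≤ i) : ∃ u v : ℝ, GeoAt i u v ((i : ℝ) + 1) := by
  have ho : (i + 1) % 2 = 1 := by omega
  have ho3 : 3 ≤ i + 1 := by omega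
  have hlo : lo i = i / 2 := by unfold lo; omega
  have hhi : hi i = T (i + 1) := by
    have e : T (i + 1) = (3 * (i + 1) + 1) / 2 := by
      unfold T; rw [if_neg (by omega)]
    rw [e]; unfold hi; omega
  have hlt : pt i < pt (i + 1) := pt_strictMono (Nat.lt_succ_self i)
  have hpos : ∀ y ∈ Icc (pt i) (pt (i + 1)), 0 < dcf y := by
    intro y hy
    have h1 : (i : ℝ) ≤ y := (pt_gt i).le.trans hy.1
    rcases le_total y ((i : ℝ) + 1 / 2) with h2 | h2
    · have := sign_even_right h h1 h2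
      linarith
    · rcases le_total y ((i : ℝ) + 1) with h3 | h3
      · have := sign_odd_left ho (y := y) (by push_cast; linarith) (by push_cast; linarith)
        linarith
      · exact near_dcf_odd ho ho3 (by push_cast; exact h3) hy.2
  have hmono : StrictMonoOn cf (Icc (pt i) (pt (i + 1))) := by
    apply strictMonoOn_of_deriv_pos (convex_Icc _ _) continuous_cf.continuousOn
    intro y hy
    rw [interior_Icc] at hy
    rw [deriv_cf]
    exact hpos y ⟨hy.1.le, hy.2.le⟩
  have hL := near_pt_even h hi2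
  have hR := near_pt_odd ho ho3
  have hlh : pt (i / 2) < pt (T (i + 1)) := by
    apply pt_strictMono
    rw [← hhi]; unfold hi; omega
  have hsub := intermediate_value_Icc hlt.le (continuous_cf.continuousOn (s := Icc (pt i) (pt (i + 1))))
  obtain ⟨u, hu, hu'⟩ := hsub ⟨hL.2.le, (hlh.trans hR).le⟩
  obtain ⟨v, hv, hv'⟩ := hsub ⟨(hL.2.trans hlh).le, hR.le⟩
  have hpi : pt i ∈ Icc (pt i) (pt (i + 1)) := ⟨le_refl _, hlt.le⟩
  have hpi1 : pt (i + 1) ∈ Icc (pt i) (pt (i + 1)) := ⟨hlt.le, le_refl _⟩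
  have huv : u < v := (hmono.lt_iff_lt hu hv).1 (by rw [hu', hv']; exact hlh)
  have hu1 : pt i < u := (hmono.lt_iff_lt hpi hu).1 (by rw [hu']; exact hL.2)
  have hv1 : v < pt (i + 1) := (hmono.lt_iff_lt hv hpi1).1 (by rw [hv']; exact hR)
  have hmid : (i : ℝ) + 1 ∈ Icc (pt i) (pt (i + 1)) := by
    constructor
    · have := pt_lt i (by omega)
      linarith
    · exact lt_pt_succ.le
  have hiv : (i : ℝ) + 1 ≤ v := by
    by_contra hc
    push Not at hc
    have h1 := (hmono.lt_iff_lt hv hmid).2 hc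
    have h2 : cf ((i : ℝ) + 1) = T (i + 1) := by
      have := cf_natCast (i + 1)
      push_cast at this
      exact this
    rw [h2, hv'] at h1
    have h3 := pt_gt (T (i + 1))
    linarith
  refine ⟨u, v, ?_⟩
  refine { u_gt := hu1, u_lt := huv, v_lt := hv1, even := ?_, odd := ?_, dich := ?_, fold := Or.inl rfl }
  · intro _
    refine ⟨fun y hy => hpos y ⟨hu1.le.trans hy.1, hy.2.trans hv1.le⟩, ?_, ?_, hiv⟩
    · rw [hlo]; exact hu'
    · rw [hhi]; exact hv'
  · intro h1
    omega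
  · intro y hy hb
    left
    by_contra hc
    have hyv : y ≤ v := hy.2.le.trans hiv
    have hyu : y < u := by
      by_contra h2
      push Not at h2
      exact hc ⟨h2, hyv⟩
    have hfl := qw_floor hy
    have hnf : ¬ Fld y := by
      intro h3
      have := h3.1
      rw [hfl] at this
      omega
    have hb2 := (bad_step hb hnf).2
    have hyI : y ∈ Icc (pt i) (pt (i + 1)) := ⟨hy.1.le, hyu.le.trans hu.2⟩
    have h4 : cf (pt i) ≤ cf y := hmono.monotoneOn hpi hyI hy.1.le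
    have h5 : cf y ≤ cf u := hmono.monotoneOn hyI hu hyu.le
    have h6 := pt_mem_trap (i / 2)
    have h7 : ((i / 2 : ℕ) : ℝ) = (i : ℝ) / 2 := by
      obtain ⟨k, rfl⟩ : ∃ k, i = 2 * k := ⟨i / 2, by omega⟩
      have : 2 * k / 2 = k := by omega
      rw [this]; push_cast; ring
    apply not_bad_trap (m := i / 2) (by omega) (y := cf y) _ hb2
    refine ⟨?_, ?_⟩
    · rw [h7]; linarith [hL.1]
    · have := h6.2
      rw [hu'] at h5
      linarith

end Pool.Agent.Lib.MP_a247fa_nt.W
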