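import Pool.Agent.Lib.MP_a247fa_nt.W.Near

/-! GEOKAP (40 min). Sizes on the left of an even integer `e ≥ 4` : the fold is short, the trap of the first kind is long.

`cf (e - d) = e/2 - d/2 + t (2e+1-2d)/4` (`cf_even` at `-d`), `t = 1 - cos (π d)`.
`kap_fold`: `d = 0.412/(2e+1) ≤ 0.046`; `t ≥ π²d²/2 - π⁴d⁴/24 = (π²d²/2)(1 - π²d²/12)` (`le_one_sub_cos`), so
`cf (e-d) - e/2 ≥ (d/2)((π²/4) d (2e+1-2d)(1-π²d²/12) - 1)` and `(π²/4) d (2e+1-2d) = (π²/4) 0.412 (1 - 2·0.412/(2e+1)²) ≥ 1.0165·(1-0.0103)`,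
`1 - π²d²/12 ≥ 1 - 0.0018`: product `> 1.004`.
`kap_flank`: `d = 1.158/(2e+1)`; `t ≤ π²d²/2`, `cf (e-d) - e/2 ≤ -d/2 + π²d²(2e+1)/8 = (1/(2e+1))(-0.579 + π²·1.340964/8) ≤ 1.0755/(2e+1)
< tau (e/2)/(e+1) = pt (e/2) - e/2`: `e = 4`: `(2e+1)/(e+1) = 9/5`, `tau 2 = 33/50`: `1.188`; `e ≥ 6`: `(2e+1)/(e+1) ≥ 13/7`, `tau ≥ 29/50`: `≥ 1.077`.
`kap_alg`: with `C = 0.66/N, B ≤ 0.412/N, X ≥ 1.158/N` (`N = 2e+1 > 0`): `(153/100)(X-B) C - B (X+C) ≥ 0`: increasing in `X` (`1.53·0.66 ≥ 0.412`),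
decreasing in `B`: `1.158 (1.0098-0.412) - 0.412 (1.0098+0.66) = 0.69225 - 0.68796 > 0`. -/

set_option autoImplicit false

namespace Pool.Agent.Lib.MP_a247fa_nt.W

open Set

theorem kap_fold {e : ℕ} (h : e % 2 = 0) (he : 4 ≤ e) : (e : ℝ) / 2 ≤ cf (e - 103 / 250 / (2 * e + 1)) := by
  have he4 : (4 : ℝ) ≤ e := by exact_mod_cast he
  set N : ℝ := 2 * e + 1 with hN
  have hN9 : 9 ≤ N := by rw [hN]; linarith
  have hN0 : 0 < N := by linarith
  set d : ℝ := 103 / 250 / N with hd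
  have hdN : d * N = 103 / 250 := by rw [hd]; field_simp
  have hd0 : 0 < d := by rw [hd]; positivity
  have hd46 : d ≤ 23 / 500 := by nlinarith
  have hval := cf_even e h (-d)
  have hc2 := le_one_sub_cos (-d)
  set c : ℝ := 1 - Real.cos (Real.pi * (-d)) with hc
  set q : ℝ := Real.pi ^ 2 with hq
  have hq1 : q < 9.87 := pi_sq_lt
  have hq2 : 9.869 < q := pi_sq_gt
  have e4 : Real.pi ^ 4 = q ^ 2 := by rw [hq]; ring
  rw [e4] at hc2
  have hc3 : q * d ^ 2 / 2 - q ^ 2 * d ^ 4 / 24 ≤ c := by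
    have e1 : (-d) ^ 2 = d ^ 2 := by ring
    have e2 : (-d) ^ 4 = d ^ 4 := by ring
    rw [e1, e2] at hc2
    exact hc2
  have hd2 : d ^ 2 ≤ 0.0022 := by nlinarith
  have hd20 : 0 ≤ d ^ 2 := sq_nonneg d
  -- c ≥ 4.925 d²
  have hc4 : 4.925 * d ^ 2 ≤ c := by
    have h1 : q ^ 2 * d ^ 4 ≤ 97.4169 * (0.0022 * d ^ 2) := by
      have h2 : q ^ 2 ≤ 97.4169 := by nlinarith
      have h3 : d ^ 4 ≤ 0.0022 * d ^ 2 := by
        have : d ^ 4 = d ^ 2 * d ^ 2 := by ring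
        rw [this]; nlinarith
      exact mul_le_mul h2 h3 (by positivity) (by norm_num)
    nlinarith
  have hfac : 0 < N - 2 * d := by linarith
  have hval2 : cf (e - d) = e / 2 + (-d / 2 + c * (N - 2 * d) / 4) := by
    have e1 : (e : ℝ) + -d = e - d := by ring
    rw [e1] at hval
    rw [hval, hc, hN]; ring
  rw [hval2]
  have h5 : 4.925 * d ^ 2 * (N - 2 * d) ≤ c * (N - 2 * d) := mul_le_mul_of_nonneg_right hc4 hfac.le
  have h6 : d ^ 2 * (N - 2 * d) = d * (103 / 250 - 2 * d ^ 2) := by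
    have : d ^ 2 * (N - 2 * d) = d * (d * N - 2 * d ^ 2) := by ring
    rw [this, hdN]
  have h7 : 4.925 * d ^ 2 * (N - 2 * d) = 4.925 * (d * (103 / 250 - 2 * d ^ 2)) := by
    rw [mul_assoc, h6]
  have h8 : 2 * d ≤ 4.925 * (d * (103 / 250 - 2 * d ^ 2)) := by
    have : 2 ≤ 4.925 * (103 / 250 - 2 * d ^ 2) := by linarith
    nlinarith
  linarith

theorem kap_flank {e : ℕ} (h : e % 2 = 0) (he : 4 ≤ e) : cf (e - 579 / 500 / (2 * e + 1)) < pt (e / 2) := by
  have he4 : (4 : ℝ) ≤ e := by exact_mod_cast he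
  set N : ℝ := 2 * e + 1 with hN
  have hN9 : 9 ≤ N := by rw [hN]; linarith
  have hN0 : 0 < N := by linarith
  set d : ℝ := 579 / 500 / N with hd
  have hdN : d * N = 579 / 500 := by rw [hd]; field_simp
  have hd0 : 0 < d := by rw [hd]; positivity
  have hval := cf_even e h (-d)
  have hc1 := one_sub_cos_le (-d)
  set c : ℝ := 1 - Real.cos (Real.pi * (-d)) with hc
  set q : ℝ := Real.pi ^ 2 with hq
  have hq1 : q < 9.87 := pi_sq_lt
  have hq0 : 0 < q := by positivity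
  have hc3 : c ≤ q * d ^ 2 / 2 := by
    have e1 : (-d) ^ 2 = d ^ 2 := by ring
    rw [e1] at hc1
    exact hc1
  have hc4 : c ≤ 4.935 * d ^ 2 := by nlinarith [sq_nonneg d]
  have hc0 : 0 ≤ c := one_sub_cos_nonneg _
  have hval2 : cf (e - d) = e / 2 + (-d / 2 + c * (N - 2 * d) / 4) := by
    have e1 : (e : ℝ) + -d = e - d := by ring
    rw [e1] at hval
    rw [hval, hc, hN]; ring
  have h1 : c * (N - 2 * d) ≤ c * N := by nlinarith
  have h2 : c * N ≤ 4.935 * d ^ 2 * N := mul_le_mul_of_nonneg_right hc4 hN0.le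
  have h3 : d ^ 2 * N = d * (579 / 500) := by
    have : d ^ 2 * N = d * (d * N) := by ring
    rw [this, hdN]
  have h4 : cf (e - d) ≤ e / 2 + 0.93 * d := by
    rw [hval2]
    have : 4.935 * d ^ 2 * N = 4.935 * (d * (579 / 500)) := by rw [mul_assoc, h3]
    nlinarith
  -- pt (e / 2) = e / 2 + tau (e / 2) / (e + 1)
  have h7 : ((e / 2 : ℕ) : ℝ) = (e : ℝ) / 2 := by
    obtain ⟨k, hk⟩ : ∃ k, e = 2 * k := ⟨e / 2, by omega⟩
    have h8 : e / 2 = k := by omega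
    rw [h8, hk]; push_cast; ring
  have hpt : pt (e / 2) = e / 2 + tau (e / 2) / (e + 1) := by
    unfold pt
    rw [h7]
    have : 2 * ((e : ℝ) / 2) + 1 = e + 1 := by ring
    rw [this]
  rw [hpt]
  have he1 : (0 : ℝ) < e + 1 := by linarith
  have key : 0.93 * d < tau (e / 2) / (e + 1) := by
    rw [lt_div_iff₀ he1]
    have hdN' : d * (e + 1) = 579 / 500 - d * e := by
      have : d * N = d * (e + 1) + d * e := by rw [hN]; ring
      linarith
    have hde : d * e = 579 / 1000 - d / 2 := by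
      have : d * N = 2 * (d * e) + d := by rw [hN]; ring
      linarith
    rcases Nat.lt_or_ge e 6 with h6 | h6
    · have he' : e = 4 := by omega
      have ht : tau (e / 2) = 33 / 50 := by
        rw [he']; norm_num [tau]
      rw [ht]
      have hd9 : d ≤ 0.129 := by nlinarith
      nlinarith
    · have he6 : (6 : ℝ) ≤ e := by exact_mod_cast h6
      have hN13 : 13 ≤ N := by rw [hN]; linarith
      have ht := (tau_bounds (e / 2)).1
      have hd9 : d ≤ 0.0891 := by nlinarith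
      nlinarith
  linarith

theorem kap_alg {N B X C : ℝ} (hN : 0 < N) (hB0 : 0 ≤ B) (hB : B ≤ 103 / 250 / N) (hX : 579 / 500 / N ≤ X)
    (hC : C = 33 / 50 / N) : B * (X + C) ≤ 153 / 100 * ((X - B) * C) := by
  set w : ℝ := 1 / N with hw
  have hw0 : 0 < w := by positivity
  have e1 : 103 / 250 / N = 103 / 250 * w := by rw [hw]; ring
  have e2 : 579 / 500 / N = 579 / 500 * w := by rw [hw]; ring
  have e3 : 33 / 50 / N = 33 / 50 * w := by rw [hw]; ring
  rw [e1] at hB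
  rw [e2] at hX
  rw [e3] at hC
  subst hC
  have hX0 : 0 ≤ X := by nlinarith
  -- B * (X + C) + 1.53 B C ≤ 1.53 X C
  have h1 : B * (X + 33 / 50 * w) + 153 / 100 * (B * (33 / 50 * w)) ≤
      103 / 250 * w * (X + 33 / 50 * w) + 153 / 100 * (103 / 250 * w * (33 / 50 * w)) := by
    have h2 : B * (X + 33 / 50 * w) ≤ 103 / 250 * w * (X + 33 / 50 * w) :=
      mul_le_mul_of_nonneg_right hB (by positivity)
    have h3 : B * (33 / 50 * w) ≤ 103 / 250 * w * (33 / 50 * w) :=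
      mul_le_mul_of_nonneg_right hB (by positivity)
    linarith
  have h4 : 579 / 500 * w * w ≤ X * w := mul_le_mul_of_nonneg_right hX hw0.le
  nlinarith [mul_pos hw0 hw0]

end Pool.Agent.Lib.MP_a247fa_nt.W
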