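import Pool.Agent.Lib.MP_a247fa_nt.W.GeoKap

/-! GEOODD (50 min). The geometry of the odd windows `i ≥ 3`.

`e = i+1 ≥ 4` even, `T i = (3i+1)/2 = hi i`, `lo i = e/2`. `exists_crit_pair`: `c < c'`. `pt i < c` because `dcf > 0` on `[i, pt i]`
(`near_dcf_odd`) and `dcf c = 0`. `f` increases on `[pt i, c]`, decreases on `[c, c']`, increases on `[c', e]`.
`cf c > cf (pt i) > pt (hi i)` (`near_pt_odd`), `cf c' < cf e = e/2` (`cf_natCast`). Intermediate value theorem on `[c, c']`:
`c < u < v < b < c'` with `cf u = pt (hi i)`, `cf v = pt (lo i)`, `cf b = e/2` (values decrease: `pt (hi i) > pt (lo i) > e/2`).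
`dcf < 0` on `[u, v]`. `v < e`. `dich`: `y ∈ Qw i` bad (`⌊y⌋₊ = i`) and `y ∉ [u,v]`. If `y < u`: `pt i < y`, then `pt (hi i) < cf y ≤ cf c ∈ trapI (hi i)`
(`c ∈ trapI i` by `crit_odd_trap`, `mapsTo_trap`), so `Trp y` and not `Fld y`: contradiction (`bad_step`). If `v < y ≤ b`: `e/2 ≤ cf y ≤ pt (e/2)`: not `Fld y`, so `Bad (cf y)`, but `cf y ∈ trapI (e/2)`:
contradiction (`not_bad_trap`). Otherwise `b < y`.
`fold`, third part: `B = e - b`, `X = e - v`, `C = pt e - e = 0.66/(2e+1)`. `B ≤ 0.412/(2e+1)`: otherwise `y = e - 0.412/(2e+1) ∈ (b, e)` and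
there `cf y < e/2` (decreasing on `(b, c']`, increasing on `[c', e)`), against `kap_fold`. `X ≥ 1.158/(2e+1)`: otherwise `y = e - 1.158/(2e+1) ∈ [e-1/2, v)`,
`y ≥ i + 1/2 > c`, so `cf y > cf v = pt (e/2)`, against `kap_flank`. `kap_alg`, with `b - v = X - B`, `pt (i+1) - v = X + C`. -/

set_option autoImplicit false

namespace Pool.Agent.Lib.MP_a247fa_nt.W

open Set

theorem geo_odd {i : ℕ} (h : i % 2 = 1) (hi3 : 3 ≤ i) : ∃ u v b : ℝ, GeoAt i u v b := by
  have hi3r : (3 : ℝ) ≤ i := by exact_mod_cast hi3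
  have he : (i + 1) % 2 = 0 := by omega
  have he4 : 4 ≤ i + 1 := by omega
  have hlo : lo i = (i + 1) / 2 := rfl
  have hhi : hi i = T i := by
    have e : T i = (3 * i + 1) / 2 := by
      unfold T; rw [if_neg (by omega)]
    rw [e]; unfold hi; omega
  obtain ⟨c, c', hc1, hc2, hc3, hc4, hdl, hdm, hdr, hdc, hdc'⟩ := exists_crit_pair h
  have hmonoL : StrictMonoOn cf (Icc (i : ℝ) c) := by
    apply strictMonoOn_of_deriv_pos (convex_Icc _ _) continuous_cf.continuousOn
    intro y hy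
    rw [interior_Icc] at hy
    rw [deriv_cf]
    exact hdl y hy.1.le hy.2
  have hanti : StrictAntiOn cf (Icc c c') := by
    apply strictAntiOn_of_deriv_neg (convex_Icc _ _) continuous_cf.continuousOn
    intro y hy
    rw [interior_Icc] at hy
    rw [deriv_cf]
    exact hdm y hy.1 hy.2
  have hmonoR : StrictMonoOn cf (Icc c' ((i : ℝ) + 1)) := by
    apply strictMonoOn_of_deriv_pos (convex_Icc _ _) continuous_cf.continuousOn
    intro y hy
    rw [interior_Icc] at hy
    rw [deriv_cf]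
    exact hdr y hy.1 (by linarith [hy.2])
  have hptc : pt i < c := by
    by_contra h1
    push Not at h1
    have := near_dcf_odd h hi3 hc1.le h1
    rw [hdc] at this
    exact lt_irrefl _ this
  have hcc' : c < c' := by linarith
  have hR := near_pt_odd h hi3
  have hcmem : c ∈ Icc c c' := ⟨le_refl _, hcc'.le⟩
  have hcmem' : c' ∈ Icc c c' := ⟨hcc'.le, le_refl _⟩
  have hcfc : pt (T i) < cf c := by
    have : cf (pt i) < cf c := hmonoL ⟨(pt_gt i).le, hptc.le⟩ ⟨hc1.le, le_refl _⟩ hptc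
    linarith
  have hcfe : cf ((i : ℝ) + 1) = ((i : ℝ) + 1) / 2 := by
    have h1 := cf_natCast (i + 1)
    have h2 := T_even he
    push_cast at h1 h2
    rw [h1, h2]
  have hcfc' : cf c' < ((i : ℝ) + 1) / 2 := by
    rw [← hcfe]
    exact hmonoR ⟨le_refl _, hc4.le⟩ ⟨hc4.le, le_refl _⟩ hc4
  have hcast : (((i + 1) / 2 : ℕ) : ℝ) = ((i : ℝ) + 1) / 2 := by
    obtain ⟨k, hk⟩ : ∃ k, i + 1 = 2 * k := ⟨(i + 1) / 2, by omega⟩
    have h8 : (i + 1) / 2 = k := by omega
    have h9 : (i : ℝ) + 1 = 2 * k := by exact_mod_cast hk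
    rw [h8, h9]; ring
  have hb1 : ((i : ℝ) + 1) / 2 < pt ((i + 1) / 2) := by
    have := pt_gt ((i + 1) / 2)
    rw [hcast] at this
    exact this
  have hlh : pt ((i + 1) / 2) < pt (T i) := by
    apply pt_strictMono
    rw [← hhi]; unfold hi; omega
  have hsub := intermediate_value_Icc' hcc'.le (continuous_cf.continuousOn (s := Icc c c'))
  obtain ⟨u, hu, hu'⟩ := hsub (show pt (T i) ∈ Icc (cf c') (cf c) from ⟨by linarith, hcfc.le⟩)
  obtain ⟨v, hv, hv'⟩ := hsub (show pt ((i + 1) / 2) ∈ Icc (cf c') (cf c) from ⟨by linarith, by linarith⟩)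
  obtain ⟨b, hb, hb'⟩ := hsub (show ((i : ℝ) + 1) / 2 ∈ Icc (cf c') (cf c) from ⟨hcfc'.le, by linarith⟩)
  have huv : u < v := (hanti.lt_iff_gt hv hu).1 (by rw [hu', hv']; exact hlh)
  have hvb : v < b := (hanti.lt_iff_gt hb hv).1 (by rw [hv', hb']; exact hb1)
  have hcu : c < u := (hanti.lt_iff_gt hu hcmem).1 (by rw [hu']; exact hcfc)
  have hbc' : b < c' := (hanti.lt_iff_gt hcmem' hb).1 (by rw [hb']; exact hcfc')
  have hpt1 : (i : ℝ) + 1 < pt (i + 1) := lt_pt_succ
  have hNe : ((i + 1 : ℕ) : ℝ) = (i : ℝ) + 1 := by push_cast; ring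
  have hNpos : (0 : ℝ) < 2 * ((i : ℝ) + 1) + 1 := by linarith
  -- the fold
  have hB : (i : ℝ) + 1 - b ≤ 103 / 250 / (2 * ((i : ℝ) + 1) + 1) := by
    by_contra hcon
    push Not at hcon
    have hk := kap_fold he he4
    rw [hNe] at hk
    set y : ℝ := (i : ℝ) + 1 - 103 / 250 / (2 * ((i : ℝ) + 1) + 1) with hy
    have hy1 : b < y := by linarith
    have hy2 : y < (i : ℝ) + 1 := by
      have : 0 < 103 / 250 / (2 * ((i : ℝ) + 1) + 1) := by positivity
      linarith
    rcases le_total y c' with h5 | h5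
    · have h6 : cf y < cf b := hanti hb ⟨by linarith, h5⟩ hy1
      rw [hb'] at h6
      linarith
    · have h6 : cf y < cf ((i : ℝ) + 1) := hmonoR ⟨h5, hy2.le⟩ ⟨hc4.le, le_refl _⟩ hy2
      rw [hcfe] at h6
      linarith
  have hX : 579 / 500 / (2 * ((i : ℝ) + 1) + 1) ≤ (i : ℝ) + 1 - v := by
    by_contra hcon
    push Not at hcon
    have hk := kap_flank he he4
    rw [hNe] at hk
    have hsm : 579 / 500 / (2 * ((i : ℝ) + 1) + 1) ≤ 1 / 2 := by
      rw [div_le_iff₀ hNpos]; linarith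
    set y : ℝ := (i : ℝ) + 1 - 579 / 500 / (2 * ((i : ℝ) + 1) + 1) with hy
    have hy1 : y < v := by linarith
    have hy2 : c < y := by linarith
    have h6 : cf v < cf y := hanti ⟨hy2.le, by linarith [hv.2]⟩ hv hy1
    rw [hv'] at h6
    linarith
  have hC : pt (i + 1) - ((i : ℝ) + 1) = 33 / 50 / (2 * ((i : ℝ) + 1) + 1) := by
    unfold pt tau
    rw [if_neg (by omega), hNe]
    ring
  refine ⟨u, v, b, ?_⟩
  refine { u_gt := by linarith, u_lt := huv, v_lt := by linarith, even := ?_, odd := ?_, dich := ?_, fold := ?_ }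
  · intro h1
    omega
  · intro _
    refine ⟨fun y hy => hdm y (by linarith [hy.1]) (by linarith [hy.2]), ?_, ?_, by linarith⟩
    · rw [hhi]; exact hu'
    · rw [hlo]; exact hv'
  · intro y hy hbad
    by_contra hcon
    push Not at hcon
    obtain ⟨hn1, hn2⟩ := hcon
    have hfl := qw_floor hy
    have hcast2 : ((⌊y⌋₊ : ℝ) + 1) / 2 = ((i : ℝ) + 1) / 2 := by rw [hfl]
    have hcase : y < u ∨ v < y := by
      by_contra h1
      push Not at h1
      exact hn1 ⟨h1.1, h1.2⟩
    rcases hcase with h1 | h1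
    · -- left of u
      have hTi : ((T i : ℕ) : ℝ) < cf y := by
        rcases le_total y c with h2 | h2
        · have h3 : cf (pt i) < cf y := hmonoL ⟨(pt_gt i).le, hptc.le⟩ ⟨(pt_gt i).le.trans hy.1.le, h2⟩ hy.1
          have := pt_gt (T i)
          linarith
        · have h3 : cf u < cf y := hanti ⟨h2, by linarith [hu.2]⟩ hu h1
          rw [hu'] at h3
          have := pt_gt (T i)
          linarith
      have htrp : Trp y := by
        refine ⟨by rw [hfl]; exact h, ?_⟩
        rw [hfl]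
        exact hTi.le
      have hnf : ¬ Fld y := by
        intro h3
        have h4 := h3.2
        rw [hcast2] at h4
        have h5 := T_odd h
        rw [h5] at hTi
        linarith
      exact (bad_step hbad hnf).1 htrp
    · -- between v and b
      have hymem : y ∈ Icc c c' := ⟨by linarith, by linarith⟩
      have h2 : cf b ≤ cf y := hanti.antitoneOn hymem hb hn2
      have h3 : cf y ≤ cf v := hanti.antitoneOn hv hymem h1.le
      rw [hb'] at h2
      rw [hv'] at h3
      have hnf : ¬ Fld y := by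
        intro h4
        have h5 := h4.2
        rw [hcast2] at h5
        linarith
      have hb2 := (bad_step hbad hnf).2
      have h6 := pt_mem_trap ((i + 1) / 2)
      refine not_bad_trap (m := (i + 1) / 2) (by omega) (y := cf y) ⟨?_, ?_⟩ hb2
      · rw [hcast]; exact h2
      · exact h3.trans h6.2
  · right
    refine ⟨hvb, by linarith, ?_⟩
    have hk := kap_alg (N := 2 * ((i : ℝ) + 1) + 1) (B := (i : ℝ) + 1 - b) (X := (i : ℝ) + 1 - v)
      (C := pt (i + 1) - ((i : ℝ) + 1)) hNpos (by linarith) hB hX hC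
    have e1 : (i : ℝ) + 1 - v + (pt (i + 1) - ((i : ℝ) + 1)) = pt (i + 1) - v := by ring
    have e2 : (i : ℝ) + 1 - v - ((i : ℝ) + 1 - b) = b - v := by ring
    rw [e1, e2] at hk
    exact hk

end Pool.Agent.Lib.MP_a247fa_nt.W
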