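import Pool.Agent.Lib.MP_a247fa_nt.W.Near
import Pool.Agent.Lib.MP_a247fa_nt.Numerics

/-! GEOONE (40 min). The geometry of the window `i = 1`.

`pt 1 = 1 + 29/150 = 1.19333..`, `pt 2 = 2 + 33/250 = 2.132`, `lo 1 = 1`, `hi 1 = 2`. `exists_crit_pair` for `i = 1`: `c < c'`, `dcf < 0` on `(c, c')`,
`> 0` on `(c', 2]`. `c ≤ 1.181 < pt 1` because `dcf (1.181) ≤ 0` (`n_d181`, Numerics.lean) and `dcf > 0` on `[1, c)`.
`cf (pt 1) > 2.132`: `cf_odd 1`: `cf (1+d) = 2 + 3d/2 - t(3+2d)/4`, `d = 29/150`, `t ≤ π²d²/2`: `≥ 2.29 - 0.15619`; `cf (pt 1) ∈ trapI 2` (`pt_mem_trap`, `mapsTo_trap`).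
`cf c' < cf 2 = 1`. Intermediate value theorem on `[pt 1, c']`: `pt 1 < u < v < c'` with `cf u = pt 2, cf v = pt 1`. Take `b = 2`. `v < c' < 2`.
`dich`: `y ∈ Qw 1` bad, `⌊y⌋₊ = 1`. `y < u`: `pt 2 < cf y ≤ cf (pt 1)`, so `T 1 = 2 ≤ cf y`: `Trp y`, not `Fld y`, contradiction to `bad_step`. `v < y < 2`: if `cf y < 1` then `Fld y` and `bad_fld` gives
`3 ≤ 1`; if `1 ≤ cf y`: not `Fld y`, `Bad (cf y)`, but `cf y ≤ pt 1` (`cf` decreases on `[v, c']` from `pt 1`, increases on `[c', 2]` to `1`), so `cf y ∈ trapI 1`, contradiction to `not_bad_trap`. -/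

set_option autoImplicit false

namespace Pool.Agent.Lib.MP_a247fa_nt.W

open Set

theorem GeoOne_pt1 : pt 1 = 1 + 29 / 150 := by
  unfold pt tau
  norm_num

theorem GeoOne_pt2 : pt 2 = 2 + 33 / 250 := by
  unfold pt tau
  norm_num

theorem GeoOne_val : pt 2 < cf (pt 1) := by
  rw [GeoOne_pt1, GeoOne_pt2]
  have h1 := cf_odd 1 (by norm_num) (29 / 150)
  have h2 := one_sub_cos_nonneg (Real.pi * (29 / 150))
  have h3 := one_sub_cos_le (29 / 150)
  have h4 := pi_sq_lt
  rw [show ((1 : ℕ) : ℝ) + 29 / 150 = 1 + 29 / 150 by push_cast; ring] at h1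
  rw [h1]
  set t := 1 - Real.cos (Real.pi * (29 / 150)) with ht
  have hc : Real.cos (Real.pi * (29 / 150)) = 1 - t := by rw [ht]; ring
  rw [hc]
  have h5 : t ≤ 9.87 * (29 / 150) ^ 2 / 2 := by nlinarith
  push_cast
  norm_num at h5 ⊢
  linarith

theorem geo_one : ∃ u v : ℝ, GeoAt 1 u v (((1 : ℕ) : ℝ) + 1) := by
  obtain ⟨c, c', c1, c2, c3, c4, d1, d2, d3, -, -⟩ := exists_crit_pair (i := 1) (by norm_num)
  have hp1 := GeoOne_pt1
  have hp2 := GeoOne_pt2
  have hval := GeoOne_val
  push_cast at c1 c2 c3 c4 d1 d3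
  have hcl : c < pt 1 := by
    have : c ≤ 1 + 0.181 := by
      by_contra hcon
      rw [not_le] at hcon
      have h1 := d1 (1 + 0.181) (by norm_num) hcon
      have h2 := n_d181
      linarith
    rw [hp1]
    norm_num at this ⊢
    linarith
  have hanti : StrictAntiOn cf (Icc c c') := by
    refine strictAntiOn_of_deriv_neg (convex_Icc _ _) continuous_cf.continuousOn fun x hx => ?_
    rw [interior_Icc] at hx
    rw [deriv_cf]
    exact d2 x hx.1 hx.2
  have hmono : StrictMonoOn cf (Icc c' 2) := by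
    refine strictMonoOn_of_deriv_pos (convex_Icc _ _) continuous_cf.continuousOn fun x hx => ?_
    rw [interior_Icc] at hx
    rw [deriv_cf]
    exact d3 x hx.1 (by linarith [hx.2])
  have hcf2 : cf 2 = 1 := by
    have h1 := cf_natCast 2
    have h2 : T 2 = 1 := by unfold T; norm_num
    rw [h2] at h1
    push_cast at h1
    exact h1
  have hc' : cf c' < 1 := by
    rw [← hcf2]
    exact hmono ⟨le_rfl, by linarith⟩ ⟨by linarith, le_rfl⟩ (by linarith)
  have hle : pt 1 ≤ c' := by
    rw [hp1]
    linarith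
  have hIV := intermediate_value_Icc' hle (continuous_cf.continuousOn (s := Icc (pt 1) c'))
  obtain ⟨u, hu, hu2⟩ := hIV (show pt 2 ∈ Icc (cf c') (cf (pt 1)) from ⟨by linarith, hval.le⟩)
  obtain ⟨v, hv, hv2⟩ := hIV (show pt 1 ∈ Icc (cf c') (cf (pt 1)) from ⟨by linarith, by linarith⟩)
  have hsub : ∀ y, y ∈ Icc (pt 1) c' → y ∈ Icc c c' := fun y hy => ⟨by linarith [hy.1], hy.2⟩
  have huv : u < v := by
    by_contra hcon
    rw [not_lt] at hcon
    have := hanti.antitoneOn (hsub v hv) (hsub u hu) hcon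
    linarith
  have hu1 : pt 1 < u := by
    rcases hu.1.lt_or_eq with h | h
    · exact h
    · rw [← h] at hu2
      linarith
  have hv1 : v < c' := by
    rcases hv.2.lt_or_eq with h | h
    · exact h
    · rw [h] at hv2
      linarith
  have hlo : lo 1 = 1 := by unfold lo; norm_num
  have hhi : hi 1 = 2 := by unfold hi; norm_num
  refine ⟨u, v, hu1, huv, ?_, fun hc => by norm_num at hc, fun _ => ⟨fun y hy => ?_, ?_, ?_, ?_⟩, fun y hy hb => ?_, Or.inl rfl⟩
  · show v < pt 2
    linarith
  · exact d2 y (by linarith [hy.1]) (by linarith [hy.2])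
  · rw [hhi]
    exact hu2
  · rw [hlo]
    exact hv2
  · push_cast
    linarith
  · left
    have hfl := qw_floor hy
    have hT : T 1 = 2 := by unfold T; norm_num
    have hy1 := hy.1
    have hy2 := hy.2
    push_cast at hy2
    constructor
    · by_contra hcon
      rw [not_le] at hcon
      have h1 := hanti (hsub y ⟨hy1.le, by linarith [hu.2]⟩) (hsub u hu) hcon
      have hf : ¬ Fld y := by
        intro hf
        have := hf.2
        rw [hfl] at this
        push_cast at this
        linarith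
      refine (bad_step hb hf).1 ⟨by rw [hfl], ?_⟩
      rw [hfl, hT]
      push_cast
      linarith
    · by_contra hcon
      rw [not_le] at hcon
      rcases lt_or_ge (cf y) 1 with h | h
      · have hf : Fld y := by
          refine ⟨by rw [hfl], ?_⟩
          rw [hfl]
          push_cast
          linarith
        have := bad_fld hb hf
        omega
      · have hf : ¬ Fld y := by
          intro hf
          have := hf.2
          rw [hfl] at this
          push_cast at this
          linarith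
        have hb' := (bad_step hb hf).2
        have hle1 : cf y ≤ pt 1 := by
          rcases le_total y c' with h1 | h1
          · have := hanti.antitoneOn (hsub v hv) (hsub y ⟨hy1.le, h1⟩) hcon.le
            linarith
          · have := hmono.monotoneOn (show y ∈ Icc c' 2 from ⟨h1, by linarith⟩) ⟨by linarith, le_rfl⟩ (by linarith)
            linarith
        refine not_bad_trap (m := 1) (by norm_num) ⟨?_, ?_⟩ hb'
        · push_cast
          exact h
        · exact hle1.trans (pt_mem_trap 1).2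

end Pool.Agent.Lib.MP_a247fa_nt.W
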