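import Pool.Agent.Lib.MP_a247fa_nt.W.RL

/-! HALFALL (50 min). For every `g` of class `CrC` on the window at most half of the image of the core window is filled by `SS L`.

As in `rl_step`: `g '' (SS ∩ Qw l) ⊆ φ '' (SS ∩ Qr (lo l) (hi l))`, `φ = g ∘ h l`, split into the two end children and the middle. Middle: `(1/5)|g m2 - g m1|` (`range_sum`, `inter_child`).
End child `j ∈ {lo l, hi l - 1}`: empty if `j < L`, otherwise `rl_lim` for window `j` and `φ` (class R for `lo l`, class L for `hi l - 1`): `≤ (2/5)|φ (j+1) - φ (pt j)|`.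
The three intervals `h l [pt j, j+1]` (two of them) and `[m1, m2]` are non overlapping in `[pt l, l+1]` (see RL), so the sum is `≤ (2/5)|g (l+1) - g (pt l)|`. -/

set_option autoImplicit false

namespace Pool.Agent.Lib.MP_a247fa_nt.W

open Set MeasureTheory

theorem half_all {u v b : ℕ → ℝ} {h : ℕ → ℝ → ℝ} (hW : WSys u v b h) {L : ℕ} (hB : WBig L u v h) {l : ℕ} (hl : L ≤ l)
    {g : ℝ → ℝ} (hg : CrC g (pt l) (pt (l + 1))) :
    volume (g '' (SS L u v ∩ Qw l)) ≤ ENNReal.ofReal (1 / 2 * |g ((l : ℝ) + 1) - g (pt l)|) := by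
  have hL := hB.big
  have hl2 : 2 ≤ l := by omega
  have hgeo := hW.geo l (by omega)
  obtain ⟨hu, hm, hv, _, _⟩ := m_bounds hW hB hl
  have hm2 := rl_m2_le hW hB hl
  have hl1 : (l : ℝ) + 1 ≤ pt (l + 1) := lt_pt_succ.le
  have near : ∀ j : ℕ, (j = lo l ∨ j + 1 = hi l) →
      volume ((fun x => g (h l x)) '' (SS L u v ∩ Qw j)) ≤
        ENNReal.ofReal (2 / 5 * |g (h l ((j : ℝ) + 1)) - g (h l (pt j))|) := by
    intro j hj
    rcases Nat.lt_or_ge j L with h5 | h5
    · rw [rl_empty h5]; simp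
    · exact rl_lim hW hB h5 (rl_class hW hl2 hg hj)
  have hmid := rl_middle hW hB hl hg
  have hcov := rl_cover hW (L := L) hl2 g
  have hL1 := (rl_left hW hB hl hg).1
  have hR1 := (rl_right hW hB hl hg).1
  have hnl := near (jl l) (rl_jl hl2).1
  have hnr := near (jr l) (rl_jr hl2).1
  have e1 : |g ((l : ℝ) + 1) - g (pt l)| = |g ((l : ℝ) + 1) - g (m2 h l)| + (|g (m2 h l) - g (m1 h l)| +
      (|g (m1 h l) - g (u l)| + |g (u l) - g (pt l)|)) := by
    rw [crc_add hg le_rfl (hgeo.u_gt.le.trans (hu.le.trans hm.le)) hm2 hl1,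
      crc_add hg le_rfl (hgeo.u_gt.le.trans hu.le) hm.le (hm2.trans hl1),
      crc_add hg le_rfl hgeo.u_gt.le hu.le (hm.le.trans (hm2.trans hl1))]
  have p1 := abs_nonneg (g ((l : ℝ) + 1) - g (m2 h l))
  have p2 := abs_nonneg (g (m2 h l) - g (m1 h l))
  have p3 := abs_nonneg (g (m1 h l) - g (u l))
  have p4 := abs_nonneg (g (u l) - g (pt l))
  refine (measure_mono hcov).trans ((measure_union_le _ _).trans ((add_le_add hnl
    ((measure_union_le _ _).trans (add_le_add hmid hnr))).trans ?_))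
  rw [← ENNReal.ofReal_add (by positivity) (by positivity), ← ENNReal.ofReal_add (by positivity) (by positivity)]
  apply ENNReal.ofReal_le_ofReal
  rw [e1]
  linarith

end Pool.Agent.Lib.MP_a247fa_nt.W
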