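import Pool.Agent.Lib.MP_a247fa_nt.W.RangeSum
import Pool.Agent.Lib.MP_a247fa_nt.W.CrcHalf
import Pool.Agent.Lib.MP_a247fa_nt.Dens.Almost

/-! INTER (40 min). Interior children: few points stay high for ever.

`SS_small`: `SS L u v ⊆ {x | ∀ k, L ≤ cf^[k] x}` (a point of `Qw i`, `i ≥ L`, is `> pt i > i ≥ L`), and `Qw j ⊆ [j, j+2]`; `almost_bounded` with `Y = L`.
`inter_child`: `φ = g ∘ h l` is `CrC` on `[pt (lo l), pt (hi l)]` (`crc_child`), restrict to `[pt (j-1), pt (j+2)]`; `crc_ten` with `A = pt (j-1), k1 = pt j, k2 = pt (j+1), B = pt (j+2)`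
(`pt_step`; `j - 1 ≥ lo l ≥ 1`), `X = SS ∩ Qw j`: measure `≤ 10 |φ k2 - φ k1| · 4000/√L ≤ (1/5)|φ k2 - φ k1|` for `L ≥ 10^12` (`√L ≥ 10^6`). -/

set_option autoImplicit false

namespace Pool.Agent.Lib.MP_a247fa_nt.W

open Set MeasureTheory

theorem SS_small {L : ℕ} (hL : 1 ≤ L) (u v : ℕ → ℝ) (j : ℕ) :
    volume (SS L u v ∩ Qw j) ≤ ENNReal.ofReal (4000 / √L) := by
  have hL' : (0 : ℝ) < (L : ℝ) := by exact_mod_cast hL
  have h1 := Pool.Agent.Lib.MP_a247fa_nt.Dens.almost_bounded (L : ℝ) hL' (j : ℝ) (by positivity)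
  refine (measure_mono ?_).trans h1
  rintro y ⟨hy, hq⟩
  refine ⟨?_, ?_⟩
  · intro k
    obtain ⟨i, hi, hi2⟩ := hy k
    have h2 : (L : ℝ) ≤ i := by exact_mod_cast hi
    have h3 := pt_gt i
    have h4 := hi2.1.1
    linarith
  · have h3 := pt_gt j
    exact ⟨by linarith [hq.1], by linarith [hq.2]⟩

theorem inter_child {u v b : ℕ → ℝ} {h : ℕ → ℝ → ℝ} (hW : WSys u v b h) {L : ℕ} (hL : 10 ^ 12 ≤ L) {l : ℕ} (hl : L ≤ l)
    {g : ℝ → ℝ} (hg : CrC g (pt l) (pt (l + 1))) {j : ℕ} (h1 : lo l < j) (h2 : j + 1 < hi l) :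
    volume ((fun x => g (h l x)) '' (SS L u v ∩ Qw j)) ≤
      ENNReal.ofReal (1 / 5 * |g (h l (pt (j + 1))) - g (h l (pt j))|) := by
  have hl1 : 1 ≤ l := by omega
  have hlo := lo_pos hl1
  have hpt : ∀ {a b : ℕ}, a ≤ b → pt a ≤ pt b := by
    intro a b hab
    rcases Nat.lt_or_ge a b with h3 | h3
    · exact (pt_strictMono h3).le
    · have : a = b := by omega
      subst this; exact le_rfl
  have hφ := crc_restrict (crc_child hW hl1 hg) (hpt (show lo l ≤ j - 1 by omega)) (hpt (show j + 2 ≤ hi l by omega))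
  obtain ⟨j', rfl⟩ : ∃ j', j = j' + 1 := ⟨j - 1, by omega⟩
  have hj' : 1 ≤ j' := by omega
  have e : j' + 1 - 1 = j' := rfl
  rw [e] at hφ
  have s1 := pt_step hj'
  have s2 := pt_step (show 1 ≤ j' + 1 by omega)
  have s3 := pt_step (show 1 ≤ j' + 1 + 1 by omega)
  have h3 := crc_ten hφ (k1 := pt (j' + 1)) (k2 := pt (j' + 1 + 1)) s1.1 (by linarith [s1.2]) s2.1
    (by linarith [s2.2]) s3.1 (by linarith [s3.2]) (X := SS L u v ∩ Qw (j' + 1))
    (inter_subset_right.trans (qw_sub.trans Ioo_subset_Icc_self))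
  refine h3.trans ?_
  have h4 := SS_small (show 1 ≤ L by omega) u v (j' + 1)
  refine (mul_le_mul_right h4 _).trans ?_
  rw [← ENNReal.ofReal_mul (by positivity)]
  apply ENNReal.ofReal_le_ofReal
  have h5 : (10 : ℝ) ^ 6 ≤ √L := by
    apply Real.le_sqrt_of_sq_le
    have : ((10 ^ 12 : ℕ) : ℝ) ≤ (L : ℝ) := by exact_mod_cast hL
    norm_num at this ⊢
    linarith
  have h6 : 4000 / √(L : ℝ) ≤ 1 / 250 := by
    rw [div_le_div_iff₀ (by linarith) (by norm_num)]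
    norm_num at h5 ⊢
    linarith
  have h7 := abs_nonneg (g (h l (pt (j' + 1 + 1))) - g (h l (pt (j' + 1))))
  nlinarith

end Pool.Agent.Lib.MP_a247fa_nt.W
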