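import Pool.Agent.Lib.MP_a247fa_nt.W.HalfAll
import Pool.Agent.Lib.MP_a247fa_nt.W.CrcLem

/-! MLIM (60 min). `SS L` is null.

`half_MM`: induction on `k`. `k = 0`: `MM 0 ∩ Qw l = Qw l` and `volume (g '' Qw l) = |g (l+1) - g (pt l)|` (image of an open interval under a continuous strictly monotone function is the open interval
between the end values), `half_all`. Step: `g '' (SS ∩ Qw l) ⊆ φ '' (SS ∩ Qr (lo l) (hi l))` (`child_sub`), and `φ '' (MM k ∩ Qw j) ⊆ g '' (MM (k+1) ∩ Qw l)` for `lo l ≤ j < hi l`, because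
`h l x ∈ Qw l ∩ [u l, v l]` for `x ∈ Qw j` (`pt l < u l ≤ h x`, `h x < l+1`: odd `l`: `v l < l+1`; even: `x < j+1 ≤ hi l`, `h l (hi l) = l+1`), `cf (h x) = x`.
The sets `φ '' (MM k ∩ Qw j)` lie in the disjoint open intervals with end points `φ (pt j), φ (pt (j+1))`, which are measurable, so
`∑ j, volume (φ '' (MM k ∩ Qw j)) ≤ volume (g '' (MM (k+1) ∩ Qw l))`: for a set `A` and disjoint measurable `I_j`, `∑ volume (A ∩ I_j) ≤ volume A` (`measure_inter_add_diff`, finite induction, or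
`MeasureTheory.measure_biUnion..`); and `2 volume (φ '' (SS ∩ Qw j)) ≤ volume (φ '' (MM k ∩ Qw j))` by induction for `j ≥ L` (`φ` is `CrC` on `[pt j, pt (j+1)]`), both sides `0`/trivial for `j < L`
(`SS L ∩ Qw j = ∅`).
`SS_null`: `g = id`. `⋂ k, MM k = SS` (`y ∈ MM k` for all `k` iff all `cf^[k] y` are in `Qw i ∩ [u i, v i]`, `i ≥ L`; the index is unique), `MM` is decreasing and measurable (`cf` is continuous, countable unions),
`volume (Qw l) < ∞`: `volume (MM k ∩ Qw l) → volume (SS ∩ Qw l)`, so `2 x ≤ x < ∞`, `x = 0`. `SS_null_g`: `SS L ∩ Qw l ⊆ [u l, v l]`, `crc_null` (`pt l < u l`, `v l < pt (l+1)`). -/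

set_option autoImplicit false

namespace Pool.Agent.Lib.MP_a247fa_nt.W

open Set MeasureTheory

private theorem ml_disj {I : ℕ → Set ℝ} (s : Finset ℕ) (hI : ∀ j ∈ s, MeasurableSet (I j))
    (hd : ∀ i ∈ s, ∀ j ∈ s, i ≠ j → Disjoint (I i) (I j)) (A : Set ℝ) :
    ∑ j ∈ s, volume (A ∩ I j) ≤ volume A := by
  classical
  induction s using Finset.induction_on generalizing A with
  | empty => simp
  | insert a s ha ih =>
    rw [Finset.sum_insert ha, ← measure_inter_add_sdiff A (hI a (Finset.mem_insert_self a s))]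
    refine add_le_add le_rfl ?_
    refine le_trans (le_of_eq ?_) (ih (fun j hj => hI j (Finset.mem_insert_of_mem hj))
      (fun i hi j hj hij => hd i (Finset.mem_insert_of_mem hi) j (Finset.mem_insert_of_mem hj) hij)
      (A \ I a))
    refine Finset.sum_congr rfl fun j hj => ?_
    congr 1
    ext x
    constructor
    · rintro ⟨h1, h2⟩
      refine ⟨⟨h1, fun h3 => ?_⟩, h2⟩
      have hne : a ≠ j := by
        rintro rfl
        exact ha hj
      exact Set.disjoint_left.mp (hd a (Finset.mem_insert_self a s) j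
        (Finset.mem_insert_of_mem hj) hne) h3 h2
    · rintro ⟨⟨h1, _⟩, h2⟩
      exact ⟨h1, h2⟩

private theorem ml_ss_lt {u v : ℕ → ℝ} {L j : ℕ} (hj : j < L) : SS L u v ∩ Qw j = ∅ := by
  rw [Set.eq_empty_iff_forall_notMem]
  rintro y ⟨h1, h2⟩
  obtain ⟨i, hi, h3, _⟩ := h1 0
  have := qw_unique h3 h2
  omega

private theorem ml_ss_inner {u v : ℕ → ℝ} {L l : ℕ} {y : ℝ} (hy : y ∈ SS L u v) (hl : y ∈ Qw l) :
    y ∈ Icc (u l) (v l) := by
  obtain ⟨i, hi, h3, h4⟩ := hy 0
  have := qw_unique h3 hl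
  subst this
  exact h4

private theorem ml_ss_shift {u v : ℕ → ℝ} {L : ℕ} {y : ℝ} (hy : y ∈ SS L u v) :
    cf y ∈ SS L u v := by
  intro k
  obtain ⟨i, hi, h3⟩ := hy (k + 1)
  rw [Function.iterate_succ_apply] at h3
  exact ⟨i, hi, h3⟩

private theorem ml_image {g : ℝ → ℝ} {a b c : ℝ} (hg : CrC g a b) (hac : a ≤ c) (hcb : c ≤ b) :
    ENNReal.ofReal |g c - g a| ≤ volume (g '' Ioo a c) := by
  have hcont : ContinuousOn g (Icc a c) := hg.cont.mono (Icc_subset_Icc le_rfl hcb)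
  rcases le_total (g a) (g c) with h | h
  · rw [abs_of_nonneg (by linarith), ← Real.volume_Ioo]
    exact measure_mono (intermediate_value_Ioo hac hcont)
  · rw [abs_of_nonpos (by linarith), neg_sub, ← Real.volume_Ioo]
    exact measure_mono (intermediate_value_Ioo' hac hcont)

theorem half_MM {u v b : ℕ → ℝ} {h : ℕ → ℝ → ℝ} (hW : WSys u v b h) {L : ℕ} (hB : WBig L u v h) (k : ℕ) :
    ∀ l : ℕ, L ≤ l → ∀ g : ℝ → ℝ, CrC g (pt l) (pt (l + 1)) →
      2 * volume (g '' (SS L u v ∩ Qw l)) ≤ volume (g '' (MM L u v k ∩ Qw l)) := by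
  have hLbig := hB.big
  induction k with
  | zero =>
    intro l hl g hg
    have e : MM L u v 0 ∩ Qw l = Qw l := by
      apply Set.inter_eq_right.mpr
      intro y hy
      exact ⟨l, hl, hy⟩
    rw [e]
    have h1 := half_all hW hB hl hg
    have h2 : pt l < (l : ℝ) + 1 := by
      have := pt_lt l (by omega)
      linarith
    have h3 := ml_image hg h2.le lt_pt_succ.le
    refine le_trans ?_ h3
    calc 2 * volume (g '' (SS L u v ∩ Qw l)) ≤
        2 * ENNReal.ofReal (1 / 2 * |g ((l : ℝ) + 1) - g (pt l)|) := by gcongr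
      _ = ENNReal.ofReal |g ((l : ℝ) + 1) - g (pt l)| := by
        rw [show (2 : ENNReal) = ENNReal.ofReal 2 by simp, ← ENNReal.ofReal_mul (by norm_num)]
        congr 1
        ring
  | succ k ih =>
    intro l hl g hg
    have hl1 : 1 ≤ l := by omega
    have hgeo := hW.geo l hl1
    have hφ := crc_child hW hl1 hg
    set φ : ℝ → ℝ := fun x => g (h l x) with hφdef
    have hlohi := lo_lt_hi l
    have hmono : ∀ i j : ℕ, i ≤ j → pt i ≤ pt j := by
      intro i j hij
      rcases Nat.eq_or_lt_of_le hij with h0 | h0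
      · rw [h0]
      · exact (pt_strictMono h0).le
    -- step 1
    have s1 : g '' (SS L u v ∩ Qw l) ⊆ φ '' (SS L u v ∩ Qr (lo l) (hi l)) := by
      refine child_sub hW hl1 (X := SS L u v) (Y := SS L u v ∩ Qw l) ?_ ?_ g
      · intro y hy
        obtain ⟨i, _, h1, _⟩ := hy 0
        exact ⟨i, h1⟩
      · rintro y ⟨hy1, hy2⟩
        exact ⟨ml_ss_inner hy1 hy2, ml_ss_shift hy1⟩
    -- step 2
    have s2 : ∀ j ∈ Finset.Ico (lo l) (hi l), 2 * volume (φ '' (SS L u v ∩ Qw j)) ≤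
        volume (φ '' (MM L u v k ∩ Qw j)) := by
      intro j hj
      rw [Finset.mem_Ico] at hj
      rcases Nat.lt_or_ge j L with h0 | h0
      · rw [ml_ss_lt h0]
        simp
      · exact ih j h0 φ (crc_restrict hφ (hmono _ _ hj.1) (hmono _ _ (by omega)))
    -- disjoint intervals
    let I : ℕ → Set ℝ := fun j => Ioo (min (φ (pt j)) (φ (pt (j + 1)))) (max (φ (pt j)) (φ (pt (j + 1))))
    have hIm : ∀ j ∈ Finset.Ico (lo l) (hi l), MeasurableSet (I j) := fun j _ => measurableSet_Ioo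
    have hIcc : ∀ j, lo l ≤ j → j ≤ hi l → pt j ∈ Icc (pt (lo l)) (pt (hi l)) := fun j h1 h2 =>
      ⟨hmono _ _ h1, hmono _ _ h2⟩
    have hdis : ∀ i ∈ Finset.Ico (lo l) (hi l), ∀ j ∈ Finset.Ico (lo l) (hi l), i < j →
        Disjoint (I i) (I j) := by
      intro i hi' j hj' hij
      rw [Finset.mem_Ico] at hi' hj'
      have q1 : pt i ≤ pt (i + 1) := hmono _ _ (by omega)
      have q2 : pt (i + 1) ≤ pt j := hmono _ _ (by omega)
      have q3 : pt j ≤ pt (j + 1) := hmono _ _ (by omega)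
      rw [Set.disjoint_left]
      rintro x ⟨x1, x2⟩ ⟨x3, x4⟩
      rcases hφ.mono with hm | hm
      · have e1 := hm.monotoneOn (hIcc i hi'.1 (by omega)) (hIcc (i + 1) (by omega) (by omega)) q1
        have e2 := hm.monotoneOn (hIcc (i + 1) (by omega) (by omega)) (hIcc j (by omega) (by omega)) q2
        have e3 := hm.monotoneOn (hIcc j (by omega) (by omega)) (hIcc (j + 1) (by omega) (by omega)) q3
        rw [max_eq_right e1] at x2
        rw [min_eq_left e3] at x3
        linarith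
      · have e1 := hm.antitoneOn (hIcc i hi'.1 (by omega)) (hIcc (i + 1) (by omega) (by omega)) q1
        have e2 := hm.antitoneOn (hIcc (i + 1) (by omega) (by omega)) (hIcc j (by omega) (by omega)) q2
        have e3 := hm.antitoneOn (hIcc j (by omega) (by omega)) (hIcc (j + 1) (by omega) (by omega)) q3
        rw [min_eq_right e1] at x1
        rw [max_eq_left e3] at x4
        linarith
    have hdis' : ∀ i ∈ Finset.Ico (lo l) (hi l), ∀ j ∈ Finset.Ico (lo l) (hi l), i ≠ j →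
        Disjoint (I i) (I j) := by
      intro i hi' j hj' hij
      rcases Nat.lt_or_gt_of_ne hij with h0 | h0
      · exact hdis i hi' j hj' h0
      · exact (hdis j hj' i hi' h0).symm
    -- step 3
    have s3 : ∑ j ∈ Finset.Ico (lo l) (hi l), volume (φ '' (MM L u v k ∩ Qw j)) ≤
        volume (g '' (MM L u v (k + 1) ∩ Qw l)) := by
      refine (Finset.sum_le_sum fun j hj => ?_).trans
        (ml_disj (Finset.Ico (lo l) (hi l)) hIm hdis' (g '' (MM L u v (k + 1) ∩ Qw l)))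
      rw [Finset.mem_Ico] at hj
      refine measure_mono ?_
      rintro _ ⟨x, ⟨hx1, hx2⟩, rfl⟩
      have hxw := qw_sub hx2
      have hxI : x ∈ Icc (pt (lo l)) (pt (hi l)) :=
        ⟨(hmono _ _ hj.1).trans hxw.1.le, hxw.2.le.trans (hmono _ _ (by omega))⟩
      have hy := hW.h_mem l hl1 x hxI
      refine ⟨⟨h l x, ⟨⟨l, hl, ?_, hy, ?_⟩, ?_⟩, rfl⟩, ?_⟩
      · refine ⟨hgeo.u_gt.trans_le hy.1, ?_⟩
        rcases Nat.mod_two_eq_zero_or_one l with hp | hp
        · obtain ⟨m1, m2, m3, m4⟩ := hW.even l hl1 hp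
          rw [← m4]
          have hx3 : x < ((hi l : ℕ) : ℝ) := by
            have : ((j + 1 : ℕ) : ℝ) ≤ ((hi l : ℕ) : ℝ) := by exact_mod_cast hj.2
            push_cast at this
            exact hx2.2.trans_le this
          exact m1 hxI ⟨hxI.1.trans hx3.le, (pt_gt _).le⟩ hx3
        · exact hy.2.trans_lt (hgeo.odd hp).2.2.2
      · rw [hW.cf_h l hl1 x hxI]
        exact hx1
      · refine ⟨hgeo.u_gt.trans_le hy.1, ?_⟩
        rcases Nat.mod_two_eq_zero_or_one l with hp | hp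
        · obtain ⟨m1, m2, m3, m4⟩ := hW.even l hl1 hp
          rw [← m4]
          have hx3 : x < ((hi l : ℕ) : ℝ) := by
            have : ((j + 1 : ℕ) : ℝ) ≤ ((hi l : ℕ) : ℝ) := by exact_mod_cast hj.2
            push_cast at this
            exact hx2.2.trans_le this
          exact m1 hxI ⟨hxI.1.trans hx3.le, (pt_gt _).le⟩ hx3
        · exact hy.2.trans_lt (hgeo.odd hp).2.2.2
      · exact crc_image_Ioo hφ (hmono _ _ hj.1) (hmono _ _ (by omega)) (hmono _ _ (by omega)) hxw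
    -- conclusion
    have s4 : volume (φ '' (SS L u v ∩ Qr (lo l) (hi l))) ≤
        ∑ j ∈ Finset.Ico (lo l) (hi l), volume (φ '' (SS L u v ∩ Qw j)) := by
      refine le_trans (measure_mono ?_) (measure_biUnion_finset_le (Finset.Ico (lo l) (hi l))
        (fun j => φ '' (SS L u v ∩ Qw j)))
      rintro _ ⟨x, ⟨hx1, j, hj1, hj2, hx2⟩, rfl⟩
      exact Set.mem_biUnion (Finset.mem_coe.mpr (Finset.mem_Ico.mpr ⟨hj1, hj2⟩)) ⟨x, ⟨hx1, hx2⟩, rfl⟩
    calc 2 * volume (g '' (SS L u v ∩ Qw l)) ≤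
        2 * ∑ j ∈ Finset.Ico (lo l) (hi l), volume (φ '' (SS L u v ∩ Qw j)) := by
          gcongr
          exact (measure_mono s1).trans s4
      _ = ∑ j ∈ Finset.Ico (lo l) (hi l), 2 * volume (φ '' (SS L u v ∩ Qw j)) := Finset.mul_sum _ _ _
      _ ≤ ∑ j ∈ Finset.Ico (lo l) (hi l), volume (φ '' (MM L u v k ∩ Qw j)) := Finset.sum_le_sum s2
      _ ≤ _ := s3

private theorem ml_cf_cont : Continuous cf := by
  unfold cf
  fun_prop

private theorem ml_anti (L : ℕ) (u v : ℕ → ℝ) (k : ℕ) : MM L u v (k + 1) ⊆ MM L u v k := by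
  induction k with
  | zero =>
    rintro y ⟨i, hi, h1, _⟩
    exact ⟨i, hi, h1⟩
  | succ k ih =>
    rintro y ⟨i, hi, h1, h2, h3⟩
    exact ⟨i, hi, h1, h2, ih h3⟩

private theorem ml_meas (L : ℕ) (u v : ℕ → ℝ) (k : ℕ) : MeasurableSet (MM L u v k) := by
  induction k with
  | zero =>
    have e : MM L u v 0 = ⋃ i : ℕ, ⋃ _ : L ≤ i, Qw i := by
      ext y
      simp [MM]
    rw [e]
    exact MeasurableSet.iUnion fun i => MeasurableSet.iUnion fun _ => measurableSet_Ioo
  | succ k ih =>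
    have e : MM L u v (k + 1) = ⋃ i : ℕ, ⋃ _ : L ≤ i, (Qw i ∩ (Icc (u i) (v i) ∩ cf ⁻¹' (MM L u v k))) := by
      ext y
      simp only [Set.mem_iUnion, Set.mem_inter_iff, Set.mem_preimage, exists_prop]
      rfl
    rw [e]
    exact MeasurableSet.iUnion fun i => MeasurableSet.iUnion fun _ =>
      measurableSet_Ioo.inter (measurableSet_Icc.inter (ml_cf_cont.measurable ih))

private theorem ml_iter (L : ℕ) (u v : ℕ → ℝ) (k m : ℕ) : ∀ y ∈ MM L u v (k + m),
    cf^[k] y ∈ MM L u v m := by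
  induction k with
  | zero =>
    intro y hy
    rw [Nat.zero_add] at hy
    exact hy
  | succ k ih =>
    intro y hy
    rw [show k + 1 + m = (k + m) + 1 by ring] at hy
    obtain ⟨i, hi, h1, h2, h3⟩ := hy
    rw [Function.iterate_succ_apply]
    exact ih _ h3

theorem SS_null {u v b : ℕ → ℝ} {h : ℕ → ℝ → ℝ} (hW : WSys u v b h) {L : ℕ} (hB : WBig L u v h) {l : ℕ} (hl : L ≤ l) :
    volume (SS L u v ∩ Qw l) = 0 := by
  have h1 : ∀ k, 2 * volume (SS L u v ∩ Qw l) ≤ volume (MM L u v k ∩ Qw l) := by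
    intro k
    have := half_MM hW hB k l hl (fun x => x) (crc_id _ _)
    rwa [Set.image_id', Set.image_id'] at this
  have hanti : Antitone (fun k => MM L u v k ∩ Qw l) :=
    antitone_nat_of_succ_le fun k => Set.inter_subset_inter_left _ (ml_anti L u v k)
  have hfin : volume (Qw l) ≠ ⊤ := by
    unfold Qw
    rw [Real.volume_Ioo]
    exact ENNReal.ofReal_ne_top
  have h2 := tendsto_measure_iInter_atTop (μ := (volume : Measure ℝ)) (s := fun k => MM L u v k ∩ Qw l)
    (fun k => ((ml_meas L u v k).inter measurableSet_Ioo).nullMeasurableSet) hanti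
    ⟨0, ne_top_of_le_ne_top hfin (measure_mono Set.inter_subset_right)⟩
  have h3 : 2 * volume (SS L u v ∩ Qw l) ≤ volume (⋂ k, (MM L u v k ∩ Qw l)) :=
    ge_of_tendsto' h2 h1
  have h4 : (⋂ k, (MM L u v k ∩ Qw l)) ⊆ SS L u v ∩ Qw l := by
    intro y hy
    rw [Set.mem_iInter] at hy
    refine ⟨fun k => ?_, (hy 0).2⟩
    have := ml_iter L u v k 1 y (hy (k + 1)).1
    obtain ⟨i, hi, q1, q2, _⟩ := this
    exact ⟨i, hi, q1, q2⟩
  have h5 := h3.trans (measure_mono h4)
  have h6 : volume (SS L u v ∩ Qw l) ≠ ⊤ :=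
    ne_top_of_le_ne_top hfin (measure_mono Set.inter_subset_right)
  by_contra hne
  have h7 : volume (SS L u v ∩ Qw l) < 2 * volume (SS L u v ∩ Qw l) := by
    rw [two_mul]
    exact ENNReal.lt_add_right h6 hne
  exact absurd h5 (not_le.mpr h7)

theorem SS_null_g {u v b : ℕ → ℝ} {h : ℕ → ℝ → ℝ} (hW : WSys u v b h) {L : ℕ} (hB : WBig L u v h) (l : ℕ) (hl1 : 1 ≤ l)
    {g : ℝ → ℝ} (hg : CrC g (pt l) (pt (l + 1))) : volume (g '' (SS L u v ∩ Qw l)) = 0 := by
  rcases Nat.lt_or_ge l L with h0 | h0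
  · rw [ml_ss_lt h0]
    simp
  · have hgeo := hW.geo l hl1
    exact crc_null hg hgeo.u_gt hgeo.v_lt (fun y hy => ml_ss_inner hy.1 hy.2) (SS_null hW hB h0)

end Pool.Agent.Lib.MP_a247fa_nt.W
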