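import Pool.Agent.Lib.MP_a247fa_nt.W.RangeSum
import Pool.Agent.Lib.MP_a247fa_nt.W.CrcLem

/-! MAINN (40 min). The main induction: in every image of a window at most 57/250 is bad.

Induction on `k`. `k = 0`: empty. Step: a point of `NN (k+1) ∩ Qw i` has index `i` (`qw_unique`), so it is in `F = {y ∈ Qw i | b i < y}` or in
`Y = {y ∈ Qw i | y ∈ [u i, v i], cf y ∈ NN k}`. `g '' Y ⊆ (g ∘ h i) '' (NN k ∩ Qr (lo i) (hi i))` (`child_sub`; `NN k ⊆ ⋃ Qw j`), measure
`≤ (57/250) |g (v i) - g (u i)|` by `range_sum` (`κ = 57/250`, induction hypothesis for the windows `j ≥ lo i ≥ 1` and `g ∘ h i` restricted to `[pt j, pt (j+1)]`),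
`crc_child`, `child_total`. `F`: if `b i = i+1` it is empty. Otherwise `v < b < i+1 < pt (i+1)` and `F ⊆ [b, i+1]`, `crc_vol` and `crc_fold`
(for `g` restricted to `[v, pt (i+1)]`): measure `≤ |g (i+1) - g b| ≤ (57/250)|g (pt (i+1)) - g (v i)|`. Sum with `crc_add`, `crc_le` (`pt i < u i`). -/

set_option autoImplicit false

namespace Pool.Agent.Lib.MP_a247fa_nt.W

open Set MeasureTheory

theorem NN_sub {u v b : ℕ → ℝ} (k : ℕ) : ∀ y ∈ NN u v b k, ∃ j : ℕ, y ∈ Qw j := by
  intro y hy
  cases k with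
  | zero => exact absurd hy (by simp [NN])
  | succ k =>
    obtain ⟨i, _, hi, _⟩ := hy
    exact ⟨i, hi⟩

theorem NN_mono {u v b : ℕ → ℝ} (k : ℕ) : NN u v b k ⊆ NN u v b (k + 1) := by
  induction k with
  | zero => intro y hy; exact absurd hy (by simp [NN])
  | succ k ih =>
    rintro y ⟨i, hi, hy, h⟩
    refine ⟨i, hi, hy, ?_⟩
    rcases h with h | ⟨h1, h2⟩
    · exact Or.inl h
    · exact Or.inr ⟨h1, ih h2⟩

theorem main_pt_le {a b : ℕ} (h : a ≤ b) : pt a ≤ pt b := by
  rcases Nat.lt_or_ge a b with h1 | h1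
  · exact (pt_strictMono h1).le
  · have : a = b := by omega
    subst this; exact le_rfl

theorem main_NN {u v b : ℕ → ℝ} {h : ℕ → ℝ → ℝ} (hW : WSys u v b h) (k : ℕ) : ∀ i : ℕ, 1 ≤ i → ∀ g : ℝ → ℝ,
    CrC g (pt i) (pt (i + 1)) → volume (g '' (NN u v b k ∩ Qw i)) ≤
      ENNReal.ofReal (57 / 250 * |g (pt (i + 1)) - g (pt i)|) := by
  induction k with
  | zero => intro i _ g _; simp [NN]
  | succ k ih =>
    intro i hi1 g hg
    have hgeo := hW.geo i hi1
    have hu := hgeo.u_gt
    have huv := hgeo.u_lt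
    have hv := hgeo.v_lt
    set F : Set ℝ := {y | y ∈ Qw i ∧ b i < y} with hF
    set Y : Set ℝ := {y | y ∈ Qw i ∧ y ∈ Icc (u i) (v i) ∧ cf y ∈ NN u v b k} with hY
    have hsub : NN u v b (k + 1) ∩ Qw i ⊆ F ∪ Y := by
      rintro y ⟨⟨i', hi', hy', h'⟩, hy⟩
      have : i' = i := qw_unique hy' hy
      subst this
      rcases h' with h' | ⟨h1, h2⟩
      · exact Or.inl ⟨hy, h'⟩
      · exact Or.inr ⟨hy, h1, h2⟩
    -- the inner part
    have hYv : volume (g '' Y) ≤ ENNReal.ofReal (57 / 250 * |g (v i) - g (u i)|) := by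
      have h1 := child_sub hW hi1 (X := NN u v b k) (Y := Y) (NN_sub k) (fun y hy => ⟨hy.2.1, hy.2.2⟩) g
      have hφ := crc_child hW hi1 hg
      have h2 := range_sum (lo_lt_hi i).le hφ (X := NN u v b k) (κ := 57 / 250) (by norm_num)
        (fun j h3 h4 => ih j ((lo_pos hi1).trans h3) _
          (crc_restrict hφ (main_pt_le h3) (main_pt_le h4)))
      refine (measure_mono h1).trans (h2.trans ?_)
      rw [child_total hW hi1 g]
    -- the fold
    have hFv : volume (g '' F) ≤ ENNReal.ofReal (57 / 250 * |g (pt (i + 1)) - g (v i)|) := by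
      rcases hgeo.fold with hb | ⟨h1, h2, h3⟩
      · have : F = ∅ := by
          ext y
          simp only [hF, mem_ofPred_eq, mem_empty_iff_false, iff_false, not_and, not_lt]
          intro hy
          rw [hb]
          exact hy.2.le
        rw [this]; simp
      · have hl : (i : ℝ) + 1 < pt (i + 1) := lt_pt_succ
        have h4 : F ⊆ Icc (b i) ((i : ℝ) + 1) := by
          rintro y ⟨hy, hy2⟩
          exact ⟨hy2.le, hy.2.le⟩
        refine (crc_vol hg (by linarith) h2.le hl.le h4).trans (ENNReal.ofReal_le_ofReal ?_)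
        exact crc_fold h1 h2 hl h3 (crc_restrict hg (by linarith) le_rfl)
    refine (measure_mono (image_mono hsub)).trans ?_
    rw [image_union]
    refine (measure_union_le _ _).trans ((add_le_add hFv hYv).trans ?_)
    rw [← ENNReal.ofReal_add (by positivity) (by positivity)]
    apply ENNReal.ofReal_le_ofReal
    have e1 := crc_add hg le_rfl (hu.le.trans huv.le) hv.le le_rfl
    have e2 := crc_add hg le_rfl hu.le huv.le hv.le
    have p1 := abs_nonneg (g (u i) - g (pt i))
    rw [e1, e2]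
    linarith

end Pool.Agent.Lib.MP_a247fa_nt.W
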