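import Pool.Agent.Lib.MP_a247fa_nt.W.Defs
import Pool.Agent.Lib.MP_a247fa_nt.Trap

/-! PTLEM (45 min). Split points and bad points.

`tau n ∈ {29/50, 33/50}`. `pt_lt`: `tau/(2n+1) ≤ 29/150` for `n ≥ 1` (`n = 1`: equality; `n ≥ 2`: `≤ 33/250`). `pt_strictMono`: `n < pt n < n+1` for `n ≥ 0`
(`n = 0`: `33/50`). `pt_step`: `pt (n+1) - pt n = 1 + tau (n+1)/(2n+3) - tau n/(2n+1)`; `≥ 1 - 29/150 + 33/250 > 9/10` for `n = 1`, `≥ 1 - 33/250+..`, in general `≥ 1 - tau n/(2n+1) ≥ 9/10`
for `n ≥ 3`, `n = 2`: `1 - 33/250 + 29/350 > 9/10`; upper bound: `n` even: `tau (n+1) < tau n`: `< 1`; `n` odd: `33/50/(2n+3) - 29/50/(2n+1) = (8n - 54)/(50 (2n+1)(2n+3)) ≤ 1/500`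
(`10 (8n-54) ≤ (2n+1)(2n+3)`: `4n² - 72n + 543 ≥ 0`, discriminant negative).
`pt_mem_trap`: `tau ≤ 4/5`. `qw_cover`: the `pt j` tend to infinity, take the last `j ≥ a` with `pt j ≤ y`.
`bad_step`: `Bad y`, not `Fld y`: first case shift `k`; second case: `k = 0` impossible, `k = k'+1` and `j = 0` gives `¬ Trp y`. `bad_fld`: similar.
`not_bad_trap`: strong induction on `m`. `⌊y⌋₊ = m` (`4/(5(2m+1)) < 1`). `mapsTo_trap`: `cf y ∈ trapI (T m)`. `m` odd: `T m ≤ cf y`, so `Trp y` and not `Fld y` (`T m ≥ (m+1)/2`), contradiction to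
`bad_step`. `m` even: not `Fld y` by parity, `Bad (cf y)`, `cf y ∈ trapI (m/2)`, `0 < m/2 < m`.
`qw_of_bad`: `qw_cover`, `pt j ∈ trapI j` and `[j+1, pt (j+1)) ⊆ trapI (j+1)` contain no bad points; `pt j < y ≤ pt c` gives `j < c`. -/

set_option autoImplicit false

namespace Pool.Agent.Lib.MP_a247fa_nt.W

open Set

theorem tau_bounds (n : ℕ) : 29 / 50 ≤ tau n ∧ tau n ≤ 33 / 50 := by
  unfold tau
  split_ifs <;> norm_num

theorem pt_gt (n : ℕ) : (n : ℝ) < pt n := by
  have h1 := (tau_bounds n).1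
  have h2 : 0 < tau n / (2 * n + 1) := div_pos (by linarith) (by positivity)
  have h3 : pt n = n + tau n / (2 * n + 1) := rfl
  linarith

theorem pt_lt (n : ℕ) (hn : 1 ≤ n) : pt n ≤ n + 29 / 150 := by
  have h3 : pt n = n + tau n / (2 * n + 1) := rfl
  have h4 : tau n / (2 * n + 1) ≤ 29 / 150 := by
    rcases hn.eq_or_lt with h | h
    · rw [← h]
      have : tau 1 = 29 / 50 := by unfold tau; norm_num
      rw [this]
      norm_num
    · have h5 : (2 : ℝ) ≤ n := by exact_mod_cast h
      have h6 := (tau_bounds n).2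
      rw [div_le_iff₀ (by positivity)]
      nlinarith
  linarith

theorem pt_strictMono {m n : ℕ} (h : m < n) : pt m < pt n := by
  have h1 : ((m : ℝ) + 1) ≤ n := by exact_mod_cast h
  have h2 := pt_gt n
  have h3 := (tau_bounds m).2
  have h4 : pt m = m + tau m / (2 * m + 1) := rfl
  have h5 : tau m / (2 * m + 1) ≤ 33 / 50 := by
    rw [div_le_iff₀ (by positivity)]
    have h6 : (0 : ℝ) ≤ m := Nat.cast_nonneg m
    nlinarith
  linarith

theorem pt_step {n : ℕ} (hn : 1 ≤ n) : pt n + 9 / 10 ≤ pt (n + 1) ∧ pt (n + 1) ≤ pt n + (1 + 1 / 500) := by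
  have hn' : (1 : ℝ) ≤ n := by exact_mod_cast hn
  have h1 : pt n = n + tau n / (2 * n + 1) := rfl
  have h2 : pt (n + 1) = n + 1 + tau (n + 1) / (2 * n + 3) := by
    unfold pt
    push_cast
    ring_nf
  have b1 := tau_bounds n
  have b2 := tau_bounds (n + 1)
  have p1 : (0 : ℝ) ≤ tau (n + 1) / (2 * n + 3) := div_nonneg (by linarith) (by positivity)
  have p2 : (0 : ℝ) ≤ tau n / (2 * n + 1) := div_nonneg (by linarith) (by positivity)
  constructor
  · have h3 : tau n / (2 * n + 1) - tau (n + 1) / (2 * n + 3) ≤ 1 / 10 := by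
      rcases (show n = 1 ∨ n = 2 ∨ 3 ≤ n by omega) with h | h | h
      · subst h
        have t1 : tau 1 = 29 / 50 := by unfold tau; norm_num
        have t2 : tau (1 + 1) = 33 / 50 := by unfold tau; norm_num
        rw [t1, t2]
        norm_num
      · subst h
        have t1 : tau 2 = 33 / 50 := by unfold tau; norm_num
        have t2 : tau (2 + 1) = 29 / 50 := by unfold tau; norm_num
        rw [t1, t2]
        norm_num
      · have h5 : (3 : ℝ) ≤ n := by exact_mod_cast h
        have h6 : tau n / (2 * n + 1) ≤ 1 / 10 := by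
          rw [div_le_iff₀ (by positivity)]
          nlinarith
        linarith
    linarith
  · have h3 : tau (n + 1) / (2 * n + 3) - tau n / (2 * n + 1) ≤ 1 / 500 := by
      rcases Nat.mod_two_eq_zero_or_one n with h | h
      · have t1 : tau n = 33 / 50 := by unfold tau; rw [if_neg (by omega)]
        have t2 : tau (n + 1) = 29 / 50 := by unfold tau; rw [if_pos (by omega)]
        rw [t1, t2, div_sub_div _ _ (by positivity) (by positivity), div_le_iff₀ (by positivity)]
        nlinarith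
      · have t1 : tau n = 29 / 50 := by unfold tau; rw [if_pos h]
        have t2 : tau (n + 1) = 33 / 50 := by unfold tau; rw [if_neg (by omega)]
        rw [t1, t2, div_sub_div _ _ (by positivity) (by positivity), div_le_iff₀ (by positivity)]
        nlinarith [sq_nonneg ((n : ℝ) - 9)]
    linarith

theorem lt_pt_succ {n : ℕ} : (n : ℝ) + 1 < pt (n + 1) := by
  have := pt_gt (n + 1)
  push_cast at this
  exact this

/-- the core window inside the window -/
theorem qw_sub {n : ℕ} : Qw n ⊆ Ioo (pt n) (pt (n + 1)) := by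
  intro y hy
  exact ⟨hy.1, hy.2.trans lt_pt_succ⟩

/-- core windows are disjoint -/
theorem qw_unique {m n : ℕ} {y : ℝ} (hm : y ∈ Qw m) (hn : y ∈ Qw n) : m = n := by
  have key : ∀ {m n : ℕ} {y : ℝ}, y ∈ Qw m → y ∈ Qw n → ¬ m < n := by
    intro m n y hm hn h
    have h1 : ((m : ℝ) + 1) ≤ n := by exact_mod_cast h
    have h2 := pt_gt n
    have h3 := hm.2
    have h4 := hn.1
    linarith
  rcases lt_trichotomy m n with h | h | h
  · exact absurd h (key hm hn)
  · exact h
  · exact absurd h (key hn hm)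

theorem qw_floor {n : ℕ} {y : ℝ} (hn : y ∈ Qw n) : ⌊y⌋₊ = n := by
  have h1 := pt_gt n
  have h2 := hn.1
  have h3 : (0 : ℝ) ≤ n := Nat.cast_nonneg n
  rw [Nat.floor_eq_iff (by linarith)]
  exact ⟨by linarith, hn.2⟩

/-- every point beyond `pt a` is in a core window or in a trap below its split point -/
theorem qw_cover {a : ℕ} (ha : 1 ≤ a) {y : ℝ} (hy : pt a ≤ y) :
    ∃ j : ℕ, a ≤ j ∧ (y ∈ Qw j ∨ (y = pt j) ∨ ((j : ℝ) + 1 ≤ y ∧ y < pt (j + 1))) := by
  classical
  have hex : ∃ n : ℕ, y < pt n := by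
    obtain ⟨n, hn⟩ := exists_nat_gt y
    exact ⟨n, hn.trans (pt_gt n)⟩
  have h1 : y < pt (Nat.find hex) := Nat.find_spec hex
  have h2 : a < Nat.find hex := by
    by_contra hcon
    rcases (not_lt.1 hcon).lt_or_eq with h | h
    · have := pt_strictMono h
      linarith
    · rw [h] at h1
      linarith
  obtain ⟨j, hj⟩ : ∃ j, Nat.find hex = j + 1 := ⟨Nat.find hex - 1, by omega⟩
  have h3 : ¬ y < pt j := Nat.find_min hex (by omega)
  rw [hj] at h1
  refine ⟨j, by omega, ?_⟩
  rcases (not_lt.1 h3).lt_or_eq with h | h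
  · rcases lt_or_ge y ((j : ℝ) + 1) with h4 | h4
    · exact Or.inl ⟨h, h4⟩
    · exact Or.inr (Or.inr ⟨h4, h1⟩)
  · exact Or.inr (Or.inl h.symm)

theorem pt_mem_trap (n : ℕ) : pt n ∈ trapI n := by
  refine ⟨(pt_gt n).le, ?_⟩
  have h1 : pt n = n + tau n / (2 * n + 1) := rfl
  have h2 : tau n / (2 * n + 1) ≤ (4 / 5) / (2 * n + 1) := by
    have := (tau_bounds n).2
    exact div_le_div_of_nonneg_right (by linarith) (by positivity)
  have h3 : (4 / 5 : ℝ) / (2 * n + 1) = 4 / (5 * (2 * n + 1)) := by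
    rw [div_div]
  linarith

theorem bad_step {y : ℝ} (hb : Bad y) (hf : ¬ Fld y) : ¬ Trp y ∧ Bad (cf y) := by
  rcases hb with h | ⟨k, h1, h2, h3⟩
  · refine ⟨(h 0).1, Or.inl fun k => ?_⟩
    have := h (k + 1)
    rwa [Function.iterate_succ_apply] at this
  · rcases k with _ | k
    · exact absurd h2 hf
    · refine ⟨(h3 0 (by omega)).1, Or.inr ⟨k, ?_, ?_, fun j hj => ?_⟩⟩
      · rwa [Function.iterate_succ_apply] at h1
      · rwa [Function.iterate_succ_apply] at h2
      · have := h3 (j + 1) (by omega)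
        rwa [Function.iterate_succ_apply] at this

theorem bad_fld {y : ℝ} (hb : Bad y) (hf : Fld y) : 3 ≤ ⌊y⌋₊ := by
  rcases hb with h | ⟨k, h1, h2, h3⟩
  · exact absurd hf (h 0).2
  · rcases k with _ | k
    · exact h1
    · exact absurd hf (h3 0 (by omega)).2

theorem not_bad_trap {m : ℕ} (hm : 0 < m) {y : ℝ} (hy : y ∈ trapI m) : ¬ Bad y := by
  induction m using Nat.strong_induction_on generalizing y with
  | _ m ih =>
    intro hb
    have hm1 : (1 : ℝ) ≤ m := by exact_mod_cast hm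
    have hfl : ⌊y⌋₊ = m := by
      rw [Nat.floor_eq_iff (by linarith [hy.1])]
      refine ⟨hy.1, lt_of_le_of_lt hy.2 ?_⟩
      have : (4 : ℝ) / (5 * (2 * m + 1)) < 1 := by
        rw [div_lt_one (by positivity)]
        linarith
      linarith
    have hc := mapsTo_trap hm hy
    rcases Nat.mod_two_eq_zero_or_one m with h | h
    · have hf : ¬ Fld y := by
        intro hf
        have := hf.1
        rw [hfl] at this
        omega
      have h2 := (bad_step hb hf).2
      have e : T m = m / 2 := by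
        unfold T
        rw [if_pos h]
      rw [e] at hc
      exact ih (m / 2) (by omega) (by omega) hc h2
    · have hge := hc.1
      have hf : ¬ Fld y := by
        intro hf
        have h1 := hf.2
        rw [hfl] at h1
        rw [T_odd h] at hge
        linarith
      refine (bad_step hb hf).1 ⟨?_, ?_⟩
      · rw [hfl]
        exact h
      · rw [hfl]
        exact hge

/-- a bad point between split points is in a core window -/
theorem qw_of_bad {a : ℕ} (ha : 1 ≤ a) {c : ℕ} {y : ℝ} (hy : y ∈ Icc (pt a) (pt c)) (hb : Bad y) :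
    ∃ j : ℕ, a ≤ j ∧ j < c ∧ y ∈ Qw j := by
  obtain ⟨j, hj, h⟩ := qw_cover ha hy.1
  rcases h with h | h | h
  · refine ⟨j, hj, ?_, h⟩
    by_contra hcon
    have h1 : pt c ≤ pt j := by
      rcases (not_lt.1 hcon).lt_or_eq with h2 | h2
      · exact (pt_strictMono h2).le
      · rw [h2]
    have h3 := h.1
    have h4 := hy.2
    linarith
  · rw [h] at hb
    exact absurd hb (not_bad_trap (by omega) (pt_mem_trap j))
  · refine absurd hb (not_bad_trap (m := j + 1) (by omega) ⟨?_, ?_⟩)
    · push_cast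
      exact h.1
    · exact h.2.le.trans (pt_mem_trap (j + 1)).2

end Pool.Agent.Lib.MP_a247fa_nt.W
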