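import Pool.Agent.Lib.MP_a247fa_nt.W.Inter
import Pool.Agent.Lib.MP_a247fa_nt.W.Far

/-! RL (90 min, the longest module; read (4.5) of BJ_W.md). Following one side.

Class R: `CrC g (pt l) (pt (l+2))`, near child = left end child, far child = right end child. Class L: `CrC g (pt (l-1)) (pt (l+1))`, near = right, far = left.
`rl_step`, by induction on `s`. `s = 0`: `Qw l ⊆ [pt l, l+1]` of length `≤ 1 = (5/7)^0`, so its image has measure `≤ |g (l+1) - g (pt l)| ≤ c` (`crc_vol`).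
Step: `E = SS L u v`. `E ∩ Qw l`: its points are in `[u l, v l]` with `cf y ∈ E ∩ Qw j`, `lo l ≤ j < hi l`, `j ≥ L`; so `g '' (E ∩ Qw l) ⊆ φ '' (E ∩ Qr (lo l) (hi l))`, `φ = g ∘ h l` (`child_sub`).
Split `Qr (lo l) (hi l) = Qw (lo l) ∪ Qr (lo l + 1) (hi l - 1) ∪ Qw (hi l - 1)`.
 middle: `≤ (1/5) |φ (pt (hi l - 1)) - φ (pt (lo l + 1))| = (1/5)|g m2 - g m1|` (`range_sum` with `κ = 1/5`, `inter_child`; `g` restricted to `[pt l, pt (l+1)]`).
 far: `≤ |φ (pt (j+1)) - φ (pt j)|` = `|g (v l) - g m2|` (class R) or `|g m1 - g (u l)|` (class L) `≤ (1/5)|g m2 - g m1|` (`crc_vol`, `far_right`, `far_left`).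
 near, index `j`: empty if `j < L`. Otherwise the induction hypothesis for window `j` and `φ`: `φ` is `CrC` on `[pt (lo l), pt (hi l)]` (`crc_child`), so of class R if `j = lo l` (`pt (lo l + 2) ≤ pt (hi l)`)
 and of class L if `j = hi l - 1`. Modulus: `x, y ∈ [pt j, j+1]`, `|x-y| ≤ (5/7)^s` ⟹ `|h x - h y| ≤ (5/7)^(s+1)` (`WBig.expand`), and `h x, h y ∈ [pt l, l+1]` (odd `l`: `v l < l+1`; even `l`: `x ≤ j + 1 ≤ hi l`,
 `h l (hi l) = l+1`, `h` increasing). So measure `≤ (2/5)|φ (j+1) - φ (pt j)| + c`.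
 Sum: `(2/5)|g m2 - g m1| + (2/5)|φ (j+1) - φ (pt j)| + c ≤ (2/5)|g (l+1) - g (pt l)| + c`: the points `φ`-preimages are ordered in `[pt l, l+1]`. Near child at the left (class R): `even`: `j = lo l`:
 `h (pt j) = u l`, `h (j+1) ≤ h (pt (j+1)) = m1`. `odd`: `j = hi l - 1`: `h (j+1) ≥ h (pt (hi l)) = u l`, `h (pt j) = m1`. So `[h.., h..] ⊆ [u l, m1]`, and `m2 ≤ l+1` (class R: `m2 < v l`; if `m2 > l + 1`? no: `m2 < l+1`
 because for even `l`, `m2 = h (pt (hi l - 1)) < h (hi l) = l+1`, for odd `l` `v l < l+1`). Near child at the right (class L): even: `j = hi l - 1`: `h (pt j) = m2`, `h (j+1) = h (hi l) = l+1`; odd: `j = lo l`: `h (pt j) = v l < l+1`,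
 `h (j+1) ≥ h (pt (j+1)) = m2`. `crc_add`, `crc_le`.
`rl_lim`: `g` is uniformly continuous on the compact `[pt l, l+1]`; for `c > 0` there is `s` with the modulus property; let `c → 0`. -/

set_option autoImplicit false

namespace Pool.Agent.Lib.MP_a247fa_nt.W

open Set MeasureTheory

/-! ### helper lemmas -/

theorem rl_ss_shift {L : ℕ} {u v : ℕ → ℝ} {y : ℝ} (hy : y ∈ SS L u v) : cf y ∈ SS L u v := by
  intro k
  have := hy (k + 1)
  rwa [Function.iterate_succ_apply] at this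

theorem rl_ss_cover {L : ℕ} {u v : ℕ → ℝ} : ∀ y ∈ SS L u v, ∃ j : ℕ, y ∈ Qw j := by
  intro y hy
  obtain ⟨i, _, hi⟩ := hy 0
  exact ⟨i, hi.1⟩

theorem rl_ss_qw {L : ℕ} {u v : ℕ → ℝ} {l : ℕ} {y : ℝ} (hy : y ∈ SS L u v) (hq : y ∈ Qw l) :
    L ≤ l ∧ y ∈ Icc (u l) (v l) := by
  obtain ⟨i, hi, hi'⟩ := hy 0
  have : i = l := qw_unique hi'.1 hq
  subst this
  exact ⟨hi, hi'.2⟩

/-- the two end children: index of the left one -/
def jl (l : ℕ) : ℕ := if l % 2 = 0 then lo l else hi l - 1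

/-- the two end children: index of the right one -/
def jr (l : ℕ) : ℕ := if l % 2 = 0 then hi l - 1 else lo l

theorem rl_lo_hi {l : ℕ} (hl : 2 ≤ l) : lo l + 3 ≤ hi l := by
  unfold lo hi; omega

theorem rl_split {l : ℕ} (hl : 2 ≤ l) : Qr (lo l) (hi l) ⊆ Qw (jl l) ∪ (Qr (lo l + 1) (hi l - 1) ∪ Qw (jr l)) := by
  have h3 := rl_lo_hi hl
  rintro y ⟨j, h1, h2, h4⟩
  rcases Nat.mod_two_eq_zero_or_one l with he | he
  · simp only [jl, jr, he, if_true]
    rcases Nat.lt_or_ge (lo l) j with h5 | h5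
    · rcases Nat.lt_or_ge j (hi l - 1) with h6 | h6
      · exact Or.inr (Or.inl ⟨j, h5, h6, h4⟩)
      · have : j = hi l - 1 := by omega
        subst this; exact Or.inr (Or.inr h4)
    · have : j = lo l := by omega
      subst this; exact Or.inl h4
  · have he' : ¬ (l % 2 = 0) := by omega
    simp only [jl, jr, he', if_false]
    rcases Nat.lt_or_ge (lo l) j with h5 | h5
    · rcases Nat.lt_or_ge j (hi l - 1) with h6 | h6
      · exact Or.inr (Or.inl ⟨j, h5, h6, h4⟩)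
      · have : j = hi l - 1 := by omega
        subst this; exact Or.inl h4
    · have : j = lo l := by omega
      subst this; exact Or.inr (Or.inr h4)

theorem rl_pt_le {a b : ℕ} (h : a ≤ b) : pt a ≤ pt b := by
  rcases Nat.lt_or_ge a b with h1 | h1
  · exact (pt_strictMono h1).le
  · have : a = b := by omega
    subst this; exact le_rfl

/-- the middle part -/
theorem rl_middle {u v b : ℕ → ℝ} {h : ℕ → ℝ → ℝ} (hW : WSys u v b h) {L : ℕ} (hB : WBig L u v h) {l : ℕ} (hl : L ≤ l)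
    {g : ℝ → ℝ} (hg : CrC g (pt l) (pt (l + 1))) :
    volume ((fun x => g (h l x)) '' (SS L u v ∩ Qr (lo l + 1) (hi l - 1))) ≤
      ENNReal.ofReal (1 / 5 * |g (m2 h l) - g (m1 h l)|) := by
  have hL := hB.big
  have hl2 : 2 ≤ l := by omega
  have h3 := rl_lo_hi hl2
  have hφ := crc_child hW (by omega : 1 ≤ l) hg
  have hφ' : CrC (fun x => g (h l x)) (pt (lo l + 1)) (pt (hi l - 1)) :=
    crc_restrict hφ (rl_pt_le (by omega)) (rl_pt_le (by omega))
  have := range_sum (a := lo l + 1) (c := hi l - 1) (by omega) hφ' (X := SS L u v) (κ := 1 / 5) (by norm_num)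
    (fun j h1 h2 => inter_child hW hL hl hg (by omega) (by omega))
  refine this.trans (ENNReal.ofReal_le_ofReal ?_)
  rcases Nat.mod_two_eq_zero_or_one l with he | he
  · simp only [m1, m2, he, if_true]; exact le_rfl
  · have he' : ¬ (l % 2 = 0) := by omega
    simp only [m1, m2, he', if_false]
    rw [abs_sub_comm]

/-- membership of the points `h l x` for `x` in the core part of a child -/
theorem rl_mem {u v b : ℕ → ℝ} {h : ℕ → ℝ → ℝ} (hW : WSys u v b h) {l : ℕ} (hl : 2 ≤ l) {j : ℕ} (h1 : lo l ≤ j)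
    (h2 : j < hi l) {x : ℝ} (hx : x ∈ Icc (pt j) ((j : ℝ) + 1)) :
    x ∈ Icc (pt (lo l)) (pt (hi l)) ∧ h l x ∈ Icc (pt l) ((l : ℝ) + 1) := by
  have hx' : x ∈ Icc (pt (lo l)) (pt (hi l)) := by
    refine ⟨(rl_pt_le h1).trans hx.1, hx.2.trans ?_⟩
    exact (lt_pt_succ (n := j)).le.trans (rl_pt_le h2)
  refine ⟨hx', ?_⟩
  have hm := hW.h_mem l (by omega) x hx'
  have hgeo := hW.geo l (by omega)
  refine ⟨hgeo.u_gt.le.trans hm.1, ?_⟩
  rcases Nat.mod_two_eq_zero_or_one l with he | he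
  · obtain ⟨e1, e2, e3, e4⟩ := hW.even l (by omega) he
    rw [← e4]
    have hh : ((hi l : ℕ) : ℝ) ∈ Icc (pt (lo l)) (pt (hi l)) := by
      refine ⟨?_, (pt_gt _).le⟩
      have h5 : lo l + 1 ≤ hi l := by omega
      have h6 : pt (lo l) < (lo l : ℝ) + 1 := by
        have := pt_strictMono (show lo l < lo l + 1 by omega)
        have h7 := pt_lt (lo l) (lo_pos (by omega))
        linarith
      have h8 : ((lo l : ℝ) + 1) ≤ (hi l : ℝ) := by exact_mod_cast h5
      linarith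
    apply (e1.monotoneOn) hx' hh
    refine hx.2.trans ?_
    have : j + 1 ≤ hi l := h2
    exact_mod_cast this
  · obtain ⟨_, _, _, e4⟩ := hgeo.odd he
    exact hm.2.trans e4.le

/-- class of `g ∘ h l` on an end child -/
theorem rl_class {u v b : ℕ → ℝ} {h : ℕ → ℝ → ℝ} (hW : WSys u v b h) {l : ℕ} (hl : 2 ≤ l) {g : ℝ → ℝ}
    (hg : CrC g (pt l) (pt (l + 1))) {j : ℕ} (hj : j = lo l ∨ j + 1 = hi l) :
    CrC (fun x => g (h l x)) (pt j) (pt (j + 2)) ∨ CrC (fun x => g (h l x)) (pt (j - 1)) (pt (j + 1)) := by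
  have h3 := rl_lo_hi hl
  have hφ := crc_child hW (by omega : 1 ≤ l) hg
  rcases hj with rfl | hj
  · exact Or.inl (crc_restrict hφ le_rfl (rl_pt_le (by omega)))
  · exact Or.inr (crc_restrict hφ (rl_pt_le (by omega)) (rl_pt_le (by omega)))

theorem rl_jl {l : ℕ} (hl : 2 ≤ l) : (jl l = lo l ∨ jl l + 1 = hi l) ∧ lo l ≤ jl l ∧ jl l < hi l := by
  have h3 := rl_lo_hi hl
  unfold jl
  split_ifs <;> omega

theorem rl_jr {l : ℕ} (hl : 2 ≤ l) : (jr l = lo l ∨ jr l + 1 = hi l) ∧ lo l ≤ jr l ∧ jr l < hi l := by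
  have h3 := rl_lo_hi hl
  unfold jr
  split_ifs <;> omega

/-- `m2 ≤ l + 1` -/
theorem rl_m2_le {u v b : ℕ → ℝ} {h : ℕ → ℝ → ℝ} (hW : WSys u v b h) {L : ℕ} (hB : WBig L u v h) {l : ℕ} (hl : L ≤ l) :
    m2 h l ≤ (l : ℝ) + 1 := by
  have hL := hB.big
  have hl2 : 2 ≤ l := by omega
  have h3 := rl_lo_hi hl2
  have hx : pt (jr l + (if l % 2 = 0 then 0 else 1)) ∈ Icc (pt (lo l)) (pt (hi l)) := by
    constructor
    · apply rl_pt_le; unfold jr; split_ifs <;> omega
    · apply rl_pt_le; unfold jr; split_ifs <;> omega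
  rcases Nat.mod_two_eq_zero_or_one l with he | he
  · have e : m2 h l = h l (pt (hi l - 1)) := by simp [m2, he]
    rw [e]
    have hp : pt (hi l - 1) < ((hi l - 1 : ℕ) : ℝ) + 1 := by
      have h7 := pt_lt (hi l - 1) (by omega)
      linarith
    exact (rl_mem hW hl2 (j := hi l - 1) (by omega) (by omega) ⟨le_rfl, hp.le⟩).2.2
  · have he' : ¬ (l % 2 = 0) := by omega
    have e : m2 h l = h l (pt (lo l + 1)) := by simp [m2, he']
    rw [e]
    have hm := hW.h_mem l (by omega) (pt (lo l + 1)) ⟨rl_pt_le (by omega), rl_pt_le (by omega)⟩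
    exact hm.2.trans ((hW.geo l (by omega)).odd he).2.2.2.le

/-- left end child, core and full -/
theorem rl_left {u v b : ℕ → ℝ} {h : ℕ → ℝ → ℝ} (hW : WSys u v b h) {L : ℕ} (hB : WBig L u v h) {l : ℕ} (hl : L ≤ l)
    {g : ℝ → ℝ} (hg : CrC g (pt l) (pt (l + 1))) :
    |g (h l ((jl l : ℝ) + 1)) - g (h l (pt (jl l)))| ≤ |g (m1 h l) - g (u l)| ∧
    |g (h l (pt (jl l + 1))) - g (h l (pt (jl l)))| = |g (m1 h l) - g (u l)| := by
  have hL := hB.big
  have hl2 : 2 ≤ l := by omega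
  have h3 := rl_lo_hi hl2
  obtain ⟨hu, hm, hv, _, _⟩ := m_bounds hW hB hl
  have hgeo := hW.geo l (by omega)
  have hbig := hgeo.v_lt
  have hjp := pt_lt (jl l) (by have := (rl_jl hl2).2.1; have := lo_pos (show 1 ≤ l by omega); omega)
  have hx : ((jl l : ℝ) + 1) ∈ Icc (pt (jl l)) ((jl l : ℝ) + 1) := ⟨by linarith, le_rfl⟩
  have hx2 := (rl_mem hW hl2 (rl_jl hl2).2.1 (rl_jl hl2).2.2 hx)
  rcases Nat.mod_two_eq_zero_or_one l with he | he
  · obtain ⟨e1, e2, e3, e4⟩ := hW.even l (by omega) he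
    have e5 : jl l = lo l := by simp [jl, he]
    have e6 : m1 h l = h l (pt (lo l + 1)) := by simp [m1, he]
    rw [e5] at hx hx2 ⊢
    rw [e2, ← e6]
    refine ⟨?_, rfl⟩
    have h7 : u l ≤ h l ((lo l : ℝ) + 1) := (hW.h_mem l (by omega) _ hx2.1).1
    have h8 : h l ((lo l : ℝ) + 1) ≤ m1 h l := by
      rw [e6]
      exact e1.monotoneOn hx2.1 ⟨rl_pt_le (by omega), rl_pt_le (by omega)⟩ lt_pt_succ.le
    exact crc_le hg hgeo.u_gt.le le_rfl h7 h8 (by linarith)
  · have he' : ¬ (l % 2 = 0) := by omega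
    obtain ⟨e1, e2, e3⟩ := hW.odd l (by omega) he
    have e5 : jl l = hi l - 1 := by simp [jl, he']
    have e6 : m1 h l = h l (pt (hi l - 1)) := by simp [m1, he']
    have e7 : hi l - 1 + 1 = hi l := by omega
    rw [e5] at hx hx2 ⊢
    rw [← e6, e7, e3]
    refine ⟨?_, abs_sub_comm _ _⟩
    have h7 : u l ≤ h l (((hi l - 1 : ℕ) : ℝ) + 1) := (hW.h_mem l (by omega) _ hx2.1).1
    have h8 : h l (((hi l - 1 : ℕ) : ℝ) + 1) ≤ m1 h l := by
      rw [e6]
      exact e1.antitoneOn ⟨rl_pt_le (by omega), rl_pt_le (by omega)⟩ hx2.1 hx.1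
    rw [abs_sub_comm]
    exact crc_le hg (hgeo.u_gt.le.trans h7) le_rfl h8 le_rfl (by linarith) |>.trans
      (crc_le hg hgeo.u_gt.le h7 h8 le_rfl (by linarith))

/-- right end child, core and full -/
theorem rl_right {u v b : ℕ → ℝ} {h : ℕ → ℝ → ℝ} (hW : WSys u v b h) {L : ℕ} (hB : WBig L u v h) {l : ℕ} (hl : L ≤ l)
    {g : ℝ → ℝ} (hg : CrC g (pt l) (pt (l + 1))) :
    |g (h l ((jr l : ℝ) + 1)) - g (h l (pt (jr l)))| ≤ |g ((l : ℝ) + 1) - g (m2 h l)| ∧
    |g (h l (pt (jr l + 1))) - g (h l (pt (jr l)))| = |g (v l) - g (m2 h l)| := by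
  have hL := hB.big
  have hl2 : 2 ≤ l := by omega
  have h3 := rl_lo_hi hl2
  obtain ⟨hu, hm, hv, _, _⟩ := m_bounds hW hB hl
  have hgeo := hW.geo l (by omega)
  have hbig := hgeo.v_lt
  have hjp := pt_lt (jr l) (by have := (rl_jr hl2).2.1; have := lo_pos (show 1 ≤ l by omega); omega)
  have hx : ((jr l : ℝ) + 1) ∈ Icc (pt (jr l)) ((jr l : ℝ) + 1) := ⟨by linarith, le_rfl⟩
  have hx2 := (rl_mem hW hl2 (rl_jr hl2).2.1 (rl_jr hl2).2.2 hx)
  have hm0 : pt l ≤ m2 h l := by have := hgeo.u_gt; linarith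
  have hl1 : (l : ℝ) + 1 ≤ pt (l + 1) := lt_pt_succ.le
  rcases Nat.mod_two_eq_zero_or_one l with he | he
  · obtain ⟨e1, e2, e3, e4⟩ := hW.even l (by omega) he
    have e5 : jr l = hi l - 1 := by simp [jr, he]
    have e6 : m2 h l = h l (pt (hi l - 1)) := by simp [m2, he]
    have e7 : hi l - 1 + 1 = hi l := by omega
    have e8 : (((hi l - 1 : ℕ) : ℝ) + 1) = ((hi l : ℕ) : ℝ) := by
      rw [← e7]; push_cast; simp
    rw [e5, ← e6, e8, e4, e7, e3]
    exact ⟨le_rfl, rfl⟩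
  · have he' : ¬ (l % 2 = 0) := by omega
    obtain ⟨e1, e2, e3⟩ := hW.odd l (by omega) he
    have e5 : jr l = lo l := by simp [jr, he']
    have e6 : m2 h l = h l (pt (lo l + 1)) := by simp [m2, he']
    rw [e5] at hx hx2 ⊢
    rw [e2, ← e6]
    refine ⟨?_, abs_sub_comm _ _⟩
    have hvl := (hgeo.odd he).2.2.2
    have h8 : m2 h l ≤ h l ((lo l : ℝ) + 1) := by
      rw [e6]
      exact e1.antitoneOn hx2.1 ⟨rl_pt_le (by omega), rl_pt_le (by omega)⟩ lt_pt_succ.le
    have h9 : h l ((lo l : ℝ) + 1) ≤ v l := (hW.h_mem l (by omega) _ hx2.1).2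
    rw [abs_sub_comm]
    exact crc_le hg hm0 h8 h9 hvl.le hl1

/-- the full end child as an upper bound -/
theorem rl_full {u v b : ℕ → ℝ} {h : ℕ → ℝ → ℝ} (hW : WSys u v b h) {l : ℕ} (hl : 2 ≤ l)
    {g : ℝ → ℝ} (hg : CrC g (pt l) (pt (l + 1))) {j : ℕ} (h1 : lo l ≤ j) (h2 : j < hi l) (X : Set ℝ) :
    volume ((fun x => g (h l x)) '' (X ∩ Qw j)) ≤
      ENNReal.ofReal |g (h l (pt (j + 1))) - g (h l (pt j))| := by
  have hφ := crc_child hW (by omega : 1 ≤ l) hg
  refine crc_vol (x := pt j) (y := pt (j + 1)) hφ (rl_pt_le h1) (rl_pt_le (by omega)) (rl_pt_le h2) ?_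
  exact inter_subset_right.trans (qw_sub.trans Ioo_subset_Icc_self)

/-- the image of the stay set of window `l` -/
theorem rl_cover {u v b : ℕ → ℝ} {h : ℕ → ℝ → ℝ} (hW : WSys u v b h) {L l : ℕ} (hl : 2 ≤ l) (g : ℝ → ℝ) :
    g '' (SS L u v ∩ Qw l) ⊆ ((fun x => g (h l x)) '' (SS L u v ∩ Qw (jl l))) ∪
      (((fun x => g (h l x)) '' (SS L u v ∩ Qr (lo l + 1) (hi l - 1))) ∪
        ((fun x => g (h l x)) '' (SS L u v ∩ Qw (jr l)))) := by
  have h1 := child_sub hW (by omega : 1 ≤ l) (X := SS L u v) (Y := SS L u v ∩ Qw l) rl_ss_cover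
    (fun y hy => ⟨(rl_ss_qw hy.1 hy.2).2, rl_ss_shift hy.1⟩) g
  refine h1.trans ?_
  rw [← image_union, ← image_union, ← inter_union_distrib_left, ← inter_union_distrib_left]
  exact image_mono (inter_subset_inter_right _ (rl_split hl))

theorem rl_empty {L : ℕ} {u v : ℕ → ℝ} {j : ℕ} (hj : j < L) (φ : ℝ → ℝ) :
    volume (φ '' (SS L u v ∩ Qw j)) = 0 := by
  have : SS L u v ∩ Qw j = ∅ := by
    ext y
    simp only [mem_inter_iff, mem_empty_iff_false, iff_false, not_and]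
    intro h1 h2
    have := (rl_ss_qw h1 h2).1
    omega
  rw [this]; simp

theorem rl_step {u v b : ℕ → ℝ} {h : ℕ → ℝ → ℝ} (hW : WSys u v b h) {L : ℕ} (hB : WBig L u v h) (s : ℕ) :
    ∀ l : ℕ, L ≤ l → ∀ (g : ℝ → ℝ) (c : ℝ), 0 ≤ c → (CrC g (pt l) (pt (l + 2)) ∨ CrC g (pt (l - 1)) (pt (l + 1))) →
      (∀ x ∈ Icc (pt l) ((l : ℝ) + 1), ∀ y ∈ Icc (pt l) ((l : ℝ) + 1), |x - y| ≤ (5 / 7) ^ s → |g x - g y| ≤ c) →
      volume (g '' (SS L u v ∩ Qw l)) ≤ ENNReal.ofReal (2 / 5 * |g ((l : ℝ) + 1) - g (pt l)| + c) := by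
  induction s with
  | zero =>
    intro l hl g c hc hg hmod
    have hL := hB.big
    have hg' : CrC g (pt l) (pt (l + 1)) := by
      rcases hg with hg | hg
      · exact crc_restrict hg le_rfl (rl_pt_le (by omega))
      · exact crc_restrict hg (rl_pt_le (by omega)) le_rfl
    have hp := pt_lt l (by omega)
    have hq := pt_gt l
    have h1 := crc_vol (x := pt l) (y := (l : ℝ) + 1) hg' le_rfl (by linarith) lt_pt_succ.le
      (X := SS L u v ∩ Qw l) (inter_subset_right.trans Ioo_subset_Icc_self)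
    refine h1.trans (ENNReal.ofReal_le_ofReal ?_)
    have h2 := hmod ((l : ℝ) + 1) ⟨by linarith, le_rfl⟩ (pt l) ⟨le_rfl, by linarith⟩ (by
      rw [pow_zero, abs_le]; constructor <;> linarith)
    have h3 : 0 ≤ |g ((l : ℝ) + 1) - g (pt l)| := abs_nonneg _
    linarith
  | succ s ih =>
    intro l hl g c hc hg hmod
    have hL := hB.big
    have hl2 : 2 ≤ l := by omega
    have hg' : CrC g (pt l) (pt (l + 1)) := by
      rcases hg with hg | hg
      · exact crc_restrict hg le_rfl (rl_pt_le (by omega))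
      · exact crc_restrict hg (rl_pt_le (by omega)) le_rfl
    have hgeo := hW.geo l (by omega)
    obtain ⟨hu, hm, hv, _, _⟩ := m_bounds hW hB hl
    have hm2 := rl_m2_le hW hB hl
    have hl1 : (l : ℝ) + 1 ≤ pt (l + 1) := lt_pt_succ.le
    -- the near child
    have near : ∀ j : ℕ, (j = lo l ∨ j + 1 = hi l) → lo l ≤ j → j < hi l →
        volume ((fun x => g (h l x)) '' (SS L u v ∩ Qw j)) ≤
          ENNReal.ofReal (2 / 5 * |g (h l ((j : ℝ) + 1)) - g (h l (pt j))| + c) := by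
      intro j hj h1 h2
      rcases Nat.lt_or_ge j L with h5 | h5
      · rw [rl_empty h5]; simp
      · refine ih j h5 (fun x => g (h l x)) c hc (rl_class hW hl2 hg' hj) ?_
        intro x hx y hy hxy
        refine hmod _ (rl_mem hW hl2 h1 h2 hx).2 _ (rl_mem hW hl2 h1 h2 hy).2 ?_
        refine (hB.expand l hl j hj x hx y hy).trans ?_
        rw [pow_succ]
        rw [div_le_iff₀ (by norm_num)]
        linarith
    have hmid := rl_middle hW hB hl hg'
    have hcov := rl_cover hW (L := L) hl2 g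
    have hL1 := rl_left hW hB hl hg'
    have hR1 := rl_right hW hB hl hg'
    have e1 : |g ((l : ℝ) + 1) - g (pt l)| = |g ((l : ℝ) + 1) - g (m2 h l)| + (|g (m2 h l) - g (m1 h l)| +
        (|g (m1 h l) - g (u l)| + |g (u l) - g (pt l)|)) := by
      rw [crc_add hg' le_rfl (hgeo.u_gt.le.trans (hu.le.trans hm.le)) hm2 hl1,
        crc_add hg' le_rfl (hgeo.u_gt.le.trans hu.le) hm.le (hm2.trans hl1),
        crc_add hg' le_rfl hgeo.u_gt.le hu.le (hm.le.trans (hm2.trans hl1))]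
    have p1 := abs_nonneg (g ((l : ℝ) + 1) - g (m2 h l))
    have p2 := abs_nonneg (g (m2 h l) - g (m1 h l))
    have p3 := abs_nonneg (g (m1 h l) - g (u l))
    have p4 := abs_nonneg (g (u l) - g (pt l))
    rcases hg with hgR | hgL
    · -- near child on the left
      have hn := near (jl l) (rl_jl hl2).1 (rl_jl hl2).2.1 (rl_jl hl2).2.2
      have hf := rl_full hW hl2 hg' (rl_jr hl2).2.1 (rl_jr hl2).2.2 (SS L u v)
      rw [hR1.2] at hf
      have hfar := far_right hW hB hl hgR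
      refine (measure_mono hcov).trans ((measure_union_le _ _).trans ((add_le_add hn
        ((measure_union_le _ _).trans (add_le_add hmid hf))).trans ?_))
      rw [← ENNReal.ofReal_add (by positivity) (by positivity), ← ENNReal.ofReal_add (by positivity) (by positivity)]
      apply ENNReal.ofReal_le_ofReal
      rw [e1]
      linarith [hL1.1]
    · -- near child on the right
      have hn := near (jr l) (rl_jr hl2).1 (rl_jr hl2).2.1 (rl_jr hl2).2.2
      have hf := rl_full hW hl2 hg' (rl_jl hl2).2.1 (rl_jl hl2).2.2 (SS L u v)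
      rw [hL1.2] at hf
      have hfar := far_left hW hB hl hgL
      refine (measure_mono hcov).trans ((measure_union_le _ _).trans ((add_le_add hf
        ((measure_union_le _ _).trans (add_le_add hmid hn))).trans ?_))
      rw [← ENNReal.ofReal_add (by positivity) (by positivity), ← ENNReal.ofReal_add (by positivity) (by positivity)]
      apply ENNReal.ofReal_le_ofReal
      rw [e1]
      linarith [hR1.1]

theorem rl_lim {u v b : ℕ → ℝ} {h : ℕ → ℝ → ℝ} (hW : WSys u v b h) {L : ℕ} (hB : WBig L u v h) {l : ℕ} (hl : L ≤ l)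
    {g : ℝ → ℝ} (hg : CrC g (pt l) (pt (l + 2)) ∨ CrC g (pt (l - 1)) (pt (l + 1))) :
    volume (g '' (SS L u v ∩ Qw l)) ≤ ENNReal.ofReal (2 / 5 * |g ((l : ℝ) + 1) - g (pt l)|) := by
  have hL := hB.big
  have hg' : CrC g (pt l) (pt (l + 1)) := by
    rcases hg with hg | hg
    · exact crc_restrict hg le_rfl (rl_pt_le (by omega))
    · exact crc_restrict hg (rl_pt_le (by omega)) le_rfl
  have hcont : ContinuousOn g (Icc (pt l) ((l : ℝ) + 1)) :=
    hg'.cont.mono (Icc_subset_Icc_right lt_pt_succ.le)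
  have huc := isCompact_Icc.uniformContinuousOn_of_continuous hcont
  apply le_of_forall_pos_le_add
  intro ε hε
  by_cases hεt : ε = ⊤
  · rw [hεt]; simp
  have hε' : 0 < ε.toReal := ENNReal.toReal_pos hε.ne' hεt
  rw [Metric.uniformContinuousOn_iff_le] at huc
  obtain ⟨δ, hδ, hδ2⟩ := huc ε.toReal hε'
  obtain ⟨s, hs⟩ := exists_pow_lt_of_lt_one hδ (show (5 / 7 : ℝ) < 1 by norm_num)
  have h1 := rl_step hW hB s l hl g ε.toReal hε'.le hg (by
    intro x hx y hy hxy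
    have := hδ2 x hx y hy (by rw [Real.dist_eq]; exact hxy.trans hs.le)
    rwa [Real.dist_eq] at this)
  refine h1.trans ?_
  rw [ENNReal.ofReal_add (by positivity) hε'.le, ENNReal.ofReal_toReal hεt]

end Pool.Agent.Lib.MP_a247fa_nt.W
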