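import Pool.Agent.Lib.MP_a247fa_nt.W.CrcBasic
import Pool.Agent.Lib.MP_a247fa_nt.W.PtLem

/-! RANGESUM (40 min). Summing over consecutive windows, and passing from a window to its children.

`range_sum`: induction on `c`. `X ∩ {.. j < c+1} = (X ∩ {.. j < c}) ∪ (X ∩ Qw c)`; outer measure is subadditive (`image_union`, `measure_union_le`), and
`|φ (pt (c+1)) - φ (pt a)| = |φ (pt c) - φ (pt a)| + |φ (pt (c+1)) - φ (pt c)|` (`crc_add`), `ENNReal.ofReal_add`. Base `c = a`: empty image.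
`child_sub`: `y ∈ Y` is `h i (cf y)` (`h_cf`), `cf y ∈ X ⊆ ⋃ Qw j` and `cf y ∈ [pt (lo i), pt (hi i)]` (`cf_mem`): `cf y ∈ Qw j` with `pt (lo i) ≤ cf y < j+1 < pt (j+1)`, so `lo i ≤ j`,
`pt j < cf y ≤ pt (hi i)`, so `j < hi i` (`pt_strictMono`). -/

set_option autoImplicit false

namespace Pool.Agent.Lib.MP_a247fa_nt.W

open Set MeasureTheory

theorem pt_mono {m n : ℕ} (h : m ≤ n) : pt m ≤ pt n := by
  rcases h.lt_or_eq with h1 | h1
  · exact (pt_strictMono h1).le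
  · rw [h1]

/-- union of the core windows `a ≤ j < c` -/
def Qr (a c : ℕ) : Set ℝ := {y | ∃ j : ℕ, a ≤ j ∧ j < c ∧ y ∈ Qw j}

theorem range_sum {φ : ℝ → ℝ} {a c : ℕ} (hac : a ≤ c) (hφ : CrC φ (pt a) (pt c)) {X : Set ℝ} {κ : ℝ} (hκ : 0 ≤ κ)
    (hX : ∀ j, a ≤ j → j < c → volume (φ '' (X ∩ Qw j)) ≤ ENNReal.ofReal (κ * |φ (pt (j + 1)) - φ (pt j)|)) :
    volume (φ '' (X ∩ Qr a c)) ≤ ENNReal.ofReal (κ * |φ (pt c) - φ (pt a)|) := by
  obtain ⟨d, rfl⟩ := Nat.exists_eq_add_of_le hac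
  clear hac
  induction d with
  | zero =>
    have h0 : X ∩ Qr a (a + 0) = ∅ := by
      ext y
      simp only [mem_inter_iff, mem_empty_iff_false, iff_false]
      rintro ⟨_, j, h1, h2, _⟩
      omega
    rw [h0, image_empty, measure_empty]
    exact zero_le
  | succ d ih =>
    have e1 : a + (d + 1) = a + d + 1 := by omega
    rw [e1] at hφ hX ⊢
    have m1 : pt a ≤ pt (a + d) := pt_mono (by omega)
    have m2 : pt (a + d) ≤ pt (a + d + 1) := pt_mono (by omega)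
    have ih' := ih (crc_restrict hφ le_rfl m2) (fun j h1 h2 => hX j h1 (by omega))
    have hlast := hX (a + d) (by omega) (by omega)
    have hsub : X ∩ Qr a (a + d + 1) ⊆ (X ∩ Qr a (a + d)) ∪ (X ∩ Qw (a + d)) := by
      rintro y ⟨hy, j, h1, h2, h3⟩
      rcases Nat.lt_or_ge j (a + d) with h4 | h4
      · exact Or.inl ⟨hy, j, h1, h4, h3⟩
      · have h5 : j = a + d := by omega
        rw [h5] at h3
        exact Or.inr ⟨hy, h3⟩
    calc volume (φ '' (X ∩ Qr a (a + d + 1)))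
        ≤ volume (φ '' (X ∩ Qr a (a + d)) ∪ φ '' (X ∩ Qw (a + d))) := by
          rw [← image_union]
          exact measure_mono (image_mono hsub)
      _ ≤ volume (φ '' (X ∩ Qr a (a + d))) + volume (φ '' (X ∩ Qw (a + d))) := measure_union_le _ _
      _ ≤ ENNReal.ofReal (κ * |φ (pt (a + d)) - φ (pt a)|) +
          ENNReal.ofReal (κ * |φ (pt (a + d + 1)) - φ (pt (a + d))|) := add_le_add ih' hlast
      _ = ENNReal.ofReal (κ * |φ (pt (a + d + 1)) - φ (pt a)|) := by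
          rw [← ENNReal.ofReal_add (mul_nonneg hκ (abs_nonneg _)) (mul_nonneg hκ (abs_nonneg _)),
            crc_add hφ le_rfl m1 m2 le_rfl]
          congr 1
          ring

theorem child_sub {u v b : ℕ → ℝ} {h : ℕ → ℝ → ℝ} (hW : WSys u v b h) {i : ℕ} (hi1 : 1 ≤ i) {X Y : Set ℝ}
    (hX : ∀ y ∈ X, ∃ j : ℕ, y ∈ Qw j) (hY : ∀ y ∈ Y, y ∈ Icc (u i) (v i) ∧ cf y ∈ X) (g : ℝ → ℝ) :
    g '' Y ⊆ (fun x => g (h i x)) '' (X ∩ Qr (lo i) (hi i)) := by
  rintro _ ⟨y, hy, rfl⟩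
  obtain ⟨hI, hX'⟩ := hY y hy
  obtain ⟨j, hj⟩ := hX _ hX'
  have hm := hW.cf_mem i hi1 y hI
  refine ⟨cf y, ⟨hX', j, ?_, ?_, hj⟩, ?_⟩
  · by_contra hcon
    have h1 : ((j : ℝ) + 1) ≤ (lo i : ℕ) := by exact_mod_cast (show j + 1 ≤ lo i by omega)
    have h2 := pt_gt (lo i)
    have h3 := hj.2
    have h4 := hm.1
    linarith
  · by_contra hcon
    have h1 : pt (hi i) ≤ pt j := pt_mono (by omega)
    have h2 := hj.1
    have h3 := hm.2
    linarith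
  · show g (h i (cf y)) = g y
    rw [hW.h_cf i hi1 y hI]

theorem lo_pos {i : ℕ} (hi1 : 1 ≤ i) : 1 ≤ lo i := by
  unfold lo
  omega

theorem lo_lt_hi (i : ℕ) : lo i < hi i := by
  unfold lo hi
  omega

/-- `g ∘ h i` is of class `CrC` on the range of the window -/
theorem crc_child {u v b : ℕ → ℝ} {h : ℕ → ℝ → ℝ} (hW : WSys u v b h) {i : ℕ} (hi1 : 1 ≤ i) {g : ℝ → ℝ}
    (hg : CrC g (pt i) (pt (i + 1))) : CrC (fun x => g (h i x)) (pt (lo i)) (pt (hi i)) := by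
  refine crc_comp hg (hW.crc i hi1) (fun x hx => ?_)
  have h1 := hW.h_mem i hi1 x hx
  have h2 := hW.geo i hi1
  exact ⟨h2.u_gt.le.trans h1.1, h1.2.trans h2.v_lt.le⟩

/-- total length of the children: `|g (h i (pt (hi i))) - g (h i (pt (lo i)))| = |g (v i) - g (u i)|` -/
theorem child_total {u v b : ℕ → ℝ} {h : ℕ → ℝ → ℝ} (hW : WSys u v b h) {i : ℕ} (hi1 : 1 ≤ i) (g : ℝ → ℝ) :
    |g (h i (pt (hi i))) - g (h i (pt (lo i)))| = |g (v i) - g (u i)| := by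
  rcases Nat.mod_two_eq_zero_or_one i with h0 | h0
  · obtain ⟨_, h1, h2, _⟩ := hW.even i hi1 h0
    rw [h1, h2]
  · obtain ⟨_, h1, h2⟩ := hW.odd i hi1 h0
    rw [h1, h2, abs_sub_comm]

end Pool.Agent.Lib.MP_a247fa_nt.W
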