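import Pool.Agent.Lib.MP_a247fa_nt.W.RangeSum
import Pool.Agent.Lib.MP_a247fa_nt.W.CrcLem

/-! VISITLOW (50 min). Almost no point stays in the inner intervals and visits the windows below `L` infinitely often.

`exists_theta`: for each `i` with `1 ≤ i < L`, `crc_middle` for `pt i < u i < v i < pt (i+1)` gives `θ_i < 1`; take the maximum (finite set; or induction on `L`).
`visit_AA`: induction on `k`. `AA 0 0`: trivial bound (`crc_vol`, `Qw i ⊆ [pt i, pt (i+1)]`), `AA 0 (r+1)` empty. Step: the point has index `i` (`qw_unique`), so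
`AA (k+1) r ∩ Qw i ⊆ {y ∈ Qw i ∩ [u i, v i] : cf y ∈ AA k (r-1)}` if `i < L`, `.. cf y ∈ AA k r` if `L ≤ i`; `child_sub`, `range_sum` with `κ = θ^(r-1)` resp. `θ^r`, `child_total`:
measure `≤ θ^(r-1)|g (v i) - g (u i)| ≤ θ^r |g (pt (i+1)) - g (pt i)|` if `i < L`, `r ≥ 1` (`exists_theta`); for `r = 0` use `crc_le`.
`mem_AA`: if `y ∈ SS 1 ` then for all `k` : `y ∈ AA k r` with `r` = number of `k' < k` whose window is `< L`; in particular if the windows of `cf^[k'] y` are `< L` for infinitely many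
`k'`, then for every `r` there is `k0` with `y ∈ AA k r` for ALL `k ≥ k0` (prove: `y ∈ SS 1`, `y ∈ AA k r → y ∈ AA (k+1) r`; `AA k (r+1) ⊆ AA k r`).
`visit_null`: the set `V` in question is, for each `r`, inside the increasing union over `k` of `V_k = {y ∈ V : y ∈ AA k r ...}` (take `V_k = ⋂ k' ≥ k` or use that `k ↦ SS 1 ∩ AA k r` is
increasing), so its measure is `≤ θ^r` for all `r` (`g = id`, `|pt (i+1) - pt i| ≤ 2`), times a constant, hence `0`. -/

set_option autoImplicit false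

namespace Pool.Agent.Lib.MP_a247fa_nt.W

open Set MeasureTheory

theorem exists_theta {u v b : ℕ → ℝ} {h : ℕ → ℝ → ℝ} (hW : WSys u v b h) (L : ℕ) :
    ∃ θ : ℝ, 0 ≤ θ ∧ θ < 1 ∧ ∀ i : ℕ, 1 ≤ i → i < L → ∀ g : ℝ → ℝ, CrC g (pt i) (pt (i + 1)) →
      |g (v i) - g (u i)| ≤ θ * |g (pt (i + 1)) - g (pt i)| := by
  induction L with
  | zero => exact ⟨0, le_rfl, zero_lt_one, fun i _ hi => absurd hi (Nat.not_lt_zero i)⟩
  | succ L ih =>
    obtain ⟨θ0, h00, h01, h0⟩ := ih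
    rcases Nat.eq_zero_or_pos L with hL | hL
    · subst hL
      exact ⟨θ0, h00, h01, fun i hi1 hi => absurd hi (by omega)⟩
    · have hg := hW.geo L hL
      obtain ⟨θ1, h10, h11, h1⟩ := crc_middle hg.u_gt hg.u_lt hg.v_lt
      refine ⟨max θ0 θ1, le_trans h00 (le_max_left _ _), max_lt h01 h11, ?_⟩
      intro i hi1 hi g hgc
      rcases Nat.lt_succ_iff_lt_or_eq.1 hi with hlt | heq
      · exact le_trans (h0 i hi1 hlt g hgc) (mul_le_mul_of_nonneg_right (le_max_left _ _) (abs_nonneg _))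
      · subst heq
        exact le_trans (h1 g hgc) (mul_le_mul_of_nonneg_right (le_max_right _ _) (abs_nonneg _))

theorem AA_sub {L : ℕ} {u v : ℕ → ℝ} (k r : ℕ) : ∀ y ∈ AA L u v k r, ∃ j : ℕ, y ∈ Qw j := by
  intro y hy
  cases k with
  | zero =>
    cases r with
    | zero =>
      obtain ⟨i, -, hi⟩ := hy
      exact ⟨i, hi⟩
    | succ r => exact absurd hy (Set.notMem_empty y)
  | succ k =>
    obtain ⟨i, -, hi, -⟩ := hy
    exact ⟨i, hi⟩

theorem visit_AA {u v b : ℕ → ℝ} {h : ℕ → ℝ → ℝ} (hW : WSys u v b h) {L : ℕ} {θ : ℝ} (hθ0 : 0 ≤ θ) (hθ1 : θ < 1)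
    (hθ : ∀ i : ℕ, 1 ≤ i → i < L → ∀ g : ℝ → ℝ, CrC g (pt i) (pt (i + 1)) →
      |g (v i) - g (u i)| ≤ θ * |g (pt (i + 1)) - g (pt i)|) (k : ℕ) :
    ∀ r i : ℕ, 1 ≤ i → ∀ g : ℝ → ℝ, CrC g (pt i) (pt (i + 1)) →
      volume (g '' (AA L u v k r ∩ Qw i)) ≤ ENNReal.ofReal (θ ^ r * |g (pt (i + 1)) - g (pt i)|) := by
  induction k with
  | zero =>
    intro r i hi1 g hg
    cases r with
    | zero =>
      rw [pow_zero, one_mul]
      have hlt : pt i < pt (i + 1) := pt_strictMono (Nat.lt_succ_self i)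
      refine crc_vol hg le_rfl hlt.le le_rfl ?_
      intro y hy
      exact Ioo_subset_Icc_self (qw_sub hy.2)
    | succ r =>
      have he : AA L u v 0 (r + 1) ∩ Qw i = ∅ := by
        have h0 : AA L u v 0 (r + 1) = ∅ := rfl
        rw [h0, Set.empty_inter]
      rw [he, Set.image_empty, measure_empty]
      exact zero_le
  | succ k ih =>
    intro r i hi1 g hg
    have hgeo := hW.geo i hi1
    have hstep : ∀ s : ℕ, (∀ y ∈ AA L u v (k + 1) r ∩ Qw i, y ∈ Icc (u i) (v i) ∧ cf y ∈ AA L u v k s) →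
        volume (g '' (AA L u v (k + 1) r ∩ Qw i)) ≤ ENNReal.ofReal (θ ^ s * |g (v i) - g (u i)|) := by
      intro s hs
      have h1 := child_sub hW hi1 (X := AA L u v k s) (Y := AA L u v (k + 1) r ∩ Qw i) (AA_sub k s) hs g
      refine le_trans (measure_mono h1) ?_
      have hcc := crc_child hW hi1 hg
      have h2 := range_sum (lo_lt_hi i).le hcc (X := AA L u v k s) (κ := θ ^ s) (pow_nonneg hθ0 s) (by
        intro j hj1 hj2
        refine ih s j (le_trans (lo_pos hi1) hj1) _ ?_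
        refine crc_restrict hcc ?_ ?_
        · rcases Nat.lt_or_eq_of_le hj1 with hlt | heq
          · exact (pt_strictMono hlt).le
          · rw [heq]
        · rcases Nat.lt_or_eq_of_le (Nat.succ_le_of_lt hj2) with hlt | heq
          · exact (pt_strictMono hlt).le
          · rw [← heq])
      refine le_trans h2 ?_
      rw [child_total hW hi1 g]
    have huv : |g (v i) - g (u i)| ≤ |g (pt (i + 1)) - g (pt i)| :=
      crc_le hg le_rfl hgeo.u_gt.le hgeo.u_lt.le hgeo.v_lt.le le_rfl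
    by_cases hiL : i < L
    · have hs := hstep (r - 1) (by
        intro y hy
        obtain ⟨⟨i', hi', hQ', hI', hor⟩, hQ⟩ := hy
        have hii : i' = i := qw_unique hQ' hQ
        subst hii
        rcases hor with ⟨_, hc⟩ | ⟨hc, _⟩
        · exact ⟨hI', hc⟩
        · exact absurd hc (by omega))
      refine le_trans hs (ENNReal.ofReal_le_ofReal ?_)
      cases r with
      | zero =>
        have : (0 - 1 : ℕ) = 0 := rfl
        rw [this]
        exact mul_le_mul_of_nonneg_left huv (pow_nonneg hθ0 _)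
      | succ r =>
        have : (r + 1 - 1 : ℕ) = r := rfl
        rw [this, pow_succ, mul_assoc]
        exact mul_le_mul_of_nonneg_left (hθ i hi1 hiL g hg) (pow_nonneg hθ0 _)
    · have hs := hstep r (by
        intro y hy
        obtain ⟨⟨i', hi', hQ', hI', hor⟩, hQ⟩ := hy
        have hii : i' = i := qw_unique hQ' hQ
        subst hii
        rcases hor with ⟨hc, _⟩ | ⟨_, hc⟩
        · exact absurd hc hiL
        · exact ⟨hI', hc⟩)
      refine le_trans hs (ENNReal.ofReal_le_ofReal ?_)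
      exact mul_le_mul_of_nonneg_left huv (pow_nonneg hθ0 _)

private theorem SS_cf {u v : ℕ → ℝ} {y : ℝ} (hy : y ∈ SS 1 u v) : cf y ∈ SS 1 u v := by
  intro k
  have := hy (k + 1)
  rwa [Function.iterate_succ_apply] at this

private theorem SS_iter {u v : ℕ → ℝ} {y : ℝ} (hy : y ∈ SS 1 u v) (n : ℕ) : cf^[n] y ∈ SS 1 u v := by
  intro k
  have := hy (k + n)
  rwa [Function.iterate_add_apply] at this

private theorem AA_mono_k {L : ℕ} {u v : ℕ → ℝ} (k : ℕ) : ∀ r : ℕ, ∀ y ∈ SS 1 u v,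
    y ∈ AA L u v k r → y ∈ AA L u v (k + 1) r := by
  induction k with
  | zero =>
    intro r y hS hy
    cases r with
    | zero =>
      obtain ⟨i, hi1, hQ, hI⟩ := hS 0
      obtain ⟨j, hj1, hQj, -⟩ := hS 1
      refine ⟨i, hi1, hQ, hI, ?_⟩
      by_cases hiL : i < L
      · exact Or.inl ⟨hiL, ⟨j, hj1, hQj⟩⟩
      · exact Or.inr ⟨by omega, ⟨j, hj1, hQj⟩⟩
    | succ r => exact absurd hy (Set.notMem_empty y)
  | succ k ih =>
    intro r y hS hy
    obtain ⟨i, hi1, hQ, hI, hor⟩ := hy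
    refine ⟨i, hi1, hQ, hI, ?_⟩
    rcases hor with ⟨hiL, hc⟩ | ⟨hiL, hc⟩
    · exact Or.inl ⟨hiL, ih (r - 1) (cf y) (SS_cf hS) hc⟩
    · exact Or.inr ⟨hiL, ih r (cf y) (SS_cf hS) hc⟩

private theorem AA_anti_r {L : ℕ} {u v : ℕ → ℝ} (k : ℕ) : ∀ r : ℕ, AA L u v k (r + 1) ⊆ AA L u v k r := by
  induction k with
  | zero =>
    intro r y hy
    exact absurd hy (Set.notMem_empty y)
  | succ k ih =>
    intro r y hy
    obtain ⟨i, hi1, hQ, hI, hor⟩ := hy
    refine ⟨i, hi1, hQ, hI, ?_⟩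
    rcases hor with ⟨hiL, hc⟩ | ⟨hiL, hc⟩
    · refine Or.inl ⟨hiL, ?_⟩
      have hc' : cf y ∈ AA L u v k r := hc
      cases r with
      | zero => exact hc'
      | succ r => exact ih r hc'
    · exact Or.inr ⟨hiL, ih r hc⟩

private theorem AA_back {L : ℕ} {u v : ℕ → ℝ} {k r : ℕ} {y : ℝ} (hS : y ∈ SS 1 u v) (hc : cf y ∈ AA L u v k r) :
    y ∈ AA L u v (k + 1) r := by
  obtain ⟨i, hi1, hQ, hI⟩ := hS 0
  refine ⟨i, hi1, hQ, hI, ?_⟩
  by_cases hiL : i < L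
  · refine Or.inl ⟨hiL, ?_⟩
    cases r with
    | zero => exact hc
    | succ r => exact AA_anti_r k r hc
  · exact Or.inr ⟨by omega, hc⟩

private theorem AA_back_iter {L : ℕ} {u v : ℕ → ℝ} {k r : ℕ} (n : ℕ) : ∀ y : ℝ, y ∈ SS 1 u v →
    cf^[n] y ∈ AA L u v k r → y ∈ AA L u v (k + n) r := by
  induction n with
  | zero =>
    intro y _ h
    exact h
  | succ n ih =>
    intro y hS h
    rw [Function.iterate_succ_apply] at h
    exact AA_back hS (ih (cf y) (SS_cf hS) h)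

private theorem AA_inf {L : ℕ} {u v : ℕ → ℝ} (r : ℕ) : ∀ y ∈ SS 1 u v,
    (∀ K : ℕ, ∃ k : ℕ, K ≤ k ∧ ∃ j : ℕ, j < L ∧ cf^[k] y ∈ Qw j) → ∃ k : ℕ, y ∈ AA L u v k r := by
  induction r with
  | zero =>
    intro y hS _
    obtain ⟨i, hi1, hQ, -⟩ := hS 0
    exact ⟨0, i, hi1, hQ⟩
  | succ r ih =>
    intro y hS hinf
    obtain ⟨k1, -, j, hjL, hQj⟩ := hinf 0
    obtain ⟨k, hk⟩ := ih (cf^[k1 + 1] y) (SS_iter hS (k1 + 1)) (by
      intro K
      obtain ⟨m, hm, j', hj', hQ'⟩ := hinf (K + (k1 + 1))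
      refine ⟨m - (k1 + 1), by omega, j', hj', ?_⟩
      rw [← Function.iterate_add_apply, Nat.sub_add_cancel (by omega)]
      exact hQ')
    refine ⟨k + 1 + k1, AA_back_iter k1 y hS ?_⟩
    rw [Function.iterate_succ_apply'] at hk
    obtain ⟨i, hi1, hQ, hI⟩ := hS k1
    have hij : i = j := qw_unique hQ hQj
    exact ⟨i, hi1, hQ, hI, Or.inl ⟨by omega, hk⟩⟩

theorem visit_null {u v b : ℕ → ℝ} {h : ℕ → ℝ → ℝ} (hW : WSys u v b h) (L : ℕ) {i : ℕ} (hi1 : 1 ≤ i) :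
    volume ({y | y ∈ SS 1 u v ∧ ∀ K : ℕ, ∃ k : ℕ, K ≤ k ∧ ∃ j : ℕ, j < L ∧ cf^[k] y ∈ Qw j} ∩ Qw i) = 0 := by
  obtain ⟨θ, hθ0, hθ1, hθ⟩ := exists_theta hW L
  have key : ∀ r : ℕ, volume ({y | y ∈ SS 1 u v ∧ ∀ K : ℕ, ∃ k : ℕ, K ≤ k ∧ ∃ j : ℕ, j < L ∧ cf^[k] y ∈ Qw j} ∩ Qw i) ≤
      ENNReal.ofReal (θ ^ r * |pt (i + 1) - pt i|) := by
    intro r
    have hsub : {y | y ∈ SS 1 u v ∧ ∀ K : ℕ, ∃ k : ℕ, K ≤ k ∧ ∃ j : ℕ, j < L ∧ cf^[k] y ∈ Qw j} ∩ Qw i ⊆
        ⋃ k : ℕ, SS 1 u v ∩ (AA L u v k r ∩ Qw i) := by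
      intro y hy
      obtain ⟨k, hk⟩ := AA_inf (L := L) r y hy.1.1 hy.1.2
      exact Set.mem_iUnion.2 ⟨k, hy.1.1, hk, hy.2⟩
    refine le_trans (measure_mono hsub) ?_
    have hmono : Monotone fun k : ℕ => SS 1 u v ∩ (AA L u v k r ∩ Qw i) := by
      refine monotone_nat_of_le_succ fun k y hy => ?_
      exact ⟨hy.1, AA_mono_k k r y hy.1 hy.2.1, hy.2.2⟩
    rw [hmono.measure_iUnion]
    refine iSup_le fun k => ?_
    refine le_trans (measure_mono Set.inter_subset_right) ?_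
    have := visit_AA hW hθ0 hθ1 hθ k r i hi1 (fun x => x) (crc_id _ _)
    rwa [Set.image_id'] at this
  have hlim : Filter.Tendsto (fun r : ℕ => ENNReal.ofReal (θ ^ r * |pt (i + 1) - pt i|)) Filter.atTop (nhds 0) := by
    have h1 : Filter.Tendsto (fun r : ℕ => θ ^ r * |pt (i + 1) - pt i|) Filter.atTop (nhds 0) := by
      have := (tendsto_pow_atTop_nhds_zero_of_lt_one hθ0 hθ1).mul_const |pt (i + 1) - pt i|
      rwa [zero_mul] at this
    have h2 := ENNReal.tendsto_ofReal h1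
    rwa [ENNReal.ofReal_zero] at h2
  exact nonpos_iff_eq_zero.1 (ge_of_tendsto' hlim key)

end Pool.Agent.Lib.MP_a247fa_nt.W
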