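import Pool.Agent.Lib.MP_a247fa_nt.W.MLim
import Pool.Agent.Lib.MP_a247fa_nt.W.VisitLow

/-! SNULL (30 min). `SS 1` is null.

`y ∈ SS 1 ∩ Qw i`: either the windows `< L` are visited infinitely often (`visit_null`), or there is `K` with `cf^[k] y` in windows `≥ L` for all `k ≥ K` (the window index is unique, `qw_unique`), i.e.
`cf^[K] y ∈ SS L`. Put `E K = {y ∈ SS 1 : cf^[K] y ∈ SS L}`. Claim by induction on `K`: for all `i ≥ 1` and `g` with `CrC g (pt i) (pt (i+1))`: `volume (g '' (E K ∩ Qw i)) = 0`. `K = 0`: `SS_null_g`.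
Step: `g '' (E (K+1) ∩ Qw i) ⊆ (g ∘ h i) '' (E K ∩ Qr (lo i) (hi i))` (`child_sub`), `range_sum` with `κ = 0`. Finally `g = id` and a countable union. -/

set_option autoImplicit false

namespace Pool.Agent.Lib.MP_a247fa_nt.W

open Set MeasureTheory

theorem SS_one_null {u v b : ℕ → ℝ} {h : ℕ → ℝ → ℝ} (hW : WSys u v b h) {L : ℕ} (hB : WBig L u v h) {i : ℕ} (hi1 : 1 ≤ i) :
    volume (SS 1 u v ∩ Qw i) = 0 := by
  -- the points of `SS 1` which are in `SS L` after `K` steps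
  have hE0 : ∀ K : ℕ, ∀ y ∈ {y | y ∈ SS 1 u v ∧ cf^[K] y ∈ SS L u v}, ∃ j : ℕ, y ∈ Qw j := by
    rintro K y ⟨hy, -⟩
    obtain ⟨j, -, hj⟩ := hy 0
    exact ⟨j, hj.1⟩
  have hstep : ∀ K : ℕ, ∀ l : ℕ, 1 ≤ l → ∀ g : ℝ → ℝ, CrC g (pt l) (pt (l + 1)) →
      volume (g '' ({y | y ∈ SS 1 u v ∧ cf^[K] y ∈ SS L u v} ∩ Qw l)) = 0 := by
    intro K
    induction K with
    | zero =>
      intro l hl g hg
      refine measure_mono_null (image_mono ?_) (SS_null_g hW hB l hl hg)
      rintro y ⟨⟨-, h2⟩, h3⟩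
      exact ⟨h2, h3⟩
    | succ K ih =>
      intro l hl g hg
      have hsub := child_sub hW hl (X := {y | y ∈ SS 1 u v ∧ cf^[K] y ∈ SS L u v})
        (Y := {y | y ∈ SS 1 u v ∧ cf^[K + 1] y ∈ SS L u v} ∩ Qw l) (hE0 K) (by
          rintro y ⟨⟨h1, h2⟩, h3⟩
          obtain ⟨j, hj1, hj2, hj3⟩ := h1 0
          have hjl : j = l := qw_unique hj2 h3
          subst hjl
          refine ⟨hj3, fun k => ?_, ?_⟩
          · have := h1 (k + 1)
            rwa [Function.iterate_succ_apply] at this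
          · rwa [Function.iterate_succ_apply] at h2) g
      refine measure_mono_null hsub ?_
      have h4 := range_sum (lo_lt_hi l).le (crc_child hW hl hg)
        (X := {y | y ∈ SS 1 u v ∧ cf^[K] y ∈ SS L u v}) (κ := 0) le_rfl (by
          intro j hj1 hj2
          have hlo : 1 ≤ lo l := lo_pos hl
          have hcj : CrC (fun x => g (h l x)) (pt j) (pt (j + 1)) := by
            refine crc_restrict (crc_child hW hl hg) ?_ ?_
            · rcases hj1.eq_or_lt with h | h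
              · rw [h]
              · exact (pt_strictMono h).le
            · rcases (show j + 1 ≤ hi l by omega).eq_or_lt with h | h
              · rw [h]
              · exact (pt_strictMono h).le
          rw [ih j (by omega) _ hcj]
          exact zero_le)
      rw [zero_mul, ENNReal.ofReal_zero] at h4
      exact le_antisymm h4 zero_le
  have hsub : SS 1 u v ∩ Qw i ⊆
      ({y | y ∈ SS 1 u v ∧ ∀ K : ℕ, ∃ k : ℕ, K ≤ k ∧ ∃ j : ℕ, j < L ∧ cf^[k] y ∈ Qw j} ∩ Qw i) ∪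
      ⋃ K : ℕ, ({y | y ∈ SS 1 u v ∧ cf^[K] y ∈ SS L u v} ∩ Qw i) := by
    rintro y ⟨h1, h2⟩
    by_cases hinf : ∀ K : ℕ, ∃ k : ℕ, K ≤ k ∧ ∃ j : ℕ, j < L ∧ cf^[k] y ∈ Qw j
    · exact Or.inl ⟨⟨h1, hinf⟩, h2⟩
    · right
      push Not at hinf
      obtain ⟨K, hK⟩ := hinf
      refine mem_iUnion.2 ⟨K, ⟨h1, fun k => ?_⟩, h2⟩
      obtain ⟨j, hj1, hj2⟩ := h1 (k + K)
      rw [← Function.iterate_add_apply]
      refine ⟨j, ?_, hj2⟩
      by_contra hlt
      push Not at hlt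
      exact hK (k + K) (by omega) j hlt hj2.1
  refine measure_mono_null hsub (measure_union_null (visit_null hW L hi1) ?_)
  rw [measure_iUnion_null_iff]
  intro K
  have := hstep K i hi1 (fun x => x) (crc_id _ _)
  rwa [image_id'] at this

end Pool.Agent.Lib.MP_a247fa_nt.W
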