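import Pool.Agent.Lib.MP_a247fa_nt.W.CrcInv
import Pool.Agent.Lib.MP_a247fa_nt.W.GeoEven
import Pool.Agent.Lib.MP_a247fa_nt.W.GeoOdd
import Pool.Agent.Lib.MP_a247fa_nt.W.GeoOne

/-! SYSMK (30 min). Existence of the system of windows and inverse branches.

For every `i ≥ 1` choose `u i, v i, b i` with `GeoAt` (`geo_one` if `i = 1`, `geo_even`, `geo_odd`), and `h i` from `exists_inv_pos` (even) or
`exists_inv_neg` (odd) on `[u i, v i]` (`0 ≤ u i` since `pt i > 0`). `h i (pt (lo i)) = u i` for even `i`: `pt (lo i) = cf (u i)` and `h (cf y) = y`.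
`h i (hi i) = i+1` for even `i`: `i+1 ∈ [u i, v i]` (`GeoAt.even`: `i+1 ≤ v`; `u i < i+1` because `cf (i+1) = T(i+1) = hi i > pt (lo i) = cf u` and `cf` increases
on `[u,v]`; if `i + 1 < u` then `cf u` ... simpler: `u < v`, `i + 1 ≤ v`; if `i + 1 < u` then `u, v ∈ (i+1, pt (i+1))`, but `cf u = pt (lo i) ≤ hi i = cf (i+1)`,
and `cf` is increasing on `[i+1, pt (i+1)]` by `near_dcf_odd`, contradiction). `cf (i+1) = T (i+1) = hi i` (`cf_natCast`). -/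

set_option autoImplicit false

namespace Pool.Agent.Lib.MP_a247fa_nt.W

open Set

theorem SysMk_geo {i : ℕ} (hi1 : 1 ≤ i) : ∃ u v b : ℝ, GeoAt i u v b := by
  rcases Nat.mod_two_eq_zero_or_one i with h | h
  · obtain ⟨u, v, G⟩ := geo_even h (by omega)
    exact ⟨u, v, _, G⟩
  · rcases (show i = 1 ∨ 3 ≤ i by omega) with h1 | h1
    · subst h1
      obtain ⟨u, v, G⟩ := geo_one
      exact ⟨u, v, _, G⟩
    · exact geo_odd h h1

theorem SysMk_hi {i : ℕ} (h : i % 2 = 0) : cf ((i : ℝ) + 1) = ((hi i : ℕ) : ℝ) := by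
  have h1 := cf_natCast (i + 1)
  push_cast at h1
  rw [h1]
  have e : T (i + 1) = hi i := by
    unfold T hi
    rw [if_neg (by omega)]
    omega
  rw [e]

theorem SysMk_le {i : ℕ} (hi1 : 1 ≤ i) (h : i % 2 = 0) {u v b : ℝ} (G : GeoAt i u v b) : u ≤ (i : ℝ) + 1 := by
  by_contra hcon
  rw [not_le] at hcon
  have hu : u < pt (i + 1) := G.u_lt.trans G.v_lt
  have hm : StrictMonoOn cf (Icc ((i : ℝ) + 1) u) := by
    refine strictMonoOn_of_deriv_pos (convex_Icc _ _) continuous_cf.continuousOn fun x hx => ?_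
    rw [interior_Icc] at hx
    rw [deriv_cf]
    refine near_dcf_odd (m := i + 1) (by omega) (by omega) ?_ ?_
    · push_cast
      exact hx.1.le
    · exact (hx.2.trans hu).le
  have h1 := hm ⟨le_rfl, hcon.le⟩ ⟨hcon.le, le_rfl⟩ hcon
  rw [SysMk_hi h, (G.even h).2.1] at h1
  have h2 : 1 ≤ lo i := by unfold lo; omega
  have h3 := pt_lt (lo i) h2
  have h4 : lo i + 1 ≤ hi i := by unfold lo hi; omega
  have h5 : ((lo i : ℕ) : ℝ) + 1 ≤ ((hi i : ℕ) : ℝ) := by exact_mod_cast h4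
  linarith

theorem SysMk_window {i : ℕ} (hi1 : 1 ≤ i) : ∃ (u v b : ℝ) (h : ℝ → ℝ), GeoAt i u v b ∧
    CrC h (pt (lo i)) (pt (hi i)) ∧
    (∀ x ∈ Icc (pt (lo i)) (pt (hi i)), h x ∈ Icc u v) ∧
    (∀ x ∈ Icc (pt (lo i)) (pt (hi i)), cf (h x) = x) ∧
    (∀ y ∈ Icc u v, cf y ∈ Icc (pt (lo i)) (pt (hi i))) ∧
    (∀ y ∈ Icc u v, h (cf y) = y) ∧
    (i % 2 = 0 → StrictMonoOn h (Icc (pt (lo i)) (pt (hi i))) ∧
      h (pt (lo i)) = u ∧ h (pt (hi i)) = v ∧ h ((hi i : ℕ) : ℝ) = (i : ℝ) + 1) ∧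
    (i % 2 = 1 → StrictAntiOn h (Icc (pt (lo i)) (pt (hi i))) ∧
      h (pt (lo i)) = v ∧ h (pt (hi i)) = u) := by
  obtain ⟨u, v, b, G⟩ := SysMk_geo hi1
  have hu0 : 0 ≤ u := by
    have h1 := pt_gt i
    have h2 := G.u_gt
    have h3 : (0 : ℝ) ≤ i := Nat.cast_nonneg i
    linarith
  have huI : u ∈ Icc u v := ⟨le_rfl, G.u_lt.le⟩
  have hvI : v ∈ Icc u v := ⟨G.u_lt.le, le_rfl⟩
  rcases Nat.mod_two_eq_zero_or_one i with h0 | h0
  · obtain ⟨e1, e2, e3, e4⟩ := G.even h0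
    obtain ⟨h, a1, a2, a3, a4, a5, a6⟩ := exists_inv_pos hu0 G.u_lt e1
    rw [e2, e3] at a1 a2 a3 a4 a5
    refine ⟨u, v, b, h, G, a1, a3, a4, a5, a6, fun _ => ⟨a2, ?_, ?_, ?_⟩, fun hc => by omega⟩
    · rw [← e2]
      exact a6 u huI
    · rw [← e3]
      exact a6 v hvI
    · rw [← SysMk_hi h0]
      exact a6 _ ⟨SysMk_le hi1 h0 G, e4⟩
  · obtain ⟨e1, e2, e3, e4⟩ := G.odd h0
    obtain ⟨h, a1, a2, a3, a4, a5, a6⟩ := exists_inv_neg hu0 G.u_lt e1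
    rw [e2, e3] at a1 a2 a3 a4 a5
    refine ⟨u, v, b, h, G, a1, a3, a4, a5, a6, fun hc => by omega, fun _ => ⟨a2, ?_, ?_⟩⟩
    · rw [← e3]
      exact a6 v hvI
    · rw [← e2]
      exact a6 u huI

theorem exists_sys : ∃ (u v b : ℕ → ℝ) (h : ℕ → ℝ → ℝ), WSys u v b h := by
  have key : ∀ i : ℕ, ∃ (u v b : ℝ) (h : ℝ → ℝ), 1 ≤ i → GeoAt i u v b ∧
      CrC h (pt (lo i)) (pt (hi i)) ∧
      (∀ x ∈ Icc (pt (lo i)) (pt (hi i)), h x ∈ Icc u v) ∧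
      (∀ x ∈ Icc (pt (lo i)) (pt (hi i)), cf (h x) = x) ∧
      (∀ y ∈ Icc u v, cf y ∈ Icc (pt (lo i)) (pt (hi i))) ∧
      (∀ y ∈ Icc u v, h (cf y) = y) ∧
      (i % 2 = 0 → StrictMonoOn h (Icc (pt (lo i)) (pt (hi i))) ∧
        h (pt (lo i)) = u ∧ h (pt (hi i)) = v ∧ h ((hi i : ℕ) : ℝ) = (i : ℝ) + 1) ∧
      (i % 2 = 1 → StrictAntiOn h (Icc (pt (lo i)) (pt (hi i))) ∧
        h (pt (lo i)) = v ∧ h (pt (hi i)) = u) := by
    intro i
    rcases Nat.eq_zero_or_pos i with h | h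
    · exact ⟨0, 0, 0, fun x => x, fun hc => by omega⟩
    · obtain ⟨u, v, b, g, hg⟩ := SysMk_window (i := i) h
      exact ⟨u, v, b, g, fun _ => hg⟩
  choose u v b h hall using key
  exact ⟨u, v, b, h, fun i hi1 => (hall i hi1).1, fun i hi1 => (hall i hi1).2.1,
    fun i hi1 => (hall i hi1).2.2.1, fun i hi1 => (hall i hi1).2.2.2.1, fun i hi1 => (hall i hi1).2.2.2.2.1,
    fun i hi1 => (hall i hi1).2.2.2.2.2.1, fun i hi1 => (hall i hi1).2.2.2.2.2.2.1,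
    fun i hi1 => (hall i hi1).2.2.2.2.2.2.2⟩

end Pool.Agent.Lib.MP_a247fa_nt.W
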